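import Pool.Agent.Lib.H16F.E2

/-!
# E3 (M): an isometry of `Ω` extends to an automorphism of `F^alg`

The two `F`-algebra homomorphisms `φ, φ' : F ⊗[K] Ω → F^alg`, `a ⊗ x ↦ a ι(x)` and `a ⊗ x ↦ a ι(g x)`
(`Algebra.TensorProduct.lift (Algebra.ofId F _) ι _` / `Algebra.TensorProduct.productMap`).  Every tensor
is a finite sum `∑ a_i ⊗ x_i`, so `ker_le` gives `ker φ ≤ ker φ'`.  So there is an `F`-algebra homomorphism
`τ : φ.range → F^alg` with `τ (φ t) = φ' t` (`Ideal.Quotient.liftₐ` and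
`Ideal.quotientKerAlgEquivOfSurjective`, or `AlgHom.liftOfSurjective`-like).
`B = φ.range` is an `F`-subalgebra of the algebraic extension `F^alg`, so a field
(`Subalgebra.isField_of_algebraic`, `IntermediateField` with `toSubalgebra = B`).  Extend `τ` to an
`F`-algebra homomorphism `σ : F^alg → F^alg` (`F^alg` is algebraic over `B`:
`IntermediateField.exists_algHom_of_...`, `IsAlgClosed.lift` over `B` with the algebra structure `τ`, or
`Algebra.IsAlgebraic`/`IsAlgClosed.surjective_restrictDomain_of_isAlgebraic`).  `σ` is bijective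
(`Algebra.IsAlgebraic.algHom_bijective`).  `σ (ι x) = τ (φ (1 ⊗ x)) = φ' (1 ⊗ x) = ι (g x)`.
-/

namespace H16F

open scoped TensorProduct

theorem e3_sum {R A B : Type*} [CommSemiring R] [CommSemiring A] [Algebra R A] [CommSemiring B]
    [Algebra R B] (t : A ⊗[R] B) : ∃ (n : ℕ) (a : Fin n → A) (x : Fin n → B),
      t = ∑ i, a i ⊗ₜ[R] x i := by
  induction t using TensorProduct.induction_on with
  | zero => exact ⟨0, fun _ => 0, fun _ => 0, by simp⟩
  | tmul a b => exact ⟨1, fun _ => a, fun _ => b, by simp⟩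
  | add t t' h h' =>
    obtain ⟨n, a, x, h⟩ := h
    obtain ⟨n', a', x', h'⟩ := h'
    refine ⟨n + n', Fin.append a a', Fin.append x x', ?_⟩
    rw [Fin.sum_univ_add, h, h']
    simp

theorem exists_ext {K : Type*} [Field K] {F : Type*} [NontriviallyNormedField F]
    [IsUltrametricDist F] [CompleteSpace F] [Algebra K F]
    (hd : ∀ (x : F) (ε : ℝ), 0 < ε → ∃ y : K, ‖x - algebraMap K F y‖ < ε)
    {Ω : Type*} [Field Ω] [Algebra K Ω] (ι : Ω →ₐ[K] AlgebraicClosure F) (g : Ω ≃ₐ[K] Ω)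
    (hg : ∀ x, spectralNorm F (AlgebraicClosure F) (ι (g x)) =
      spectralNorm F (AlgebraicClosure F) (ι x)) :
    ∃ σ : AlgebraicClosure F ≃ₐ[F] AlgebraicClosure F, ∀ x, ι (g x) = σ (ι x) := by
  let φ : F ⊗[K] Ω →ₐ[F] AlgebraicClosure F :=
    Algebra.TensorProduct.lift (Algebra.ofId F _) ι (fun _ _ => Commute.all _ _)
  let φ' : F ⊗[K] Ω →ₐ[F] AlgebraicClosure F :=
    Algebra.TensorProduct.lift (Algebra.ofId F _) (ι.comp g.toAlgHom) (fun _ _ => Commute.all _ _)
  have hφ : ∀ (a : F) (x : Ω), φ (a ⊗ₜ x) = algebraMap F _ a * ι x := fun a x =>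
    Algebra.TensorProduct.lift_tmul _ _ _ _ _
  have hφ' : ∀ (a : F) (x : Ω), φ' (a ⊗ₜ x) = algebraMap F _ a * ι (g x) := fun a x =>
    Algebra.TensorProduct.lift_tmul _ _ _ _ _
  have hker : ∀ t, φ t = 0 → φ' t = 0 := by
    intro t ht
    obtain ⟨n, a, x, rfl⟩ := e3_sum t
    rw [map_sum] at ht ⊢
    simp only [hφ] at ht
    simp only [hφ']
    exact ker_le hd ι g hg n a x ht
  let L : IntermediateField F (AlgebraicClosure F) :=
    φ.range.toIntermediateField' (Subalgebra.isField_of_algebraic _)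
  let τ : φ.range →ₐ[F] AlgebraicClosure F :=
    AlgHom.liftOfSurjective φ.rangeRestrict φ.rangeRestrict_surjective φ' (by
      intro t ht
      refine hker t ?_
      have h1 : φ.rangeRestrict t = 0 := ht
      exact congrArg Subtype.val h1)
  have hτ : ∀ t, τ (φ.rangeRestrict t) = φ' t := fun t =>
    AlgHom.liftOfSurjective_apply _ _ _ _ _
  let f : L →ₐ[F] AlgebraicClosure F := τ
  obtain ⟨ψ, hψ⟩ := IntermediateField.exists_algHom_of_splits (F := F) (E := AlgebraicClosure F)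
    (K := AlgebraicClosure F)
    (fun s => ⟨Algebra.IsIntegral.isIntegral s, IsAlgClosed.splits _⟩) f
  refine ⟨AlgEquiv.ofBijective ψ (Algebra.IsAlgebraic.algHom_bijective ψ), fun x => ?_⟩
  have h1 : φ (1 ⊗ₜ x) = ι x := by rw [hφ, map_one, one_mul]
  have h2 : φ' (1 ⊗ₜ x) = ι (g x) := by rw [hφ', map_one, one_mul]
  have h3 : ψ (φ (1 ⊗ₜ x)) = τ (φ.rangeRestrict (1 ⊗ₜ x)) :=
    DFunLike.congr_fun hψ (φ.rangeRestrict (1 ⊗ₜ x) : L)
  rw [hτ, h1, h2] at h3
  exact h3.symm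

end H16F
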