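import Mathlib

/-!
# E7a (S/M): `K` is dense in `K_v`, in terms of the norm

`K_v = v.adicCompletion K` with the norm of `Valued.toNontriviallyNormedField` (as in H16C/TR1.lean,
`place_fin`).  `K` is dense in `K_v`: `UniformSpace.Completion.denseRange_coe` (or
`HeightOneSpectrum.denseRange_algebraMap_adicCompletion`, or `Valued` API: for every `γ` in the units of the
value group there is `y ∈ K` with `Valued.v (x - y) < γ`), and `‖·‖` induces the given topology.
Write `Metric` density: for `x`, `ε` the ball of radius `ε` at `x` is open and nonempty, so it contains an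
element of the dense range (`DenseRange.exists_dist_lt`, `Metric.denseRange_iff`).
-/

open NumberField IsDedekindDomain
open scoped WithZero

namespace H16F

theorem dense_adic {K : Type*} [Field K] [NumberField K] (v : HeightOneSpectrum (𝓞 K)) :
    letI := Valued.toNontriviallyNormedField (v.adicCompletion K) ℤᵐ⁰
    ∀ (x : v.adicCompletion K) (ε : ℝ), 0 < ε →
      ∃ y : K, ‖x - algebraMap K (v.adicCompletion K) y‖ < ε := by
  letI := Valued.toNontriviallyNormedField (v.adicCompletion K) ℤᵐ⁰
  intro x ε hε
  have h1 : DenseRange (algebraMap K (v.adicCompletion K)) :=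
    HeightOneSpectrum.denseRange_algebraMap K v
  obtain ⟨y, hy⟩ := h1.exists_dist_lt x hε
  refine ⟨y, ?_⟩
  rw [dist_eq_norm] at hy
  exact hy

end H16F
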