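import Pool.Agent.Lib.H16A.X7

/-!
# A1 (S/M): `ω(m) ≤ C log X / log log X` for `m ≤ X`

`omega_le` (H16A/X7) with `ε = 1`: `ω(n) ≤ 2 log n / log log n` for `n ≥ B`.  `y ↦ y / log y` is increasing for `y ≥ e`
(derivative; or: `log u / u` decreasing for `u ≥ e`, `Real.log_div_self_antitoneOn`), so `log n/log log n ≤
log X/log log X` for `16 ≤ n ≤ X` (`log 16 > e`).  For `n < max(B, 16)`: `ω(n) ≤ n < B + 16` (`n.primeFactors ⊆ range (n+1)`).
For `X ≥ 16`: `log X / log log X ≥ 1` (`log y ≤ y`).  So `c (1 + ω(m)) ≤ c (1 + B + 16 + 2) log X/log log X`.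
-/

namespace H16F

theorem omega_max (c : ℕ) : ∃ C : ℝ, ∀ X : ℝ, 16 ≤ X → ∀ m : ℕ, m ≠ 0 → (m : ℝ) ≤ X →
    (c : ℝ) * (1 + (m.primeFactors.card : ℝ)) ≤ C * (Real.log X / Real.log (Real.log X)) := by
  obtain ⟨B, hB⟩ := H16A.omega_le (ε := 1) one_pos
  have he : Real.exp 1 ≤ Real.log 16 := by
    have h1 : Real.exp 1 < 2.7182818286 := Real.exp_one_lt_d9
    have h2 : 0.6931471803 < Real.log 2 := Real.log_two_gt_d9
    have h3 : Real.log 16 = 4 * Real.log 2 := by
      rw [show (16 : ℝ) = 2 ^ 4 by norm_num, Real.log_pow]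
      norm_num
    rw [h3]
    linarith
  have hmono : ∀ u v : ℝ, Real.exp 1 ≤ u → u ≤ v → u / Real.log u ≤ v / Real.log v := by
    intro u v hu huv
    have h0 : (0 : ℝ) < Real.exp 1 := Real.exp_pos 1
    have hu0 : 0 < u := h0.trans_le hu
    have hv0 : 0 < v := hu0.trans_le huv
    have hlu : 0 < Real.log u := by
      have := Real.log_le_log h0 hu
      rw [Real.log_exp] at this
      linarith
    have hlv : 0 < Real.log v := hlu.trans_le (Real.log_le_log hu0 huv)
    have h1 : Real.log v / v ≤ Real.log u / u :=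
      Real.log_div_self_antitoneOn (show Real.exp 1 ≤ u from hu)
        (show Real.exp 1 ≤ v from hu.trans huv) huv
    rw [div_le_div_iff₀ hlu hlv]
    rw [div_le_div_iff₀ hv0 hu0] at h1
    linarith
  refine ⟨(c : ℝ) * (1 + B + 16 + 2), fun X hX m hm hmX => ?_⟩
  have hX0 : (0 : ℝ) < X := by linarith
  have hlX : Real.exp 1 ≤ Real.log X := he.trans (Real.log_le_log (by norm_num) hX)
  have hlX0 : 0 < Real.log X := (Real.exp_pos 1).trans_le hlX
  have hllX : 1 ≤ Real.log (Real.log X) := by
    have := Real.log_le_log (Real.exp_pos 1) hlX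
    rwa [Real.log_exp] at this
  have hq1 : 1 ≤ Real.log X / Real.log (Real.log X) := by
    rw [le_div_iff₀ (by linarith), one_mul]
    have := Real.log_le_sub_one_of_pos hlX0
    linarith
  set Y := Real.log X / Real.log (Real.log X) with hY
  have hω : (m.primeFactors.card : ℝ) ≤ (B + 16 + 2) * Y := by
    by_cases hb : m < B + 16
    · have h1 : m.primeFactors.card ≤ m := by
        have h2 : m.primeFactors ⊆ Finset.Icc 1 m := by
          intro p hp
          rw [Finset.mem_Icc]
          exact ⟨(Nat.prime_of_mem_primeFactors hp).one_le, Nat.le_of_mem_primeFactors hp⟩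
        have h3 := Finset.card_le_card h2
        rwa [Nat.card_Icc, Nat.add_sub_cancel] at h3
      have h2 : (m.primeFactors.card : ℝ) ≤ B + 16 := by
        have h3 : m.primeFactors.card ≤ B + 16 := by omega
        exact_mod_cast h3
      have h3 : ((B : ℝ) + 16) * 1 ≤ (B + 16 + 2) * Y :=
        mul_le_mul (by linarith) hq1 (by norm_num) (by positivity)
      linarith
    · push_neg at hb
      have h1 := hB m (by omega)
      have hm16 : (16 : ℝ) ≤ m := by
        have : 16 ≤ m := by omega
        exact_mod_cast this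
      have h2 : Real.log m / Real.log (Real.log m) ≤ Y :=
        hmono _ _ (he.trans (Real.log_le_log (by norm_num) hm16))
          (Real.log_le_log (by linarith) hmX)
      have h3 : (1 + 1 : ℝ) * (Real.log m / Real.log (Real.log m)) ≤ (B + 16 + 2) * Y := by
        refine mul_le_mul ?_ h2 ?_ (by positivity)
        · have : (0 : ℝ) ≤ B := Nat.cast_nonneg B
          linarith
        · have h4 : Real.exp 1 ≤ Real.log m := he.trans (Real.log_le_log (by norm_num) hm16)
          have h5 : 0 < Real.log m := (Real.exp_pos 1).trans_le h4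
          have h6 := Real.log_le_log (Real.exp_pos 1) h4
          rw [Real.log_exp] at h6
          exact div_nonneg h5.le (by linarith)
      exact h1.trans h3
  have hc0 : (0 : ℝ) ≤ c := Nat.cast_nonneg c
  calc (c : ℝ) * (1 + (m.primeFactors.card : ℝ)) ≤ c * (1 * Y + (B + 16 + 2) * Y) :=
        mul_le_mul_of_nonneg_left (by linarith) hc0
    _ = (c : ℝ) * (1 + B + 16 + 2) * Y := by ring

end H16F
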