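import Pool.Agent.Lib.H16E.B0

/-!
# A2 (M): points of a box with residues in a given set

For one residue vector `r : ι → ZMod M` the number of the `x ∈ box X` with `x ≡ r mod M` is
`∏_i #{a ∈ [-X, X] | a ≡ r_i mod M} ≤ ((2X+1)/M + 1)^#ι` (an interval of `2X+1` consecutive integers contains at most
`(2X+1)/M + 1` elements of a residue class: `Int.Ico_filter_modEq_card`, `Int.Ioc_filter_modEq_card`; the set of the `x` is
`Fintype.piFinset` of these sets, `Fintype.card_piFinset`).  Sum over `r ∈ Rs` (`Finset.card_eq_sum_card_fiberwise` or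
`card_biUnion_le`).
-/

open Finset

namespace H16F

open H16E

open Classical in
theorem box_res {ι : Type*} [Fintype ι] [DecidableEq ι] (M X : ℕ) (hM : 0 < M)
    (Rs : Finset (ι → ZMod M)) :
    ((box ι X).filter fun x => (fun i => ((x i : ℤ) : ZMod M)) ∈ Rs).card ≤
      Rs.card * ((2 * X + 1) / M + 1) ^ Fintype.card ι := by
  have hM0 : (0 : ℤ) < M := by exact_mod_cast hM
  -- one residue class in an interval
  have hone : ∀ r : ZMod M, ((Finset.Icc (-(X : ℤ)) X).filter fun a => ((a : ℤ) : ZMod M) = r).card ≤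
      (2 * X + 1) / M + 1 := by
    intro r
    have h1 : ((Finset.Icc (-(X : ℤ)) X).filter fun a => ((a : ℤ) : ZMod M) = r).card ≤
        (Finset.range ((2 * X + 1) / M + 1)).card := by
      refine Finset.card_le_card_of_injOn (fun a => ((a + X) / M).toNat) ?_ ?_
      · intro a ha
        rw [Finset.mem_coe, Finset.mem_filter, Finset.mem_Icc] at ha
        rw [Finset.mem_coe, Finset.mem_range]
        have h2 : (a + X) / (M : ℤ) ≤ (((2 * X + 1) / M : ℕ) : ℤ) := by
          rw [Int.natCast_div]
          exact Int.ediv_le_ediv hM0 (by push_cast; omega)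
        have h3 : ((a + X) / (M : ℤ)).toNat ≤ (2 * X + 1) / M := Int.toNat_le.2 h2
        exact Nat.lt_succ_of_le h3
      · intro a ha a' ha' h
        rw [Finset.mem_coe, Finset.mem_filter, Finset.mem_Icc] at ha ha'
        have h2 : 0 ≤ (a + X) / (M : ℤ) := Int.ediv_nonneg (by omega) hM0.le
        have h3 : 0 ≤ (a' + X) / (M : ℤ) := Int.ediv_nonneg (by omega) hM0.le
        have h4 : (a + X) / (M : ℤ) = (a' + X) / (M : ℤ) := by
          have h5 : ((a + X) / (M : ℤ)).toNat = ((a' + X) / (M : ℤ)).toNat := h
          omega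
        have h5 : ((a : ℤ) : ZMod M) = ((a' : ℤ) : ZMod M) := ha.2.trans ha'.2.symm
        have h6 : (a + X) % (M : ℤ) = (a' + X) % (M : ℤ) := by
          have h7 : a ≡ a' [ZMOD M] := (ZMod.intCast_eq_intCast_iff a a' M).1 h5
          exact Int.ModEq.add_right (X : ℤ) h7
        have h8 := Int.emod_add_mul_ediv (a + X) M
        have h9 := Int.emod_add_mul_ediv (a' + X) M
        rw [h4, h6, h9] at h8
        omega
    rwa [Finset.card_range] at h1
  -- the vectors with given residues
  have hvec : ∀ r : ι → ZMod M, ((box ι X).filter fun x => (fun i => ((x i : ℤ) : ZMod M)) = r).card ≤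
      ((2 * X + 1) / M + 1) ^ Fintype.card ι := by
    intro r
    have h1 : ((box ι X).filter fun x => (fun i => ((x i : ℤ) : ZMod M)) = r) ⊆
        Fintype.piFinset fun i => (Finset.Icc (-(X : ℤ)) X).filter fun a => ((a : ℤ) : ZMod M) = r i := by
      intro x hx
      rw [Finset.mem_filter] at hx
      rw [Fintype.mem_piFinset]
      intro i
      rw [Finset.mem_filter]
      have h2 := hx.1
      unfold H16E.box at h2
      rw [Fintype.mem_piFinset] at h2
      exact ⟨h2 i, congrFun hx.2 i⟩
    refine (Finset.card_le_card h1).trans ?_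
    rw [Fintype.card_piFinset]
    refine (Finset.prod_le_prod' fun i _ => hone (r i)).trans (le_of_eq ?_)
    rw [Finset.prod_const, Finset.card_univ]
  have hcov : ((box ι X).filter fun x => (fun i => ((x i : ℤ) : ZMod M)) ∈ Rs) ⊆
      Rs.biUnion fun r => (box ι X).filter fun x => (fun i => ((x i : ℤ) : ZMod M)) = r := by
    intro x hx
    rw [Finset.mem_filter] at hx
    rw [Finset.mem_biUnion]
    exact ⟨_, hx.2, Finset.mem_filter.2 ⟨hx.1, rfl⟩⟩
  refine (Finset.card_le_card hcov).trans (Finset.card_biUnion_le.trans ?_)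
  refine (Finset.sum_le_sum fun r _ => hvec r).trans (le_of_eq ?_)
  rw [Finset.sum_const, smul_eq_mul]

end H16F
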