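import Pool.Agent.Lib.H16F.A2

/-!
# A3 (M): Chinese remainder theorem for a set of residue conditions

`M = ∏_{p ∈ T} p`.  `Rs' = {r : ι → ZMod M | r mod p ∈ Rs p for all p ∈ T}`: by the Chinese remainder theorem
`(ι → ZMod M) → ∏_{p ∈ T} (ι → ZMod p)` is injective (`ZMod.prodEquivPi`, or: an integer divisible by all `p ∈ T` is
divisible by `M`, `Finset.prod_primes_dvd`), so `#Rs' ≤ ∏ #(Rs p)`.  Induction on `T` is also possible.
`box_res`: the number of the `x ∈ box X` with `x mod p ∈ Rs p` for all `p ∈ T` is at most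
`(∏ #(Rs p)) ((2X+1)/M + 1)^g`, `g = #ι`, and `#(Rs p) ≤ ρ_p p^g` (hypothesis, `ρ_p` real), so it is at most
`(∏ ρ_p) M^g ((2X+1)/M + 1)^g ≤ (∏ ρ_p) (2X + 1 + M)^g`.
-/

open Finset

namespace H16F

open H16E

open Classical in
theorem box_T {ι : Type*} [Fintype ι] [DecidableEq ι] (X : ℕ) (T : Finset ℕ)
    (hT : ∀ p ∈ T, p.Prime) (Rs : ∀ p : ℕ, Finset (ι → ZMod p)) (ρ : ℕ → ℝ)
    (hρ : ∀ p ∈ T, ((Rs p).card : ℝ) ≤ ρ p * (p : ℝ) ^ Fintype.card ι) :
    (((box ι X).filter fun x => ∀ p ∈ T, (fun i => ((x i : ℤ) : ZMod p)) ∈ Rs p).card : ℝ) ≤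
      (∏ p ∈ T, ρ p) * ((2 * X + 1 + ∏ p ∈ T, p : ℕ) : ℝ) ^ Fintype.card ι := by
  obtain ⟨M, hM⟩ : ∃ M : ℕ, M = ∏ p ∈ T, p := ⟨_, rfl⟩
  have hM0 : 0 < M := by
    rw [hM]
    exact Finset.prod_pos fun p hp => (hT p hp).pos
  haveI : NeZero M := ⟨hM0.ne'⟩
  have hdvd : ∀ p ∈ T, p ∣ M := fun p hp => by
    rw [hM]
    exact Finset.dvd_prod_of_mem _ hp
  obtain ⟨R', hR'⟩ : ∃ R' : Finset (ι → ZMod M), R' = (Finset.univ : Finset (ι → ZMod M)).filter
      (fun r => ∀ (p : ℕ) (hp : p ∈ T),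
        (fun i => ZMod.castHom (hdvd p hp) (ZMod p) (r i)) ∈ Rs p) := ⟨_, rfl⟩
  have hcard : R'.card ≤ ∏ p ∈ T, (Rs p).card := by
    rw [← Finset.card_pi]
    refine Finset.card_le_card_of_injOn
      (fun r p hp => fun i => ZMod.castHom (hdvd p hp) (ZMod p) (r i)) ?_ ?_
    · intro r hr
      rw [hR', Finset.mem_coe, Finset.mem_filter] at hr
      rw [Finset.mem_coe, Finset.mem_pi]
      intro p hp
      exact hr.2 p hp
    · intro r _ r' _ h
      funext i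
      obtain ⟨a, ha⟩ := ZMod.intCast_surjective (r i)
      obtain ⟨a', ha'⟩ := ZMod.intCast_surjective (r' i)
      rw [← ha, ← ha']
      refine (ZMod.intCast_eq_intCast_iff_dvd_sub a a' M).2 ?_
      have h1 : ((∏ p ∈ T, (p : ℕ) : ℕ) : ℤ) ∣ a' - a := by
        have h2 : ∏ p ∈ T, (p : ℕ) ∣ (a' - a).natAbs := by
          refine Finset.prod_primes_dvd _ (fun p hp => (hT p hp).prime) fun p hp => ?_
          have h3 := congrFun (congrFun (congrFun h p) hp) i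
          simp only at h3
          rw [← ha, ← ha', map_intCast, map_intCast, ZMod.intCast_eq_intCast_iff_dvd_sub] at h3
          exact Int.natCast_dvd.1 h3
        exact Int.natCast_dvd.2 h2
      rw [hM]
      exact h1
  have h1 : ((H16E.box ι X).filter fun x => ∀ p ∈ T, (fun i => ((x i : ℤ) : ZMod p)) ∈ Rs p) ⊆
      (H16E.box ι X).filter fun x => (fun i => ((x i : ℤ) : ZMod M)) ∈ R' := by
    intro x hx
    rw [Finset.mem_filter] at hx ⊢
    refine ⟨hx.1, ?_⟩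
    rw [hR', Finset.mem_filter]
    refine ⟨Finset.mem_univ _, fun p hp => ?_⟩
    simp only [map_intCast]
    exact hx.2 p hp
  have h2 := (Finset.card_le_card h1).trans (box_res M X hM0 R')
  have h3 : (((H16E.box ι X).filter fun x => ∀ p ∈ T,
      (fun i => ((x i : ℤ) : ZMod p)) ∈ Rs p).card : ℝ) ≤
      (R'.card : ℝ) * (((2 * X + 1) / M + 1 : ℕ) : ℝ) ^ Fintype.card ι := by exact_mod_cast h2
  refine h3.trans ?_
  have h4 : (R'.card : ℝ) ≤ (∏ p ∈ T, ρ p) * (M : ℝ) ^ Fintype.card ι := by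
    calc (R'.card : ℝ) ≤ ((∏ p ∈ T, (Rs p).card : ℕ) : ℝ) := by exact_mod_cast hcard
      _ = ∏ p ∈ T, ((Rs p).card : ℝ) := by push_cast; rfl
      _ ≤ ∏ p ∈ T, (ρ p * (p : ℝ) ^ Fintype.card ι) :=
          Finset.prod_le_prod (fun p _ => Nat.cast_nonneg _) hρ
      _ = (∏ p ∈ T, ρ p) * (M : ℝ) ^ Fintype.card ι := by
          rw [Finset.prod_mul_distrib, Finset.prod_pow, hM]
          push_cast
          rfl
  have hρ0 : 0 ≤ ∏ p ∈ T, ρ p := by
    refine Finset.prod_nonneg fun p hp => ?_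
    have h5 : (0 : ℝ) ≤ ρ p * (p : ℝ) ^ Fintype.card ι := (Nat.cast_nonneg _).trans (hρ p hp)
    have h6 : (0 : ℝ) < (p : ℝ) ^ Fintype.card ι :=
      pow_pos (by exact_mod_cast (hT p hp).pos) _
    exact nonneg_of_mul_nonneg_left h5 h6
  calc (R'.card : ℝ) * (((2 * X + 1) / M + 1 : ℕ) : ℝ) ^ Fintype.card ι
      ≤ (∏ p ∈ T, ρ p) * (M : ℝ) ^ Fintype.card ι *
        (((2 * X + 1) / M + 1 : ℕ) : ℝ) ^ Fintype.card ι :=
        mul_le_mul_of_nonneg_right h4 (by positivity)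
    _ = (∏ p ∈ T, ρ p) * ((M * ((2 * X + 1) / M + 1) : ℕ) : ℝ) ^ Fintype.card ι := by
        rw [mul_assoc, ← mul_pow]
        push_cast
        rfl
    _ ≤ (∏ p ∈ T, ρ p) * ((2 * X + 1 + M : ℕ) : ℝ) ^ Fintype.card ι := by
        refine mul_le_mul_of_nonneg_left (pow_le_pow_left₀ (Nat.cast_nonneg _) ?_ _) hρ0
        have h7 : M * ((2 * X + 1) / M + 1) ≤ 2 * X + 1 + M := by
          have := Nat.mul_div_le (2 * X + 1) M
          rw [mul_add, mul_one]
          omega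
        exact_mod_cast h7
    _ = _ := by rw [hM]

end H16F
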