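import Mathlib

/-!
# A4 (M): the residues mod `p` of the `x` with `p ∣ N(∑ x_i ω_i)`

`ω` a `ℤ`-basis of `𝓞 k`, `g = #ι = [k:ℚ]` (`≥ 1`).  Let `w_1, ..., w_r` be the primes of `𝓞 k` above `p`, `r ≤ g`
(`Ideal.sum_ramification_inertia`).  If `p ∣ N(D)` then `D` is in some `w_j` (`N(D) = ± absNorm (D)`, a prime factor of the
ideal `(D)` has norm a power of `p`; `p ∣ absNorm I` implies that some prime above `p` divides `I`:
`Ideal.absNorm` multiplicative, prime factorisation).  For `w = w_j` the set `V_w ⊆ (ℤ/p)^ι` of the classes of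
the `x` with `∑ x_i ω_i ∈ w` is well defined (`p 𝓞 k ⊆ w`) and a proper subgroup (subspace) of `(ℤ/p)^ι`: `1 ∉ w`.
So `#V_w ≤ p^(g-1)`.  `Rs = ⋃ V_w`, `#Rs ≤ g p^(g-1)`, `#Rs · p ≤ g p^g`.
(Other proof: `N(∑ x_i ω_i)` is the value of a homogeneous polynomial of degree `g` in the `x_i`, nonzero mod `p` because
`N(1) = 1`; Schwartz-Zippel, Mathlib `MvPolynomial.schwartz_zippel_totalDegree`, gives at most `g p^(g-1)` zeros;
`N(D) = det` of the matrix `∑ x_i M_i`, `M_i` = matrix of the multiplication by `ω_i`.)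
-/

open NumberField

namespace H16F

theorem norm_res {k : Type*} [Field k] [NumberField k] {ι : Type*} [Fintype ι]
    (ω : Module.Basis ι ℤ (𝓞 k)) (p : ℕ) (hp : p.Prime) :
    ∃ Rs : Finset (ι → ZMod p), Rs.card * p ≤ Fintype.card ι * p ^ Fintype.card ι ∧
      ∀ x : ι → ℤ, (p : ℤ) ∣ Algebra.norm ℤ (∑ i, x i • ω i) →
        (fun i => ((x i : ℤ) : ZMod p)) ∈ Rs := by
  classical
  have : Fact p.Prime := ⟨hp⟩
  set P : Ideal ℤ := Ideal.span {(p : ℤ)} with hP
  have hP0 : P ≠ ⊥ := by
    rw [hP, Ne, Ideal.span_singleton_eq_bot]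
    exact_mod_cast hp.ne_zero
  have hPm : P.IsMaximal := by
    have h1 : P.IsPrime := by
      rw [hP, Ideal.span_singleton_prime (by exact_mod_cast hp.ne_zero)]
      exact Nat.prime_iff_prime_int.1 hp
    exact h1.isMaximal hP0
  set S := IsDedekindDomain.primesOverFinset P (𝓞 k) with hS
  have hScard : S.card ≤ Fintype.card ι := by
    have h1 := Ideal.card_primesOverFinset_le_finrank (𝓞 k) ℚ k hP0
    rwa [← RingOfIntegers.rank k, Module.finrank_eq_card_basis ω] at h1
  let φ : (ι → ℤ) →+ (ι → ZMod p) :=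
    { toFun := fun x i => ((x i : ℤ) : ZMod p)
      map_zero' := by ext; simp
      map_add' := by intro x y; ext; simp }
  let W : Ideal (𝓞 k) → AddSubgroup (ι → ℤ) := fun w =>
    { carrier := {x | ∑ i, x i • ω i ∈ w}
      zero_mem' := by simp
      add_mem' := by
        intro x y hx hy
        simp only [Set.mem_ofPred_eq] at hx hy ⊢
        have : ∑ i, (x + y) i • ω i = ∑ i, x i • ω i + ∑ i, y i • ω i := by
          rw [← Finset.sum_add_distrib]
          refine Finset.sum_congr rfl fun i _ => ?_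
          rw [Pi.add_apply, add_smul]
        rw [this]
        exact w.add_mem hx hy
      neg_mem' := by
        intro x hx
        simp only [Set.mem_ofPred_eq] at hx ⊢
        have : ∑ i, (-x) i • ω i = -∑ i, x i • ω i := by
          rw [← Finset.sum_neg_distrib]
          refine Finset.sum_congr rfl fun i _ => ?_
          rw [Pi.neg_apply, neg_smul]
        rw [this]
        exact w.neg_mem hx }
  have hpw : ∀ w ∈ S, (p : 𝓞 k) ∈ w := by
    intro w hw
    obtain ⟨h1, h2⟩ := (IsDedekindDomain.mem_primesOverFinset_iff hP0 _).1 hw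
    have h3 : (p : ℤ) ∈ P := Ideal.mem_span_singleton_self _
    rw [h2.over] at h3
    have h4 : algebraMap ℤ (𝓞 k) (p : ℤ) ∈ w := h3
    simpa using h4
  have key : ∀ w ∈ S, Nat.card ((W w).map φ) * p ≤ p ^ Fintype.card ι := by
    intro w hw
    have h1w : (1 : 𝓞 k) ∉ w := by
      intro h
      exact ((IsDedekindDomain.mem_primesOverFinset_iff hP0 _).1 hw).1.ne_top
        ((Ideal.eq_top_iff_one _).2 h)
    have hne : (W w).map φ ≠ ⊤ := by
      intro htop
      let x0 : ι → ℤ := fun i => ω.repr 1 i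
      have h1 : φ x0 ∈ (W w).map φ := by rw [htop]; trivial
      obtain ⟨x, hx, hxe⟩ := h1
      have h2 : ∀ i, ∃ y : ℤ, x0 i - x i = p * y := by
        intro i
        have h3 : ((x i : ℤ) : ZMod p) = ((x0 i : ℤ) : ZMod p) := congrFun hxe i
        rw [ZMod.intCast_eq_intCast_iff_dvd_sub] at h3
        exact h3
      choose y hy using h2
      apply h1w
      have h4 : (1 : 𝓞 k) = ∑ i, x i • ω i + (p : 𝓞 k) * ∑ i, y i • ω i := by
        conv_lhs => rw [← ω.sum_repr 1]
        rw [Finset.mul_sum, ← Finset.sum_add_distrib]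
        refine Finset.sum_congr rfl fun i _ => ?_
        have h5 : (ω.repr 1) i = x i + p * y i := by
          have := hy i
          simp only [x0] at this
          linarith
        rw [h5]
        simp only [zsmul_eq_mul]
        push_cast
        ring
      rw [h4]
      exact w.add_mem hx (w.mul_mem_right _ (hpw w hw))
    have hidx : ((W w).map φ).index * Nat.card ((W w).map φ) = p ^ Fintype.card ι := by
      rw [AddSubgroup.index_mul_card, Nat.card_eq_fintype_card, Fintype.card_fun, ZMod.card]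
    have h6 : ((W w).map φ).index ≠ 1 := fun h => hne (AddSubgroup.index_eq_one.1 h)
    have h7 : p ∣ ((W w).map φ).index := by
      obtain ⟨j, hj, hj2⟩ := (Nat.dvd_prime_pow hp).1 (Dvd.intro _ hidx)
      rw [hj2] at h6 ⊢
      have : j ≠ 0 := by
        rintro rfl
        exact h6 (pow_zero _)
      exact dvd_pow_self _ this
    have h8 : p ≤ ((W w).map φ).index := Nat.le_of_dvd (Nat.pos_of_ne_zero AddSubgroup.index_ne_zero_of_finite) h7
    calc Nat.card ((W w).map φ) * p ≤ Nat.card ((W w).map φ) * ((W w).map φ).index :=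
          Nat.mul_le_mul_left _ h8
      _ = p ^ Fintype.card ι := by rw [mul_comm, hidx]
  refine ⟨S.biUnion fun w => (((W w).map φ : AddSubgroup (ι → ZMod p)) : Set (ι → ZMod p)).toFinset, ?_, ?_⟩
  · calc (S.biUnion fun w => (((W w).map φ : AddSubgroup (ι → ZMod p)) :
            Set (ι → ZMod p)).toFinset).card * p
        ≤ (∑ w ∈ S, ((((W w).map φ : AddSubgroup (ι → ZMod p)) :
            Set (ι → ZMod p)).toFinset).card) * p := Nat.mul_le_mul_right _ Finset.card_biUnion_le
      _ = ∑ w ∈ S, ((((W w).map φ : AddSubgroup (ι → ZMod p)) :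
            Set (ι → ZMod p)).toFinset).card * p := by rw [Finset.sum_mul]
      _ ≤ ∑ _w ∈ S, p ^ Fintype.card ι := by
          refine Finset.sum_le_sum fun w hw => ?_
          have := key w hw
          have h10 : Nat.card ((W w).map φ) = ((((W w).map φ : AddSubgroup (ι → ZMod p)) :
              Set (ι → ZMod p)).toFinset).card := by
            rw [Set.toFinset_card, ← Nat.card_eq_fintype_card]
            rfl
          rwa [h10] at this
      _ = S.card * p ^ Fintype.card ι := by rw [Finset.sum_const, smul_eq_mul]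
      _ ≤ Fintype.card ι * p ^ Fintype.card ι := Nat.mul_le_mul_right _ hScard
  · intro x hx
    by_contra hcon
    set D : 𝓞 k := ∑ i, x i • ω i with hD
    have hDw : ∀ w ∈ S, D ∉ w := by
      intro w hw hDw
      apply hcon
      rw [Finset.mem_biUnion]
      refine ⟨w, hw, ?_⟩
      rw [Set.mem_toFinset]
      exact ⟨x, hDw, rfl⟩
    have htop : Ideal.span {D, (p : 𝓞 k)} = ⊤ := by
      by_contra hne
      obtain ⟨M, hM, hle⟩ := Ideal.exists_le_maximal _ hne
      have hpM : (p : 𝓞 k) ∈ M := hle (Ideal.subset_span (by simp))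
      have hDM : D ∈ M := hle (Ideal.subset_span (by simp))
      refine hDw M ?_ hDM
      rw [IsDedekindDomain.mem_primesOverFinset_iff hP0 _]
      refine ⟨hM.isPrime, ⟨?_⟩⟩
      have h9 : P ≤ M.under ℤ := by
        rw [hP, Ideal.span_singleton_le_iff_mem, Ideal.mem_comap]
        simpa using hpM
      have h10 : M.under ℤ ≠ ⊤ := by
        have := hM.isPrime
        exact (Ideal.IsPrime.under ℤ M).ne_top
      exact hPm.eq_of_le h10 h9
    have h1 : (1 : 𝓞 k) ∈ Ideal.span {D, (p : 𝓞 k)} := by rw [htop]; trivial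
    rw [Ideal.mem_span_pair] at h1
    obtain ⟨a, b, hab⟩ := h1
    have h2 : D * a = 1 + (p : 𝓞 k) * (-b) := by linear_combination hab
    have h3 : Algebra.norm ℤ D * Algebra.norm ℤ a = Algebra.norm ℤ (1 + (p : 𝓞 k) * (-b)) := by
      rw [← map_mul, h2]
    have h4 : (Int.castRingHom (ZMod p)) (Algebra.norm ℤ (1 + (p : 𝓞 k) * (-b))) = 1 := by
      rw [Algebra.norm_eq_matrix_det ω, RingHom.map_det]
      have h5 : (Int.castRingHom (ZMod p)).mapMatrix
          (Algebra.leftMulMatrix ω (1 + (p : 𝓞 k) * (-b))) = 1 := by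
        rw [map_add, map_one, map_mul, map_natCast, map_add, map_one, map_mul, map_natCast]
        ext i j
        have h6 : ((p : Matrix ι ι (ZMod p))) = 0 := by
          ext i j
          rw [Matrix.natCast_apply]
          simp
        rw [h6]
        simp
      rw [h5, Matrix.det_one]
    rw [← h3, map_mul] at h4
    have h7 : (Int.castRingHom (ZMod p)) (Algebra.norm ℤ D) = 0 := by
      rw [eq_intCast, ZMod.intCast_zmod_eq_zero_iff_dvd]
      exact hx
    rw [h7, zero_mul] at h4
    exact zero_ne_one h4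

end H16F
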