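import Pool.Agent.Lib.H16E.B6

/-!
# A5 (M): the `k`-th moment inequality, upper tail

`S = ∑_{p ∈ Q} ρ p > 0`, `s(x) = #{p ∈ Q | E p x}`.  Double counting (as in H16E/B7, `hdc`):
`∑_{x ∈ Bx} C(s(x), k) = ∑_{T ∈ powersetCard k Q} #{x ∈ Bx | E p x for all p ∈ T} ≤ Z ∑_T ∏_{p ∈ T} ρ p ≤ Z S^k/k!`
(`esymm_le`, H16E/B6).  For `x` with `s(x) ≥ 2S + k`: `C(s(x), k) ≥ (2S)^k/k!` (`choose_ge`, H16E/B6, with `a = 2S`:
`a + k ≤ s + 1`).  So `#{x | s(x) ≥ 2S + k} (2S)^k/k! ≤ Z S^k/k!`; divide by `S^k/k! > 0`.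
-/

open Finset

namespace H16F

open H16E

open Classical in
theorem moment {α : Type*} (Bx : Finset α) (Q : Finset ℕ) (E : ℕ → α → Prop)
    (ρ : ℕ → ℝ) (hρ : ∀ p ∈ Q, 0 ≤ ρ p) (Z : ℝ) (hZ : 0 ≤ Z) (k : ℕ)
    (h : ∀ T ∈ Q.powersetCard k,
      ((Bx.filter fun x => ∀ p ∈ T, E p x).card : ℝ) ≤ (∏ p ∈ T, ρ p) * Z)
    (hS : 0 < ∑ p ∈ Q, ρ p) :
    ((Bx.filter fun x => 2 * ∑ p ∈ Q, ρ p + k ≤
      ((Q.filter fun p => E p x).card : ℝ)).card : ℝ) * 2 ^ k ≤ Z := by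
  have hdc : (∑ x ∈ Bx.filter (fun x => 2 * ∑ p ∈ Q, ρ p + k ≤ ((Q.filter fun p => E p x).card : ℝ)),
        (((Q.filter fun p => E p x).powersetCard k).card : ℝ)) ≤
      ∑ T ∈ Q.powersetCard k, ((Bx.filter fun x => ∀ p ∈ T, E p x).card : ℝ) := by
    have h1 : ∀ x : α, (Q.filter fun p => E p x).powersetCard k =
        (Q.powersetCard k).filter fun T => ∀ p ∈ T, E p x := by
      intro x
      ext T
      simp only [Finset.mem_powersetCard, Finset.mem_filter]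
      constructor
      · rintro ⟨h1, h2⟩
        exact ⟨⟨fun l hl => (Finset.mem_filter.1 (h1 hl)).1, h2⟩,
          fun l hl => (Finset.mem_filter.1 (h1 hl)).2⟩
      · rintro ⟨⟨h1, h2⟩, h3⟩
        exact ⟨fun l hl => Finset.mem_filter.2 ⟨h1 hl, h3 l hl⟩, h2⟩
    simp only [h1, Finset.card_filter, Nat.cast_sum]
    rw [Finset.sum_comm]
    refine Finset.sum_le_sum fun T _ => ?_
    rw [Finset.sum_filter]
    refine Finset.sum_le_sum fun x _ => ?_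
    split_ifs <;> simp
  have hlow : ∀ x ∈ Bx.filter (fun x => 2 * ∑ p ∈ Q, ρ p + k ≤
        ((Q.filter fun p => E p x).card : ℝ)),
      (2 * ∑ p ∈ Q, ρ p) ^ k / (k.factorial : ℝ) ≤
        (((Q.filter fun p => E p x).powersetCard k).card : ℝ) := by
    intro x hx
    rw [Finset.card_powersetCard]
    have h2 := (Finset.mem_filter.1 hx).2
    refine choose_ge _ _ _ (by positivity) ?_
    linarith
  have hes := esymm_le Q ρ hρ k
  set F := Bx.filter (fun x => 2 * ∑ p ∈ Q, ρ p + k ≤ ((Q.filter fun p => E p x).card : ℝ)) with hF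
  set S := ∑ p ∈ Q, ρ p with hSd
  have hfac : (0 : ℝ) < (k.factorial : ℝ) := by exact_mod_cast Nat.factorial_pos _
  have hmain : (F.card : ℝ) * ((2 * S) ^ k / (k.factorial : ℝ)) ≤
      Z * (S ^ k / (k.factorial : ℝ)) := by
    calc (F.card : ℝ) * ((2 * S) ^ k / (k.factorial : ℝ))
        = ∑ x ∈ F, ((2 * S) ^ k / (k.factorial : ℝ)) := by
          rw [Finset.sum_const, nsmul_eq_mul]
      _ ≤ ∑ x ∈ F, (((Q.filter fun p => E p x).powersetCard k).card : ℝ) :=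
          Finset.sum_le_sum hlow
      _ ≤ ∑ T ∈ Q.powersetCard k, ((Bx.filter fun x => ∀ p ∈ T, E p x).card : ℝ) := hdc
      _ ≤ ∑ T ∈ Q.powersetCard k, (∏ p ∈ T, ρ p) * Z := Finset.sum_le_sum h
      _ = Z * ∑ T ∈ Q.powersetCard k, ∏ p ∈ T, ρ p := by rw [← Finset.sum_mul, mul_comm]
      _ ≤ _ := mul_le_mul_of_nonneg_left hes hZ
  have hSp : 0 < S ^ k / (k.factorial : ℝ) := by positivity
  refine le_of_mul_le_mul_right ?_ hSp
  refine le_trans (le_of_eq ?_) hmain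
  rw [mul_pow]
  ring

end H16F
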