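import Pool.Agent.Lib.H16E.B0

/-!
# A6 (S/M): two elementary bounds

`norm_le`: `N(D) = ∏_σ σ(D)` over the `g = [k:ℚ] = #ι` embeddings `σ : k → ℂ` (`Algebra.norm_eq_prod_embeddings`,
`Algebra.coe_norm_int`), `|σ(∑ x_i ω_i)| ≤ ∑ |x_i| |σ ω_i| ≤ c X` for `x ∈ box X`, `c = 1 + ∑_i ∑_σ |σ ω_i|`.
(`Fintype.card ι = Module.finrank ℤ (𝓞 k) = Module.finrank ℚ k`, `RingOfIntegers.rank`, number of embeddings:
`Embeddings.card`.)
`large_primes`: the product of the prime factors of `N` that are `> z` is at least `z^#` and divides `N`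
(`Nat.prod_primeFactors_dvd`), so `# log z ≤ log N`.
-/

open NumberField

namespace H16F

open H16E

theorem norm_le {k : Type*} [Field k] [NumberField k] {ι : Type*} [Fintype ι] [DecidableEq ι]
    (ω : Module.Basis ι ℤ (𝓞 k)) : ∃ c : ℝ, 1 ≤ c ∧ ∀ X : ℕ, 1 ≤ X → ∀ x ∈ box ι X,
      |((Algebra.norm ℤ (∑ i, x i • ω i) : ℤ) : ℝ)| ≤ (c * X) ^ Fintype.card ι := by
  classical
  refine ⟨1 + ∑ i, ∑ σ : k →ₐ[ℚ] ℂ, ‖σ (ω i : k)‖, ?_, ?_⟩
  · have : 0 ≤ ∑ i, ∑ σ : k →ₐ[ℚ] ℂ, ‖σ (ω i : k)‖ :=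
      Finset.sum_nonneg fun i _ => Finset.sum_nonneg fun σ _ => norm_nonneg _
    linarith
  intro X hX x hx
  have hcard : Fintype.card ι = Fintype.card (k →ₐ[ℚ] ℂ) := by
    rw [AlgHom.card ℚ k ℂ, ← RingOfIntegers.rank k, Module.finrank_eq_card_basis ω]
  have h1 : |((Algebra.norm ℤ (∑ i, x i • ω i) : ℤ) : ℝ)| =
      ∏ σ : k →ₐ[ℚ] ℂ, ‖σ ((∑ i, x i • ω i : 𝓞 k) : k)‖ := by
    have h2 := Algebra.norm_eq_prod_embeddings ℚ ℂ ((∑ i, x i • ω i : 𝓞 k) : k)
    rw [← Algebra.coe_norm_int] at h2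
    have h3 := congrArg norm h2
    rw [norm_prod] at h3
    rw [← h3]
    simp
  rw [h1, hcard, ← Finset.card_univ, ← Finset.prod_const]
  refine Finset.prod_le_prod (fun σ _ => norm_nonneg _) fun σ _ => ?_
  have hXr : (1 : ℝ) ≤ X := by exact_mod_cast hX
  have h4 : ‖σ ((∑ i, x i • ω i : 𝓞 k) : k)‖ ≤ ∑ i, (X : ℝ) * ‖σ (ω i : k)‖ := by
    have h5 : σ ((∑ i, x i • ω i : 𝓞 k) : k) = ∑ i, (x i : ℂ) * σ (ω i : k) := by
      have : ((∑ i, x i • ω i : 𝓞 k) : k) = ∑ i, (x i : k) * (ω i : k) := by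
        have h9 : algebraMap (𝓞 k) k (∑ i, x i • ω i) = ∑ i, algebraMap (𝓞 k) k (x i • ω i) :=
          map_sum _ _ _
        refine h9.trans (Finset.sum_congr rfl fun i _ => ?_)
        rw [zsmul_eq_mul, map_mul, map_intCast]
      rw [this, map_sum]
      refine Finset.sum_congr rfl fun i _ => ?_
      rw [map_mul, map_intCast]
    rw [h5]
    refine (norm_sum_le _ _).trans (Finset.sum_le_sum fun i _ => ?_)
    rw [norm_mul]
    refine mul_le_mul_of_nonneg_right ?_ (norm_nonneg _)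
    have h6 := hx
    simp only [box, Fintype.mem_piFinset, Finset.mem_Icc] at h6
    have h7 : |x i| ≤ (X : ℤ) := abs_le.2 (h6 i)
    rw [Complex.norm_intCast]
    exact_mod_cast h7
  refine h4.trans ?_
  rw [← Finset.mul_sum, mul_comm]
  refine mul_le_mul_of_nonneg_right ?_ (by linarith)
  have h8 : ∑ i, ‖σ (ω i : k)‖ ≤ ∑ i, ∑ σ : k →ₐ[ℚ] ℂ, ‖σ (ω i : k)‖ := by
    refine Finset.sum_le_sum fun i _ => ?_
    exact Finset.single_le_sum (f := fun σ : k →ₐ[ℚ] ℂ => ‖σ (ω i : k)‖)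
      (fun σ _ => norm_nonneg _) (Finset.mem_univ σ)
  linarith

theorem large_primes (N z : ℕ) (hN : N ≠ 0) (hz : 2 ≤ z) :
    ((N.primeFactors.filter fun p => z < p).card : ℝ) * Real.log z ≤ Real.log N := by
  have h1 : z ^ (N.primeFactors.filter fun p => z < p).card ≤ N := by
    calc z ^ (N.primeFactors.filter fun p => z < p).card
        = ∏ p ∈ N.primeFactors.filter fun p => z < p, z := by rw [Finset.prod_const]
      _ ≤ ∏ p ∈ N.primeFactors.filter fun p => z < p, p :=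
          Finset.prod_le_prod' fun p hp => (Finset.mem_filter.1 hp).2.le
      _ ≤ N := by
          refine Nat.le_of_dvd (Nat.pos_of_ne_zero hN) ?_
          refine (Finset.prod_dvd_prod_of_subset _ _ (fun p => p) (Finset.filter_subset _ _)).trans ?_
          exact Nat.prod_primeFactors_dvd N
  have h2 : Real.log ((z : ℝ) ^ (N.primeFactors.filter fun p => z < p).card) ≤ Real.log N := by
    refine Real.log_le_log (by positivity) ?_
    exact_mod_cast h1
  rwa [Real.log_pow] at h2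

end H16F
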