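import Pool.Agent.Lib.H15P.NT1

/-!
# A7 (S/M): parameters

Real analysis for A8.  Given `g ≥ 1`, `c ≥ 1`, `K ≥ 1` (the number of moments), for all large `X` there is `z ≥ 2` with
(a) `z^(2K) ≤ X`; (b) `2 ∑_{p ≤ z} g/p + K + log((cX)^g)/log z ≤ 3 g log log X`; (c) `1 ≤ X`.
Proof.  `z = ⌊X^(1/(2K))⌋`, so `z^(2K) ≤ X` and `log z ≥ log X/(4K)` for `X` large (`z ≥ X^(1/(2K))/2`).
`∑_{p ≤ z} 1/p ≤ 1/2 + log(500 log z/log 2)` (`mertens_sum_le 2 z`, H15P/NT1) `≤ log log X + C₁`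
(`log z ≤ log X`).  `log((cX)^g)/log z ≤ 4 K g (log c + log X)/log X ≤ 8 K g` for `X ≥ c`.
So the left side of (b) is at most `2 g log log X + 2 g C₁ + K + 8 K g ≤ 3 g log log X` for `X` large.
-/

namespace H16F

theorem params (g K : ℕ) (hg : 1 ≤ g) (hK : 1 ≤ K) (c : ℝ) (hc : 1 ≤ c) :
    ∃ X₀ : ℕ, ∀ X : ℕ, X₀ ≤ X → 1 ≤ X ∧ ∃ z : ℕ, 2 ≤ z ∧ z ^ (2 * K) ≤ X ∧
      2 * ∑ p ∈ (Finset.range (z + 1)).filter Nat.Prime, (g : ℝ) / (p : ℝ) + K +
        Real.log ((c * X) ^ g) / Real.log z ≤ 3 * g * Real.log (Real.log X) := by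
  obtain ⟨C₁, hC₁⟩ : ∃ C₁ : ℝ, C₁ = 1 / 2 + Real.log (500 / Real.log 2) := ⟨_, rfl⟩
  have hl2 : 0 < Real.log 2 := Real.log_pos (by norm_num)
  have hK0 : (0 : ℝ) < K := by exact_mod_cast hK
  have hg0 : (1 : ℝ) ≤ g := by exact_mod_cast hg
  have ev : ∀ᶠ X : ℕ in Filter.atTop, (1 ≤ X ∧ c ≤ X ∧
      (4 : ℝ) ≤ (X : ℝ) ^ ((1 : ℝ) / (2 * K)) ∧
      2 * C₁ + K + 8 * K ≤ Real.log (Real.log X)) := by
    have t0 : Filter.Tendsto (fun X : ℕ => (X : ℝ)) Filter.atTop Filter.atTop :=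
      tendsto_natCast_atTop_atTop
    have e1 : ∀ᶠ X : ℕ in Filter.atTop, 1 ≤ X := Filter.eventually_ge_atTop 1
    have e2 : ∀ᶠ X : ℕ in Filter.atTop, c ≤ X := t0.eventually_ge_atTop c
    have e3 : ∀ᶠ X : ℕ in Filter.atTop, (4 : ℝ) ≤ (X : ℝ) ^ ((1 : ℝ) / (2 * K)) :=
      ((tendsto_rpow_atTop (by positivity)).comp t0).eventually_ge_atTop 4
    have e4 : ∀ᶠ X : ℕ in Filter.atTop, 2 * C₁ + K + 8 * K ≤ Real.log (Real.log X) :=
      ((Real.tendsto_log_atTop.comp Real.tendsto_log_atTop).comp t0).eventually_ge_atTop _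
    filter_upwards [e1, e2, e3, e4] with X h1 h2 h3 h4
    exact ⟨h1, h2, h3, h4⟩
  obtain ⟨X₀, hX₀⟩ := Filter.eventually_atTop.1 ev
  refine ⟨X₀, fun X hX => ?_⟩
  obtain ⟨h1, h2, h3, h4⟩ := hX₀ X hX
  refine ⟨h1, ?_⟩
  set y : ℝ := (X : ℝ) ^ ((1 : ℝ) / (2 * K)) with hy
  have hX0 : (0 : ℝ) < X := by exact_mod_cast h1
  have hy0 : 0 < y := by linarith
  have hyp : y ^ (2 * K) = X := by
    rw [hy, ← Real.rpow_natCast, ← Real.rpow_mul hX0.le]
    push_cast
    rw [one_div, inv_mul_cancel₀ (by positivity), Real.rpow_one]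
  have hz1 : (⌊y⌋₊ : ℝ) ≤ y := Nat.floor_le hy0.le
  have hz2 : y < ⌊y⌋₊ + 1 := Nat.lt_floor_add_one y
  have hzs : Real.sqrt y ≤ ⌊y⌋₊ := by
    have h5 : Real.sqrt y ≤ y / 2 := by
      rw [Real.sqrt_le_left (by linarith)]
      nlinarith
    linarith
  have hz3 : 2 ≤ ⌊y⌋₊ := by
    have : (2 : ℝ) < (⌊y⌋₊ : ℝ) := by linarith
    have h6 : 2 < ⌊y⌋₊ := by exact_mod_cast this
    omega
  have hlogy : Real.log y = Real.log X / (2 * K) := by
    rw [hy, Real.log_rpow hX0]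
    ring
  have hlX : Real.exp 0 ≤ Real.log X := by
    by_contra hneg
    push_neg at hneg
    rw [Real.exp_zero] at hneg
    have h8 : Real.log 4 ≤ Real.log y := Real.log_le_log (by norm_num) h3
    have hX4 : (4 : ℝ) ≤ X := by
      rw [← hyp]
      calc (4 : ℝ) ≤ y := h3
        _ = y ^ 1 := (pow_one y).symm
        _ ≤ y ^ (2 * K) := pow_le_pow_right₀ (by linarith) (by omega)
    have h9 : Real.log 4 ≤ Real.log X := Real.log_le_log (by norm_num) hX4
    have h10 : Real.log 4 = 2 * Real.log 2 := by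
      rw [show (4 : ℝ) = 2 ^ 2 by norm_num, Real.log_pow]
      norm_num
    have := Real.log_two_gt_d9
    linarith
  rw [Real.exp_zero] at hlX
  have hlz : Real.log X / (4 * K) ≤ Real.log ⌊y⌋₊ := by
    have h5 := Real.log_le_log (Real.sqrt_pos.2 hy0) hzs
    rw [Real.log_sqrt hy0.le, hlogy] at h5
    refine le_trans (le_of_eq ?_) h5
    field_simp
    ring
  have hlz0 : 0 < Real.log (⌊y⌋₊ : ℝ) := lt_of_lt_of_le (by positivity) hlz
  have hlzX : Real.log (⌊y⌋₊ : ℝ) ≤ Real.log X := by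
    have hzX : (⌊y⌋₊ : ℝ) ≤ X := by
      calc (⌊y⌋₊ : ℝ) ≤ y := hz1
        _ = y ^ 1 := (pow_one y).symm
        _ ≤ y ^ (2 * K) := pow_le_pow_right₀ (by linarith) (by omega)
        _ = X := hyp
    have : (0 : ℝ) < (⌊y⌋₊ : ℝ) := by
      have : 0 < ⌊y⌋₊ := by omega
      exact_mod_cast this
    exact Real.log_le_log this hzX
  refine ⟨⌊y⌋₊, hz3, ?_, ?_⟩
  · have h6 : ((⌊y⌋₊ : ℝ)) ^ (2 * K) ≤ X := by
      rw [← hyp]
      exact pow_le_pow_left₀ (Nat.cast_nonneg _) hz1 _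
    exact_mod_cast h6
  · have hsum : ∑ p ∈ (Finset.range (⌊y⌋₊ + 1)).filter Nat.Prime, (g : ℝ) / (p : ℝ) ≤
        g * (C₁ + Real.log (Real.log X)) := by
      have e1 : ∑ p ∈ (Finset.range (⌊y⌋₊ + 1)).filter Nat.Prime, (g : ℝ) / (p : ℝ) =
          g * ∑ p ∈ (Finset.range (⌊y⌋₊ + 1)).filter Nat.Prime, 1 / (p : ℝ) := by
        rw [Finset.mul_sum]
        refine Finset.sum_congr rfl fun p _ => ?_
        ring
      rw [e1]
      refine mul_le_mul_of_nonneg_left ?_ (by linarith)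
      have e2 : (Finset.range (⌊y⌋₊ + 1)).filter Nat.Prime ⊆
          insert 2 ((Finset.Ioc 2 ⌊y⌋₊).filter Nat.Prime) := by
        intro p hp
        rw [Finset.mem_filter, Finset.mem_range] at hp
        rw [Finset.mem_insert, Finset.mem_filter, Finset.mem_Ioc]
        rcases eq_or_ne p 2 with h | h
        · exact Or.inl h
        · have := hp.2.two_le
          exact Or.inr ⟨⟨by omega, by omega⟩, hp.2⟩
      have e3 : (2 : ℕ) ∉ (Finset.Ioc 2 ⌊y⌋₊).filter Nat.Prime := by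
        simp
      have e4 := Pool.Agent.Lib.H15P.mertens_sum_le 2 ⌊y⌋₊ le_rfl hz3
      calc ∑ p ∈ (Finset.range (⌊y⌋₊ + 1)).filter Nat.Prime, 1 / (p : ℝ)
          ≤ ∑ p ∈ insert 2 ((Finset.Ioc 2 ⌊y⌋₊).filter Nat.Prime), 1 / (p : ℝ) :=
            Finset.sum_le_sum_of_subset_of_nonneg e2 fun p _ _ => by positivity
        _ = 1 / 2 + ∑ p ∈ (Finset.Ioc 2 ⌊y⌋₊).filter Nat.Prime, 1 / (p : ℝ) := by
            rw [Finset.sum_insert e3]
            norm_num
        _ ≤ 1 / 2 + Real.log (500 * (Real.log ⌊y⌋₊ / Real.log (2 : ℕ))) := by linarith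
        _ ≤ 1 / 2 + Real.log (500 / Real.log 2 * Real.log X) := by
            have h7 : (500 * (Real.log ⌊y⌋₊ / Real.log ((2 : ℕ) : ℝ))) ≤
                500 / Real.log 2 * Real.log X := by
              rw [Nat.cast_ofNat]
              calc 500 * (Real.log ⌊y⌋₊ / Real.log 2) = 500 / Real.log 2 * Real.log ⌊y⌋₊ := by ring
                _ ≤ 500 / Real.log 2 * Real.log X :=
                  mul_le_mul_of_nonneg_left hlzX (by positivity)
            have h8 : 0 < 500 * (Real.log ⌊y⌋₊ / Real.log ((2 : ℕ) : ℝ)) := by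
              rw [Nat.cast_ofNat]
              positivity
            have := Real.log_le_log h8 h7
            linarith
        _ = C₁ + Real.log (Real.log X) := by
            rw [Real.log_mul (by positivity) (by positivity), hC₁]
            ring
    have hlog : Real.log ((c * X) ^ g) / Real.log ⌊y⌋₊ ≤ 8 * g * K := by
      rw [Real.log_pow, div_le_iff₀ hlz0, Real.log_mul (by positivity) (by positivity)]
      have h7 : Real.log c ≤ Real.log X := Real.log_le_log (by linarith) h2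
      calc (g : ℝ) * (Real.log c + Real.log X) ≤ g * (2 * Real.log X) :=
            mul_le_mul_of_nonneg_left (by linarith) (by linarith)
        _ = 8 * g * K * (Real.log X / (4 * K)) := by
            field_simp
            ring
        _ ≤ 8 * g * K * Real.log ⌊y⌋₊ := mul_le_mul_of_nonneg_left hlz (by positivity)
    have hfin : 2 * C₁ * g + K + 8 * g * K ≤ g * Real.log (Real.log X) := by
      calc 2 * C₁ * g + K + 8 * g * K ≤ g * (2 * C₁ + K + 8 * K) := by nlinarith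
        _ ≤ g * Real.log (Real.log X) := mul_le_mul_of_nonneg_left h4 (by linarith)
    linarith

end H16F
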