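import Pool.Agent.Lib.H16F.A3
import Pool.Agent.Lib.H16F.A4
import Pool.Agent.Lib.H16F.A5
import Pool.Agent.Lib.H16F.A6
import Pool.Agent.Lib.H16F.A7

/-!
# A8 (M, assembly): `ω(N(D)) ≤ 3 g log log X` for almost all `D`

`g = #ι = [k:ℚ] ≥ 1` (`𝓞 k` is a nonzero free module).  Given `ε > 0` choose `K ≥ 1` with `4 / 2^K ≤ ε`.
Let `X` be large, `z` from `params g K .. c` (`c` from `norm_le ω`).  `Q` = the primes `≤ z`, `ρ p = g/p`,
`Rs p` from `norm_res ω p`: `#(Rs p) ≤ ρ_p p^g`.  `E p x = (x mod p ∈ Rs p)`.  For `T ⊆ Q`, `#T = K`: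
`∏_{p ∈ T} p ≤ z^K ≤ √X ≤ X` (`z^(2K) ≤ X`), `box_T`: the hypothesis of `moment` holds with
`Z = (2X + 1 + ⌊√X⌋)^g ≤ 2 (2X+1)^g` for `X` large (`(1 + √X/(2X+1))^g → 1`).  So the number of the `x ∈ box X` with
`#{p ∈ Q | E p x} ≥ 2S + K`, `S = ∑_{p ≤ z} g/p > 0`, is at most `2 · 2^(-K) #box ≤ (ε/2) #box` (`card_box`).
The number of `x` with `N(D) = 0` is `1` (`D = 0`, `x = 0`; `Algebra.norm_eq_zero_iff`, `ω` linearly independent),
`≤ (ε/2) #box` for `X` large.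
For all other `x`: `N = |N(D)| ≠ 0`; the prime factors `≤ z` of `N` are in `{p ∈ Q | E p x}`, fewer than `2S + K`;
those `> z` are at most `log N/log z ≤ log((cX)^g)/log z` (`large_primes`, `norm_le`).  So
`ω(N) ≤ 3 g log log X` by (b).
-/

open NumberField

namespace H16F

open H16E

theorem a8_pow (g X W : ℕ) (h : W ^ 2 ≤ X) (hg : g ^ 2 ≤ X) :
    ((2 * X + 1 + W : ℕ) : ℝ) ^ g ≤ 2 * ((2 * X + 1 : ℕ) : ℝ) ^ g := by
  have h1 : g * W ≤ X := by
    have : (g * W) ^ 2 ≤ X ^ 2 := by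
      rw [mul_pow, sq X]
      exact Nat.mul_le_mul hg h
    exact (Nat.pow_le_pow_iff_left (by norm_num)).1 this
  have hY : (0 : ℝ) < ((2 * X + 1 : ℕ) : ℝ) := by positivity
  have e : ((2 * X + 1 + W : ℕ) : ℝ) = ((2 * X + 1 : ℕ) : ℝ) * (1 + (W : ℝ) / ((2 * X + 1 : ℕ) : ℝ)) := by
    rw [mul_add, mul_one, mul_div_cancel₀ _ hY.ne']
    push_cast
    ring
  rw [e, mul_pow, mul_comm (2 : ℝ)]
  refine mul_le_mul_of_nonneg_left ?_ (by positivity)
  have h2 : 1 + (W : ℝ) / ((2 * X + 1 : ℕ) : ℝ) ≤ Real.exp ((W : ℝ) / ((2 * X + 1 : ℕ) : ℝ)) := by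
    rw [add_comm]
    exact Real.add_one_le_exp _
  refine (pow_le_pow_left₀ (by positivity) h2 g).trans ?_
  rw [← Real.exp_nat_mul]
  have h3 : (g : ℝ) * ((W : ℝ) / ((2 * X + 1 : ℕ) : ℝ)) ≤ 1 / 2 := by
    rw [mul_div_assoc', div_le_iff₀ hY]
    have : (g : ℝ) * W ≤ X := by exact_mod_cast h1
    push_cast
    linarith
  refine (Real.exp_le_exp.2 h3).trans ?_
  have h4 : Real.exp (1 / 2) ^ 2 ≤ 2 ^ 2 := by
    rw [← Real.exp_nat_mul]
    have := Real.exp_one_lt_d9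
    norm_num
    linarith
  exact (pow_le_pow_iff_left₀ (Real.exp_pos _).le (by norm_num) (by norm_num)).1 h4

theorem a8_prod (T : Finset ℕ) (z K : ℕ) (hT : T.card = K) (hz : ∀ p ∈ T, p ≤ z) : ∏ p ∈ T, p ≤ z ^ K := by
  rw [← hT]
  exact Finset.prod_le_pow_card T _ z hz

open Classical in
theorem typical_omega {k : Type*} [Field k] [NumberField k] {ι : Type*} [Fintype ι]
    (ω : Module.Basis ι ℤ (𝓞 k)) (ε : ℝ) (hε : 0 < ε) :
    ∃ X₀ : ℕ, ∀ X : ℕ, X₀ ≤ X →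
      (((box ι X).filter fun x => ¬ (Algebra.norm ℤ (∑ i, x i • ω i) ≠ 0 ∧
        ((Algebra.norm ℤ (∑ i, x i • ω i)).natAbs.primeFactors.card : ℝ) ≤
          3 * (Fintype.card ι : ℝ) * Real.log (Real.log X))).card : ℝ) ≤
        ε * ((box ι X).card : ℝ) := by
  classical
  obtain ⟨g, hgd⟩ : ∃ g : ℕ, g = Fintype.card ι := ⟨_, rfl⟩
  have hne : Nonempty ι := ω.index_nonempty
  have hg : 1 ≤ g := by
    rw [hgd]
    exact Fintype.card_pos
  obtain ⟨c, hc1, hc⟩ := norm_le ω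
  choose Rs0 hRs1 hRs2 using fun p (hp : p.Prime) => norm_res ω p hp
  obtain ⟨K, hK1, hK2⟩ : ∃ K : ℕ, 1 ≤ K ∧ 4 / (2 : ℝ) ^ K ≤ ε := by
    obtain ⟨n, hn⟩ := exists_nat_gt (4 / ε)
    refine ⟨n + 1, by omega, ?_⟩
    rw [div_le_iff₀ (by positivity)]
    rw [div_lt_iff₀ hε] at hn
    have h1 : (n : ℝ) ≤ (2 : ℝ) ^ (n + 1) := by
      have : n < 2 ^ n := Nat.lt_two_pow_self
      have h2 : n ≤ 2 ^ (n + 1) := by
        rw [pow_succ]
        omega
      exact_mod_cast h2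
    nlinarith
  obtain ⟨X1, hX1⟩ := params g K hg hK1 c hc1
  obtain ⟨X2, hX2⟩ := exists_nat_gt (2 / ε)
  refine ⟨X1 + X2 + g ^ 2 + 1, fun X hX => ?_⟩
  obtain ⟨hX1', z, hz2, hzK, hb⟩ := hX1 X (by omega)
  obtain ⟨Rs, hRs⟩ : ∃ Rs : ∀ p : ℕ, Finset (ι → ZMod p), ∀ (p : ℕ) (hp : p.Prime), Rs p = Rs0 p hp :=
    ⟨fun p => if hp : p.Prime then Rs0 p hp else ∅, fun p hp => dif_pos hp⟩
  obtain ⟨Q, hQ⟩ : ∃ Q : Finset ℕ, Q = (Finset.range (z + 1)).filter Nat.Prime := ⟨_, rfl⟩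
  have hQm : ∀ p, p ∈ Q ↔ p ≤ z ∧ p.Prime := by
    intro p
    rw [hQ, Finset.mem_filter, Finset.mem_range, Nat.lt_succ_iff]
  obtain ⟨S, hSd⟩ : ∃ S : ℝ, S = ∑ p ∈ Q, (g : ℝ) / (p : ℝ) := ⟨_, rfl⟩
  have hS : 0 < S := by
    rw [hSd]
    refine Finset.sum_pos (fun p hp => ?_) ⟨2, (hQm 2).2 ⟨hz2, Nat.prime_two⟩⟩
    have := ((hQm p).1 hp).2.pos
    positivity
  obtain ⟨E, hE⟩ : ∃ E : ℕ → (ι → ℤ) → Prop, ∀ p x, E p x ↔ (fun i => ((x i : ℤ) : ZMod p)) ∈ Rs p :=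
    ⟨fun p x => (fun i => ((x i : ℤ) : ZMod p)) ∈ Rs p, fun _ _ => Iff.rfl⟩
  have hbox : ((box ι X).card : ℝ) = ((2 * X + 1 : ℕ) : ℝ) ^ g := by
    rw [card_box, hgd]
    push_cast
    ring
  have hmom := moment (box ι X) Q E (fun p => (g : ℝ) / (p : ℝ)) (fun p _ => by positivity)
    (2 * ((2 * X + 1 : ℕ) : ℝ) ^ g) (by positivity) K (by
      intro T hT
      rw [Finset.mem_powersetCard] at hT
      have hTp : ∀ p ∈ T, p.Prime := fun p hp => ((hQm p).1 (hT.1 hp)).2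
      have h1 := box_T X T hTp Rs (fun p => (g : ℝ) / (p : ℝ)) (by
        intro p hp
        have hpp := hTp p hp
        rw [hRs p hpp, ← hgd]
        have h2 := hRs1 p hpp
        rw [← hgd] at h2
        have hp0 : (0 : ℝ) < p := by exact_mod_cast hpp.pos
        rw [div_mul_eq_mul_div, le_div_iff₀ hp0]
        exact_mod_cast h2)
      rw [← hgd] at h1
      have h3 : ((2 * X + 1 + ∏ p ∈ T, p : ℕ) : ℝ) ^ g ≤ 2 * ((2 * X + 1 : ℕ) : ℝ) ^ g := by
        refine (pow_le_pow_left₀ (by positivity) ?_ g).trans (a8_pow g X (z ^ K) (by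
          rw [← pow_mul, mul_comm]
          exact hzK) (by omega))
        have h4 := a8_prod T z K hT.2 (fun p hp => ((hQm p).1 (hT.1 hp)).1)
        exact_mod_cast Nat.add_le_add_left h4 _
      have h5 : (((box ι X).filter fun x => ∀ p ∈ T, E p x).card : ℝ) ≤
          (((box ι X).filter fun x => ∀ p ∈ T, (fun i => ((x i : ℤ) : ZMod p)) ∈ Rs p).card : ℝ) := by
        refine Nat.cast_le.2 (Finset.card_le_card fun x hx => ?_)
        rw [Finset.mem_filter] at hx ⊢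
        exact ⟨hx.1, fun p hp => (hE p x).1 (hx.2 p hp)⟩
      refine h5.trans (h1.trans ?_)
      exact mul_le_mul_of_nonneg_left h3 (Finset.prod_nonneg fun p _ => by positivity)) (by
      rw [← hSd]
      exact hS)
  rw [← hSd] at hmom
  rw [← hQ, ← hSd] at hb
  set M := (box ι X).filter fun x => 2 * S + K ≤ ((Q.filter fun p => E p x).card : ℝ) with hM
  have hsub : ((box ι X).filter fun x => ¬ (Algebra.norm ℤ (∑ i, x i • ω i) ≠ 0 ∧
        ((Algebra.norm ℤ (∑ i, x i • ω i)).natAbs.primeFactors.card : ℝ) ≤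
          3 * (Fintype.card ι : ℝ) * Real.log (Real.log X))) ⊆ insert 0 M := by
    intro x hx
    rw [Finset.mem_filter] at hx
    rw [Finset.mem_insert]
    by_contra hcon
    rw [not_or] at hcon
    obtain ⟨hx0, hxM⟩ := hcon
    apply hx.2
    have hN0 : Algebra.norm ℤ (∑ i, x i • ω i) ≠ 0 := by
      intro h
      rw [Algebra.norm_eq_zero_iff] at h
      apply hx0
      funext i
      exact Fintype.linearIndependent_iff.1 ω.linearIndependent x h i
    refine ⟨hN0, ?_⟩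
    set N : ℕ := (Algebra.norm ℤ (∑ i, x i • ω i)).natAbs with hN
    have hN1 : N ≠ 0 := Int.natAbs_ne_zero.2 hN0
    have hsmall : ((N.primeFactors.filter fun p => p ≤ z).card : ℝ) ≤ 2 * S + K := by
      have h1 : ¬ (2 * S + K ≤ ((Q.filter fun p => E p x).card : ℝ)) := by
        intro h
        apply hxM
        rw [hM, Finset.mem_filter]
        exact ⟨hx.1, h⟩
      have h2 : ((N.primeFactors.filter fun p => p ≤ z).card : ℝ) ≤ ((Q.filter fun p => E p x).card : ℝ) := by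
        refine Nat.cast_le.2 (Finset.card_le_card fun p hp => ?_)
        rw [Finset.mem_filter, Nat.mem_primeFactors] at hp
        rw [Finset.mem_filter, hQm, hE, hRs p hp.1.1]
        refine ⟨⟨hp.2, hp.1.1⟩, hRs2 p hp.1.1 x ?_⟩
        exact Int.natCast_dvd.2 hp.1.2.1
      linarith [not_le.1 h1]
    have hlz : 0 < Real.log z := Real.log_pos (by exact_mod_cast hz2)
    have hlarge : ((N.primeFactors.filter fun p => ¬ p ≤ z).card : ℝ) ≤ Real.log ((c * X) ^ g) / Real.log z := by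
      have h1 := large_primes N z hN1 hz2
      rw [le_div_iff₀ hlz]
      have h2 : (N : ℝ) ≤ (c * X) ^ g := by
        have h3 := hc X hX1' x hx.1
        rw [← hgd] at h3
        refine le_trans (le_of_eq ?_) h3
        rw [hN, Nat.cast_natAbs, Int.cast_abs]
      have h3 : Real.log N ≤ Real.log ((c * X) ^ g) := Real.log_le_log (by exact_mod_cast Nat.pos_of_ne_zero hN1) h2
      refine le_trans ?_ (h1.trans h3)
      refine mul_le_mul_of_nonneg_right ?_ hlz.le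
      refine Nat.cast_le.2 (Finset.card_le_card fun p hp => ?_)
      rw [Finset.mem_filter] at hp ⊢
      exact ⟨hp.1, not_le.1 hp.2⟩
    have hsum : (N.primeFactors.card : ℝ) = ((N.primeFactors.filter fun p => p ≤ z).card : ℝ) +
        ((N.primeFactors.filter fun p => ¬ p ≤ z).card : ℝ) := by
      rw [← Nat.cast_add, Finset.card_filter_add_card_filter_not]
    rw [hsum, ← hgd]
    linarith
  have hcard : (((box ι X).filter fun x => ¬ (Algebra.norm ℤ (∑ i, x i • ω i) ≠ 0 ∧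
        ((Algebra.norm ℤ (∑ i, x i • ω i)).natAbs.primeFactors.card : ℝ) ≤
          3 * (Fintype.card ι : ℝ) * Real.log (Real.log X))).card : ℝ) ≤ 1 + (M.card : ℝ) := by
    have h1 := (Finset.card_le_card hsub).trans (Finset.card_insert_le 0 M)
    have : ((M.card + 1 : ℕ) : ℝ) = 1 + (M.card : ℝ) := by
      push_cast
      ring
    rw [← this]
    exact Nat.cast_le.2 h1
  refine hcard.trans ?_
  rw [hbox]
  set B : ℝ := ((2 * X + 1 : ℕ) : ℝ) ^ g with hB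
  have hB0 : 0 < B := by positivity
  have h1 : 1 ≤ ε / 2 * B := by
    have hXB : (X2 : ℝ) ≤ B := by
      have e1 : (X2 : ℝ) ≤ ((2 * X + 1 : ℕ) : ℝ) := by
        have : X2 ≤ 2 * X + 1 := by omega
        exact_mod_cast this
      refine e1.trans ?_
      calc ((2 * X + 1 : ℕ) : ℝ) = ((2 * X + 1 : ℕ) : ℝ) ^ 1 := (pow_one _).symm
        _ ≤ B := pow_le_pow_right₀ (by exact_mod_cast (by omega : 1 ≤ 2 * X + 1)) hg
    rw [div_lt_iff₀ hε] at hX2
    nlinarith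
  have h2 : (M.card : ℝ) ≤ ε / 2 * B := by
    have hp : (0 : ℝ) < 2 ^ K := by positivity
    have h3 : (M.card : ℝ) ≤ 2 * B / 2 ^ K := by
      rw [le_div_iff₀ hp]
      exact hmom
    have h4 : 2 * B / 2 ^ K = 4 / 2 ^ K * (B / 2) := by ring
    rw [h4] at h3
    refine h3.trans ?_
    have := mul_le_mul_of_nonneg_right hK2 (by positivity : 0 ≤ B / 2)
    refine this.trans (le_of_eq ?_)
    ring
  linarith

end H16F
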