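import Pool.Agent.Lib.H16C.T1

/-!
# C1 (M): cocycles with the same restriction to `P`

`t = #E[q]`, `E[q] = {T | q • T = 0}` finite (`tors_finite`).  `G = Gal(Ω/k)`, `P ≤ H`, `[G : P]` finite.  To `i` attach the
function `φ_i : G ⧸ P → E[q]`, `φ_i(x) = c_i(x.out)` if `x.out ∈ H`, and `0` otherwise.  `i ↦ φ_i` is injective: let
`φ_i = φ_j`, `g ∈ H`, `x = g P`, `g = x.out * p`, `p ∈ P ≤ H`, so `x.out ∈ H` and
`c_i g = c_i(x.out) + x.out c_i(p) = c_j g`.  So `#ι ≤ t^[G:P]` (`Fintype.card_le_of_injective`,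
`Fintype.card_fun`/`Nat.card_fun`, `Subgroup.index = Nat.card (G ⧸ P)`).
-/

open WeierstrassCurve NumberField IsDedekindDomain

namespace H16F

open H16C

theorem fibre {k : Type*} [Field k] {Ω : Type*} [Field Ω] [Algebra k Ω]
    [CharZero Ω] [DecidableEq Ω] (W : WeierstrassCurve.Affine k) [W.IsShortNF] [W.IsElliptic]
    (q : ℕ) (hq : 0 < q) : ∃ t : ℕ, 0 < t ∧
      ∀ H P : Subgroup (Ω ≃ₐ[k] Ω), P ≤ H → P.index ≠ 0 →
      ∀ (ι : Type) [Fintype ι] (c : ι → (Ω ≃ₐ[k] Ω) → Pt W Ω),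
        (∀ i, ∀ g ∈ H, ∀ h ∈ H, c i (g * h) = c i g + rho W g (c i h)) →
        (∀ i, ∀ g ∈ H, q • c i g = 0) → (∀ i j, ∀ g ∈ P, c i g = c j g) →
        (∀ i j, (∀ g ∈ H, c i g = c j g) → i = j) → Fintype.card ι ≤ t ^ P.index := by
  classical
  have hfin : {P : Pt W Ω | q • P = 0}.Finite := tors_finite (W := WeierstrassCurve.Affine.baseChange W Ω) q hq
  have hfin' : Finite {P : Pt W Ω | q • P = 0} := hfin.to_subtype
  refine ⟨Nat.card {P : Pt W Ω | q • P = 0}, ?_, ?_⟩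
  · have h0 : Nonempty {P : Pt W Ω | q • P = 0} := ⟨⟨0, smul_zero q⟩⟩
    exact Nat.card_pos
  intro H P hPH hP ι _ c hc ht hcP hinj
  have hG : Finite ((Ω ≃ₐ[k] Ω) ⧸ P) := Nat.finite_of_card_ne_zero hP
  let φ : ι → ((Ω ≃ₐ[k] Ω) ⧸ P) → {P : Pt W Ω | q • P = 0} := fun i x =>
    if h : x.out ∈ H then ⟨c i x.out, ht i _ h⟩ else ⟨0, smul_zero q⟩
  have hφ : Function.Injective φ := by
    intro i j hij
    refine hinj i j fun g hg => ?_
    obtain ⟨p, hp⟩ := QuotientGroup.mk_out_eq_mul P g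
    have h1 : (QuotientGroup.mk g : (Ω ≃ₐ[k] Ω) ⧸ P).out ∈ H := by
      rw [hp]
      exact H.mul_mem hg (hPH p.2)
    have h2 := congrFun hij (QuotientGroup.mk g : (Ω ≃ₐ[k] Ω) ⧸ P)
    have h3 : c i (QuotientGroup.mk g : (Ω ≃ₐ[k] Ω) ⧸ P).out = c j (QuotientGroup.mk g : (Ω ≃ₐ[k] Ω) ⧸ P).out := by
      have h4 : (φ i (QuotientGroup.mk g) : Pt W Ω) = φ j (QuotientGroup.mk g) := by rw [h2]
      simp only [φ, dif_pos h1] at h4
      exact h4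
    have h5 : g = (QuotientGroup.mk g : (Ω ≃ₐ[k] Ω) ⧸ P).out * (p : Ω ≃ₐ[k] Ω)⁻¹ := by
      rw [hp, mul_inv_cancel_right]
    have h6 : (p : Ω ≃ₐ[k] Ω)⁻¹ ∈ P := P.inv_mem p.2
    rw [h5, hc i _ h1 _ (hPH h6), hc j _ h1 _ (hPH h6), h3, hcP i j _ h6]
  have hcard := Nat.card_le_card_of_injective φ hφ
  rw [Nat.card_fun, Nat.card_eq_fintype_card] at hcard
  exact hcard

end H16F
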