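import Pool.Agent.Lib.H16F.Defs
import Pool.Agent.Lib.H16C.T1

/-!
# C2 (M): the number of the homomorphisms `P → E[q]`

`V = {T | q • T = 0}` (an additive subgroup of `E(Ω)`, finite: `tors_finite`), an `𝔽_q`-vector space
(`AddCommGroup.zmodModule`).  `V^* = V →+ ZMod q` is finite; `C = #V^*`.  It separates the points of `V`
(`Module.forall_dual_apply_eq_zero_iff`; additive maps between `ZMod q`-modules are linear,
`AddMonoidHom.toZModLinearMap`).  For `e ∈ V^*` and `i` the map `g ↦ e (c_i g)`, `g ∈ P`, is in `HM q R P`: `c_i g ∈ V`;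
homomorphism, since `g ∈ P ≤ S.N` acts trivially on `E[q]` (`S.fix`); continuity and vanishing at the inert elements:
`ZU`.  `HM q R P` is finite of order at most `q^r` (`Module.rank ≤ r` over the field `ZMod q`:
`Module.finite_of_rank_...`, `Module.card_eq_pow_finrank`).  `i ↦ (e ↦ e ∘ c_i)` is injective, so
`#ι ≤ (q^r)^C`.
-/

open WeierstrassCurve NumberField IsDedekindDomain

namespace H16F

open H16C

theorem c2_mod {q : ℕ} [Fact q.Prime] {A : Type*} [AddCommGroup A] [Module (ZMod q) A] (x : A)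
    (hx : ∀ e : A →+ ZMod q, e x = 0) : x = 0 := by
  have hp : Module.Projective (ZMod q) A := inferInstance
  exact (Module.forall_dual_apply_eq_zero_iff (ZMod q) x).1 fun φ => hx φ.toAddMonoidHom

theorem c2_sep {q : ℕ} [Fact q.Prime] {A : Type*} [AddCommGroup A] (h : ∀ x : A, q • x = 0) (x : A)
    (hx : ∀ e : A →+ ZMod q, e x = 0) : x = 0 :=
  @c2_mod q _ A _ (AddCommGroup.zmodModule h) x hx

theorem c2_fin {q : ℕ} [Fact q.Prime] {A : Type*} [AddCommGroup A] [Finite A] : Finite (A →+ ZMod q) :=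
  Finite.of_injective (fun (e : A →+ ZMod q) (v : A) => e v) fun _ _ h => AddMonoidHom.ext fun v => congrFun h v

variable {k : Type*} [Field k] [NumberField k] {Ω : Type*} [Field Ω] [Algebra k Ω] [IsAlgClosed Ω]
  [Algebra.IsAlgebraic k Ω] [CharZero Ω] [DecidableEq Ω] {W : WeierstrassCurve.Affine k}
  [W.IsShortNF] [W.IsElliptic] {q : ℕ} [Fact q.Prime]

theorem image (S : Setup W Ω q) : ∃ C : ℕ, ∀ (R : ℕ) (P : Subgroup (Ω ≃ₐ[k] Ω)), P ≤ S.N →
    ∀ r : ℕ, Module.rank (ZMod q) (HM q R P) ≤ (r : Cardinal) →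
    ∀ (ι : Type) [Fintype ι] (c : ι → (Ω ≃ₐ[k] Ω) → Pt W Ω), (∀ i, ZU W q R P (c i)) →
      (∀ i j, (∀ g ∈ P, c i g = c j g) → i = j) → Fintype.card ι ≤ q ^ (C * r) := by
  classical
  have hq0 : 0 < q := (Fact.out : q.Prime).pos
  let V : AddSubgroup (Pt W Ω) := (nsmulAddMonoidHom q : Pt W Ω →+ Pt W Ω).ker
  have hfin : Finite V := (tors_finite (W := WeierstrassCurve.Affine.baseChange W Ω) q hq0).to_subtype
  have hV : ∀ x : V, q • x = 0 := fun x => Subtype.ext x.2
  have hsep := c2_sep hV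
  have hDfin : Finite (V →+ ZMod q) := c2_fin
  refine ⟨Nat.card ((V →+ ZMod q)), ?_⟩
  intro R P hP r hr ι _ c hc hinj
  have hHfin : Module.Finite (ZMod q) (HM q R P) :=
    Module.rank_lt_aleph0_iff.1 (hr.trans_lt (Cardinal.natCast_lt_aleph0))
  have hHfin' : Finite (HM q R P) := Module.finite_of_finite (ZMod q)
  have hcard : Nat.card (HM q R P) ≤ q ^ r := by
    rw [Module.natCard_eq_pow_finrank (K := ZMod q), Nat.card_zmod]
    exact Nat.pow_le_pow_right hq0 (Module.finrank_le_of_rank_le hr)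
  have hact : ∀ g ∈ P, ∀ T : Pt W Ω, q • T = 0 → rho W g T = T := by
    intro g hg T hT
    refine (S.fix g (hP hg)).2.2 T ?_
    rw [mul_smul, hT, smul_zero]
  let Φ : ι → (V →+ ZMod q) → HM q R P := fun i e =>
    ⟨fun g => e ⟨c i g, (hc i).tors g g.2⟩, by
      refine ⟨fun g h => ?_, ?_, fun A hA g hg => ?_⟩
      · rw [← map_add]
        have h2 : (⟨c i ((g * h : P) : Ω ≃ₐ[k] Ω), (hc i).tors _ (g * h).2⟩ : V) =
            ⟨c i g, (hc i).tors g g.2⟩ + ⟨c i h, (hc i).tors h h.2⟩ := by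
          apply Subtype.ext
          show c i ((g : Ω ≃ₐ[k] Ω) * h) = c i g + c i h
          rw [(hc i).coc g g.2 h h.2, hact g g.2 _ ((hc i).tors h h.2)]
        exact congrArg e h2
      · obtain ⟨F, hF, h1⟩ := (hc i).cont
        refine ⟨F, hF, fun g hg => ?_⟩
        have h2 := h1 g g.2 hg
        have h3 : (⟨c i g, (hc i).tors g g.2⟩ : V) = 0 := Subtype.ext h2
        show e ⟨c i g, (hc i).tors g g.2⟩ = 0
        rw [h3, map_zero]
      · have h2 := (hc i).unr A hA g g.2 hg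
        have h3 : (⟨c i g, (hc i).tors g g.2⟩ : V) = 0 := Subtype.ext h2
        show e ⟨c i g, (hc i).tors g g.2⟩ = 0
        rw [h3, map_zero]⟩
  have hΦ : Function.Injective Φ := by
    intro i j hij
    refine hinj i j fun g hg => ?_
    have h1 : ∀ e : (V →+ ZMod q), e (⟨c i g, (hc i).tors g hg⟩ - ⟨c j g, (hc j).tors g hg⟩) = 0 := by
      intro e
      rw [map_sub, sub_eq_zero]
      have h2 := congrArg (fun f : HM q R P => (f : P → ZMod q) ⟨g, hg⟩) (congrFun hij e)
      exact h2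
    have h3 := hsep _ h1
    exact congrArg Subtype.val (sub_eq_zero.1 h3)
  have hle := Nat.card_le_card_of_injective Φ hΦ
  rw [Nat.card_fun, Nat.card_eq_fintype_card] at hle
  refine hle.trans ?_
  calc Nat.card (HM q R P) ^ Nat.card ((V →+ ZMod q)) ≤ (q ^ r) ^ Nat.card ((V →+ ZMod q)) :=
        Nat.pow_le_pow_left hcard _
    _ = q ^ (Nat.card ((V →+ ZMod q)) * r) := by rw [← pow_mul, mul_comm]

end H16F
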