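import Pool.Agent.Lib.H16C.VC
import Pool.Agent.Lib.H16C.W1

/-!
# G1 (M): the subgroup `P = core(Gal(Ω/K)) ∩ Gal(Ω/L)`

`G = Gal(Ω/k)`, `H = K.fixingSubgroup`, of index `[K:k] ≤ d` (nonzero).  `C = H.normalCore` (normal in `G`, contained
in `H`, of index at most `d!`: `G/C` embeds in the permutations of `G/H`; Mathlib: `Subgroup.normalCore`,
`Subgroup.normalCore_eq_ker`, finite index), `N = S.N` normal of finite index (`S.stab`, `S.fin`;
see the proofs in H16C where `S.N.Normal`, `S.N.FiniteIndex` are shown), `P = C ⊓ N`.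
`Q = d! * S.N.index`: `P.index ≤ C.index * N.index`, `P.relIndex N ≤ C.index`
(`Subgroup.relIndex_inf_..`, `Subgroup.index_inf_le`, `relIndex_le_index`...).
* `g ∈ N` has a `q`-power power in `P`: for `x ∈ G`, `x⁻¹ g x` fixes `S.ζ` (`N` is normal and fixes `S.ζ`,
  `S.fix`), so `x⁻¹ g^(q^j) x ∈ H` for some `j = j(x)`, which remains true for larger `j`; `x⁻¹ y x ∈ H` depends only on
  the coset `x H`, and there are finitely many cosets: one `j` for all `x`; so `g^(q^j) ∈ C`.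
* an inert `g` at `A`, `v_A R = 1`, is in `C`: for `x ∈ G`, `x⁻¹ g x` is inert at the place `A'` of
  `VC.exists_comap A x` (`v_{A'} y ≤ v_{A'} z ↔ v_A (x y) ≤ v_A (x z)`), and `v_{A'} R = 1`, so
  `x⁻¹ g x ∈ H` by hypothesis.
* open: `H ⊇ Gal(Ω/K)`; `C ⊇ Gal(Ω/K')`, `K'` the normal closure of `K` (finite over `k`);
  `F = K' ⊔ S.L`.
-/

open WeierstrassCurve NumberField IsDedekindDomain

namespace H16F

open H16C

/-- the index of the core -/
theorem g1_core {G : Type*} [Group G] (H : Subgroup G) {d : ℕ} (h0 : H.index ≠ 0) (hd : H.index ≤ d) :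
    H.normalCore.index ≠ 0 ∧ H.normalCore.index ≤ d.factorial := by
  have hfin : Finite (G ⧸ H) := Nat.finite_of_card_ne_zero h0
  rw [Subgroup.normalCore_eq_ker, Subgroup.index_ker]
  have h1 : Nat.card (MulAction.toPermHom G (G ⧸ H)).range ≤ Nat.card (Equiv.Perm (G ⧸ H)) :=
    Nat.card_le_card_of_injective _ Subtype.val_injective
  rw [Nat.card_perm] at h1
  exact ⟨Nat.card_pos.ne', h1.trans (Nat.factorial_le hd)⟩

/-- powers in the core -/
theorem g1_pow {G : Type*} [Group G] (H : Subgroup G) (h0 : H.index ≠ 0) {q : ℕ} (g : G)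
    (h : ∀ x : G, ∃ j : ℕ, (x⁻¹ * g * x) ^ (q ^ j) ∈ H) : ∃ j : ℕ, g ^ (q ^ j) ∈ H.normalCore := by
  have hfin : Finite (G ⧸ H) := Nat.finite_of_card_ne_zero h0
  have hfin' := Fintype.ofFinite (G ⧸ H)
  choose j hj using fun c : G ⧸ H => h c.out
  refine ⟨Finset.univ.sup j, fun x => ?_⟩
  obtain ⟨c, hc⟩ : ∃ c : G ⧸ H, c = QuotientGroup.mk x⁻¹ := ⟨_, rfl⟩
  have h1 : (c.out⁻¹ * g * c.out) ^ (q ^ (Finset.univ.sup j)) ∈ H := by
    have h2 : j c ≤ Finset.univ.sup j := Finset.le_sup (Finset.mem_univ c)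
    obtain ⟨r, hr⟩ := Nat.exists_eq_add_of_le h2
    rw [hr, pow_add, pow_mul]
    exact H.pow_mem (hj c) _
  obtain ⟨p, hp⟩ := QuotientGroup.mk_out_eq_mul H x⁻¹
  rw [← hc] at hp
  have h3 : (c.out⁻¹ * g * c.out) ^ (q ^ (Finset.univ.sup j)) =
      (p : G)⁻¹ * (x * g ^ (q ^ (Finset.univ.sup j)) * x⁻¹) * (p : G) := by
    have h4 : c.out⁻¹ * g * c.out = c.out⁻¹ * g * (c.out⁻¹)⁻¹ := by rw [inv_inv]
    rw [h4, conj_pow, hp]
    group
  rw [h3] at h1
  have h5 := H.mul_mem (H.mul_mem p.2 h1) (H.inv_mem p.2)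
  have h6 : (p : G) * ((p : G)⁻¹ * (x * g ^ (q ^ (Finset.univ.sup j)) * x⁻¹) * (p : G)) * (p : G)⁻¹ =
      x * g ^ (q ^ (Finset.univ.sup j)) * x⁻¹ := by group
  rwa [h6] at h5

variable {k : Type*} [Field k] [NumberField k] {Ω : Type*} [Field Ω] [Algebra k Ω] [IsAlgClosed Ω]
  [Algebra.IsAlgebraic k Ω] [CharZero Ω] [DecidableEq Ω] {W : WeierstrassCurve.Affine k}
  [W.IsShortNF] [W.IsElliptic] {q : ℕ} [Fact q.Prime]

theorem core (S : Setup W Ω q) (d : ℕ) : ∃ Q : ℕ, ∀ (R : ℕ) (K : IntermediateField k Ω),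
    FiniteDimensional k K → Module.finrank k K ≤ d →
    (∀ g : Ω ≃ₐ[k] Ω, g S.ζ = S.ζ → ∃ j : ℕ, g ^ (q ^ j) ∈ K.fixingSubgroup) →
    (∀ A : ValuationSubring Ω, A.valuation (R : Ω) = 1 → ∀ g : Ω ≃ₐ[k] Ω, Inert A ⊤ g →
      g ∈ K.fixingSubgroup) →
    ∃ P : Subgroup (Ω ≃ₐ[k] Ω), P ≤ K.fixingSubgroup ∧ P ≤ S.N ∧
      (∀ g ∈ S.N, ∀ h ∈ P, g * h * g⁻¹ ∈ P) ∧ (∀ g ∈ S.N, ∃ j : ℕ, g ^ (q ^ j) ∈ P) ∧
      P.relIndex S.N ≤ Q ∧ P.relIndex S.N ≠ 0 ∧ P.index ≤ Q ∧ P.index ≠ 0 ∧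
      (∀ A : ValuationSubring Ω, A.valuation (R : Ω) = 1 → ∀ g ∈ S.N, Inert A ⊤ g → g ∈ P) ∧
      ∃ F : IntermediateField k Ω, FiniteDimensional k F ∧ F.fixingSubgroup ≤ P := by
  have hqp : q.Prime := Fact.out
  have hq0 : NeZero q := ⟨hqp.ne_zero⟩
  have hclo : IsAlgClosure k Ω := ⟨inferInstance, inferInstance⟩
  have hnor : Normal k Ω := IsAlgClosure.normal k Ω
  have hgal : IsGalois k Ω := ⟨⟩
  have hNn : S.N.Normal := Setup.normal_N S
  have hNf : S.N.FiniteIndex := Setup.finiteIndex_N S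
  refine ⟨d.factorial * S.N.index, ?_⟩
  intro R K hK hd hq hin
  have hi := IntermediateField.finrank_eq_fixingSubgroup_index (F := k) (E' := Ω) K
  have hpos : 0 < Module.finrank k K := Module.finrank_pos
  have hH0 : K.fixingSubgroup.index ≠ 0 := by
    rw [← hi]
    exact hpos.ne'
  have hHd : K.fixingSubgroup.index ≤ d := by
    rw [← hi]
    exact hd
  obtain ⟨hC0, hCd⟩ := g1_core K.fixingSubgroup hH0 hHd
  have hN0 : S.N.index ≠ 0 := hNf.index_ne_zero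
  have hdvd : K.fixingSubgroup.normalCore.relIndex S.N ∣ K.fixingSubgroup.normalCore.index :=
    Subgroup.relIndex_dvd_index_of_normal _ _
  refine ⟨K.fixingSubgroup.normalCore ⊓ S.N, inf_le_left.trans (Subgroup.normalCore_le _), inf_le_right,
    ?_, ?_, ?_, ?_, ?_, ?_, ?_, ?_⟩
  · intro g _ h hh
    exact ⟨(Subgroup.normalCore_normal _).conj_mem h hh.1 g, hNn.conj_mem h hh.2 g⟩
  · intro g hg
    obtain ⟨j, hj⟩ := g1_pow K.fixingSubgroup hH0 (q := q) g (fun x => by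
      have h1 := hNn.conj_mem g hg x⁻¹
      rw [inv_inv] at h1
      exact hq _ (S.fix _ h1).1)
    exact ⟨j, hj, S.N.pow_mem hg _⟩
  · rw [Subgroup.inf_relIndex_right]
    refine (Nat.le_of_dvd (Nat.pos_of_ne_zero hC0) hdvd).trans (hCd.trans ?_)
    exact Nat.le_mul_of_pos_right _ (Nat.pos_of_ne_zero hN0)
  · rw [Subgroup.inf_relIndex_right]
    intro h0
    rw [h0] at hdvd
    exact hC0 (Nat.eq_zero_of_zero_dvd hdvd)
  · exact Subgroup.index_inf_le.trans (Nat.mul_le_mul_right _ hCd)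
  · exact Subgroup.index_inf_ne_zero hC0 hN0
  · intro A hA g hg hgi
    refine ⟨fun x => ?_, hg⟩
    obtain ⟨A', hA'⟩ := exists_comap A x⁻¹
    refine hin A' ?_ _ fun z _ hz => ?_
    · have hR : (x⁻¹ : Ω ≃ₐ[k] Ω) (R : Ω) = R := map_natCast _ R
      have h1o : (x⁻¹ : Ω ≃ₐ[k] Ω) (1 : Ω) = 1 := map_one _
      have h1 := hA' (R : Ω) 1
      have h2 := hA' 1 (R : Ω)
      rw [hR, h1o, hA, map_one, map_one] at h1 h2
      exact le_antisymm (h1.2 le_rfl) (h2.2 le_rfl)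
    · have h1 : A.valuation (x⁻¹ z) ≤ 1 := by
        have h2 := (hA' z 1).1 (by rwa [map_one])
        rwa [map_one, map_one] at h2
      have h3 := hgi (x⁻¹ z) IntermediateField.mem_top h1
      have h4 : x⁻¹ ((x * g * x⁻¹) z - z) = g (x⁻¹ z) - x⁻¹ z := by
        rw [map_sub]
        congr 1
        change (x⁻¹ * (x * g * x⁻¹)) z = (g * x⁻¹) z
        congr 1
        group
      by_contra hcon
      rw [not_lt] at hcon
      have h5 := (hA' 1 ((x * g * x⁻¹) z - z)).1 (by rwa [map_one])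
      rw [h4, map_one, map_one] at h5
      exact absurd h3 (not_lt.2 h5)
  · have hLf := S.fin
    refine ⟨IntermediateField.normalClosure k K Ω ⊔ S.L, inferInstance, ?_⟩
    intro g hg
    rw [IntermediateField.fixingSubgroup_sup] at hg
    refine ⟨fun x => ?_, hg.2⟩
    have h1 : g ∈ (IntermediateField.normalClosure k K Ω).fixingSubgroup := hg.1
    rw [IntermediateField.mem_fixingSubgroup_iff] at h1 ⊢
    intro z hz
    have hzN : z ∈ IntermediateField.normalClosure k K Ω := IntermediateField.le_normalClosure K hz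
    have h2 : x⁻¹ z ∈ IntermediateField.normalClosure k K Ω := by
      have h3 := AlgEquiv.restrictNormal_commutes (x⁻¹ : Ω ≃ₐ[k] Ω) (IntermediateField.normalClosure k K Ω) ⟨z, hzN⟩
      have h4 : algebraMap (IntermediateField.normalClosure k K Ω) Ω ⟨z, hzN⟩ = z := rfl
      rw [h4] at h3
      rw [← h3]
      exact ((AlgEquiv.restrictNormal (x⁻¹ : Ω ≃ₐ[k] Ω) (IntermediateField.normalClosure k K Ω)) ⟨z, hzN⟩).2
    have h5 := h1 _ h2
    change x (g (x⁻¹ z)) = z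
    rw [h5]
    exact x.apply_symm_apply z

end H16F
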