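import Pool.Agent.Lib.H16C.GE3
import Pool.Agent.Lib.H16C.RM
import Pool.Agent.Lib.H16C.SE3

/-!
# K2 (M): ramification of `L(a^(1/q))` at a prime with `q ∤ ord_w a`, finite level

`L = S.L ∋ ζ = S.ζ` (`S.fix`, `S.mem_L`), `a = α^q ∈ L`, `w` the prime of `L` below the place `A`,
`q ∤ ord_w a`.  Choose `s, t ∈ ℤ` with `s ord_w a + t q = 1` and `π ∈ L` with `ord_w π = 1`
(`HeightOneSpectrum.valuation_exists_uniformizer`; `ord` in H16A/V0, V1).  `δ = α^s π^t`,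
`d = δ^q = a^s π^(tq) ∈ L`, `ord_w d = 1`.  So `v_A d < 1` (`ge3_iff`), and `v_A z = v_A d ^ (ord_w z)` for
`0 ≠ z ∈ L` (`z / d^j` has order `0`; `ge3_iff`).  Let `p` be the residue characteristic of `w`.
`exists_inert S.L F hLF hst A p .. q .. S.ζ .. δ d` gives `g ∈ N` with `Inert A F g` and `g δ = ζ δ`.  If
`g α = α` then `g δ = δ` (`g π = π`), so `ζ = 1`, a contradiction (`q ≥ 2`).
-/

open WeierstrassCurve NumberField IsDedekindDomain

namespace H16F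

open H16C H16A

theorem K2_zpow {F : Type*} [Field F] [NumberField F] (w : HeightOneSpectrum (𝓞 F)) (x : F)
    (n : ℤ) : ord w (x ^ n) = n * ord w x := by
  obtain ⟨m, rfl | rfl⟩ := n.eq_nat_or_neg
  · rw [zpow_natCast, ord_pow]
  · rw [zpow_neg, zpow_natCast, ord_inv, ord_pow]
    ring

theorem K2_char {F : Type*} [Field F] [NumberField F] (w : HeightOneSpectrum (𝓞 F)) :
    ∃ p : ℕ, p.Prime ∧ (p : 𝓞 F) ∈ w.asIdeal := by
  obtain ⟨q, hq⟩ := CharP.exists (𝓞 F ⧸ w.asIdeal)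
  have : Finite (𝓞 F ⧸ w.asIdeal) := Ideal.finiteQuotientOfFreeOfNeBot _ w.ne_bot
  have : w.asIdeal.IsPrime := w.isPrime
  have : IsDomain (𝓞 F ⧸ w.asIdeal) := Ideal.Quotient.isDomain _
  have hqp : q.Prime := CharP.char_is_prime (𝓞 F ⧸ w.asIdeal) q
  refine ⟨q, hqp, ?_⟩
  rw [← Ideal.Quotient.eq_zero_iff_mem, map_natCast]
  exact CharP.cast_eq_zero _ q

variable {k : Type*} [Field k] [NumberField k] {Ω : Type*} [Field Ω] [Algebra k Ω] [IsAlgClosed Ω]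
  [Algebra.IsAlgebraic k Ω] [CharZero Ω] [DecidableEq Ω] {W : WeierstrassCurve.Affine k}
  [W.IsShortNF] [W.IsElliptic] {q : ℕ} [Fact q.Prime]

theorem inert_kummer (S : Setup W Ω q) [NumberField S.L] {α : Ω} (hα : α ≠ 0)
    (hαL : α ^ q ∈ S.L) (A : ValuationSubring Ω) (w : HeightOneSpectrum (𝓞 S.L))
    (hw : w.asIdeal = plc S.L A) (hord : ¬ (q : ℤ) ∣ ord w (⟨α ^ q, hαL⟩ : S.L))
    (F : IntermediateField k Ω) [FiniteDimensional k F] (hLF : S.L ≤ F)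
    (hst : ∀ g ∈ S.N, ∀ x ∈ F, g x ∈ F) (hαF : α ∈ F) :
    ∃ g ∈ S.N, Inert A F g ∧ g α ≠ α := by
  have hqp : q.Prime := Fact.out
  have hq0 : q ≠ 0 := hqp.ne_zero
  obtain ⟨p, hp, hpw⟩ := K2_char w
  -- the valuation of the residue characteristic
  have hvp : A.valuation (p : Ω) < 1 := by
    rw [hw, mem_plc] at hpw
    simpa using hpw
  have hζL : S.ζ ∈ S.L := S.mem_L fun g hg => (S.fix g hg).1
  set a : S.L := ⟨α ^ q, hαL⟩ with ha
  have ha0 : a ≠ 0 := by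
    intro h0
    exact pow_ne_zero q hα (congrArg Subtype.val h0)
  obtain ⟨π, hπ0, hπ1⟩ := exists_ord_eq_one w
  -- Bezout
  have hcop : IsCoprime (ord w a) (q : ℤ) := by
    have h1 : IsCoprime (q : ℤ) (ord w a) :=
      (Nat.prime_iff_prime_int.mp hqp).coprime_iff_not_dvd.mpr hord
    exact h1.symm
  obtain ⟨s, t, hst1⟩ := hcop
  set δ : Ω := α ^ s * ((π : S.L) : Ω) ^ t with hδ
  set d : S.L := a ^ s * π ^ (t * q) with hd
  have hzp : ∀ (x : S.L) (n : ℤ), ((x ^ n : S.L) : Ω) = (x : Ω) ^ n := fun x n =>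
    map_zpow₀ (algebraMap S.L Ω) x n
  have hπΩ : ((π : S.L) : Ω) ≠ 0 := by
    intro h0
    exact hπ0 (Subtype.ext h0)
  have hδd : δ ^ q = (d : Ω) := by
    rw [hδ, hd, mul_pow]
    have h1 : (α ^ s) ^ q = ((a ^ s : S.L) : Ω) := by
      rw [← zpow_natCast, ← zpow_mul, mul_comm s, zpow_mul, zpow_natCast, hzp]
    have h2 : (((π : S.L) : Ω) ^ t) ^ q = ((π ^ (t * q) : S.L) : Ω) := by
      rw [← zpow_natCast, ← zpow_mul, hzp]
    rw [h1, h2]
    rfl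
  have hd0 : d ≠ 0 := mul_ne_zero (zpow_ne_zero _ ha0) (zpow_ne_zero _ hπ0)
  have hdord : ord w d = 1 := by
    rw [hd, ord_mul w (zpow_ne_zero _ ha0) (zpow_ne_zero _ hπ0), K2_zpow w, K2_zpow w, hπ1]
    linarith
  have hvd : A.valuation ((d : S.L) : Ω) < 1 := by
    rw [(ge3_iff A w hw hd0).2.1, hdord]
    exact one_pos
  have hdΩ : ((d : S.L) : Ω) ≠ 0 := by
    intro h0
    exact hd0 (Subtype.ext h0)
  obtain ⟨g, hg, hgI, hgδ⟩ := exists_inert S.L F hLF hst A p hp hvp q hqp.pos S.ζ S.hζ hζL δ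
    ((d : S.L) : Ω) hδd (by
      rw [hδ]
      exact mul_mem (zpow_mem hαF _) (zpow_mem (hLF π.2) _)) d.2 hdΩ hvd (by
      intro z hz hz0
      refine ⟨ord w (⟨z, hz⟩ : S.L), ?_⟩
      set z' : S.L := ⟨z, hz⟩ with hz'
      have hz'0 : z' ≠ 0 := by
        intro h0
        exact hz0 (congrArg Subtype.val h0)
      set j := ord w z' with hj
      have hu0 : z' / d ^ j ≠ 0 := div_ne_zero hz'0 (zpow_ne_zero _ hd0)
      have hu : ord w (z' / d ^ j) = 0 := by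
        rw [ord_div w hz'0 (zpow_ne_zero _ hd0), K2_zpow w, hdord]
        omega
      have h1 := (ge3_iff A w hw hu0).2.2.2 hu
      have h2 : ((z' / d ^ j : S.L) : Ω) = z / ((d : S.L) : Ω) ^ j := by
        rw [← hzp]
        exact map_div₀ (algebraMap S.L Ω) z' (d ^ j)
      rw [h2, map_div₀, map_zpow₀] at h1
      have h3 : A.valuation ((d : S.L) : Ω) ^ j ≠ 0 :=
        zpow_ne_zero _ ((Valuation.ne_zero_iff _).2 hdΩ)
      exact (div_eq_one_iff_eq h3).1 h1)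
  refine ⟨g, hg, hgI, ?_⟩
  intro hgα
  have hgπ : g ((π : S.L) : Ω) = ((π : S.L) : Ω) := by
    rw [IntermediateField.mem_fixingSubgroup_iff] at hg
    exact hg _ π.2
  have h1 : g δ = δ := by
    rw [hδ, map_mul, map_zpow₀, map_zpow₀, hgα, hgπ]
  have hδ0 : δ ≠ 0 := mul_ne_zero (zpow_ne_zero _ hα) (zpow_ne_zero _ hπΩ)
  rw [h1] at hgδ
  have h2 : S.ζ = 1 := by
    have h3 : S.ζ * δ = 1 * δ := by rw [← hgδ, one_mul]
    exact mul_right_cancel₀ hδ0 h3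
  have h4 := S.hζ
  rw [h2] at h4
  have h5 := h4.eq_orderOf
  rw [orderOf_one] at h5
  exact hqp.one_lt.ne' h5

end H16F
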