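import Mathlib

/-!
# K3 (M): compactness of the Galois group

`G = Gal(Ω/k)` is compact for the Krull topology (Mathlib: `CompactSpace Gal(K/k)` for `IsGalois k K`,
FieldTheory/Galois/Profinite.lean).  For `F ≥ F₁` finite over `k` let `C_F = {g | P F g}`.  If `g ∈ C_F` then
the coset `g Gal(Ω/F)` is contained in `C_F` (`hres`), and the same for the complement; `Gal(Ω/F)` is open
(`IntermediateField.fixingSubgroup_isOpen`), so `C_F` is open and closed.  `C_F ≠ ∅` (`hne`), and
`C_{F ⊔ F'} ⊆ C_F ∩ C_{F'}` (`hmono`): the family is directed, so the intersection is not empty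
(`IsCompact.nonempty_iInter_of_directed_nonempty_isCompact_isClosed`, index type
`{F // F₁ ≤ F ∧ FiniteDimensional k F}`).  For an arbitrary finite `F` use `F₁ ⊔ F` and `hmono`.
-/

namespace H16F

theorem cpt {k Ω : Type*} [Field k] [Field Ω] [Algebra k Ω] [IsGalois k Ω]
    (F₁ : IntermediateField k Ω) [FiniteDimensional k F₁]
    (P : IntermediateField k Ω → (Ω ≃ₐ[k] Ω) → Prop)
    (hres : ∀ F : IntermediateField k Ω, F₁ ≤ F → FiniteDimensional k F →
      ∀ g g' : Ω ≃ₐ[k] Ω, (∀ x ∈ F, g x = g' x) → P F g → P F g')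
    (hmono : ∀ F F' : IntermediateField k Ω, F ≤ F' → ∀ g, P F' g → P F g)
    (hne : ∀ F : IntermediateField k Ω, F₁ ≤ F → FiniteDimensional k F → ∃ g, P F g) :
    ∃ g, ∀ F : IntermediateField k Ω, FiniteDimensional k F → P F g := by
  have hcl : ∀ i : {F : IntermediateField k Ω // F₁ ≤ F ∧ FiniteDimensional k F},
      IsClosed {g : Ω ≃ₐ[k] Ω | P i.1 g} := by
    rintro ⟨F, hF, hfin⟩
    rw [← isOpen_compl_iff, isOpen_iff_mem_nhds]
    intro g hg
    have hop : IsOpen ((fun g' : Ω ≃ₐ[k] Ω => g⁻¹ * g') ⁻¹' (F.fixingSubgroup : Set (Ω ≃ₐ[k] Ω))) :=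
      (IntermediateField.fixingSubgroup_isOpen F).preimage (continuous_const.mul continuous_id)
    have hmem : g ∈ (fun g' : Ω ≃ₐ[k] Ω => g⁻¹ * g') ⁻¹' (F.fixingSubgroup : Set (Ω ≃ₐ[k] Ω)) := by
      show g⁻¹ * g ∈ F.fixingSubgroup
      rw [inv_mul_cancel]
      exact one_mem _
    refine Filter.mem_of_superset (hop.mem_nhds hmem) ?_
    intro g' hg' hP
    apply hg
    refine hres F hF hfin g' g ?_ hP
    intro x hx
    have h1 : g⁻¹ * g' ∈ F.fixingSubgroup := hg'
    rw [IntermediateField.mem_fixingSubgroup_iff] at h1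
    have h2 := congrArg g (h1 x hx)
    rw [AlgEquiv.mul_apply] at h2
    have h3 : g (g⁻¹ (g' x)) = g' x := g.apply_symm_apply (g' x)
    rw [h3] at h2
    exact h2
  have hne' : Nonempty {F : IntermediateField k Ω // F₁ ≤ F ∧ FiniteDimensional k F} :=
    ⟨⟨F₁, le_rfl, inferInstance⟩⟩
  obtain ⟨g, hg⟩ := IsCompact.nonempty_iInter_of_directed_nonempty_isCompact_isClosed
    (fun i : {F : IntermediateField k Ω // F₁ ≤ F ∧ FiniteDimensional k F} => {g : Ω ≃ₐ[k] Ω | P i.1 g})
    (by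
      rintro ⟨F, hF, hfin⟩ ⟨F', hF', hfin'⟩
      refine ⟨⟨F ⊔ F', hF.trans le_sup_left, IntermediateField.finiteDimensional_sup F F'⟩, ?_, ?_⟩
      · intro g hg
        exact hmono _ _ le_sup_left g hg
      · intro g hg
        exact hmono _ _ le_sup_right g hg)
    (by
      rintro ⟨F, hF, hfin⟩
      exact hne F hF hfin)
    (fun i => (hcl i).isCompact) hcl
  refine ⟨g, fun F hfin => ?_⟩
  have h1 := Set.mem_iInter.1 hg ⟨F₁ ⊔ F, le_sup_left, IntermediateField.finiteDimensional_sup F₁ F⟩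
  exact hmono _ _ le_sup_right g h1

end H16F
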