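import Pool.Agent.Lib.H16F.Defs
import Pool.Agent.Lib.H16F.K2
import Pool.Agent.Lib.H16F.K3

/-!
# K4 (M): the Kummer generator of an unramified homomorphism

`f ∈ HM q R S.N`, `g α = ζ^f(g) α` for `g ∈ N`, `a = α^q ∈ L`.  Claim: `q ∣ ord_w a` for every prime `w` of `L`
which does not contain `R`.
Proof.  `exists_above S.L w` gives a place `A` of `Ω` above `w` (`v_A x < 1 ↔ 0 < ord_w x` on `L^*`), so
`w.asIdeal = plc S.L A` (compare elements, `mem_plc`), and `v_A R = 1` (`ord_w R = 0`: `R ∉ w`).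
Suppose `q ∤ ord_w a`.  Apply `cpt` with `F₁ = S.L ⊔ k⟮α⟯` and
`P F g = (g ∈ S.N ∧ Inert A F g ∧ g α ≠ α)`: `hres` (for `F ≥ F₁`: `g ∈ S.N`, `g α` and `Inert A F g`
depend only on the restriction of `g` to `F`), `hmono` clear, `hne`: the normal closure `F'` of `F` in `Ω`
is finite and stable under all of `Gal(Ω/k)`; `inert_kummer`.  (`IsGalois k Ω`: `Ω` is algebraic over `k`,
algebraically closed, characteristic `0`.)  So there is `g ∈ N` with `g α ≠ α` and `Inert A F g` for all
finite `F`, hence `Inert A ⊤ g` (for `x ∈ Ω` take `F = k⟮x⟯`).  `HM_inert` gives `f g = 0`, so `g α = α`.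
-/

open WeierstrassCurve NumberField IsDedekindDomain

namespace H16F

open H16C H16A

variable {k : Type*} [Field k] [NumberField k] {Ω : Type*} [Field Ω] [Algebra k Ω] [IsAlgClosed Ω]
  [Algebra.IsAlgebraic k Ω] [CharZero Ω] [DecidableEq Ω] {W : WeierstrassCurve.Affine k}
  [W.IsShortNF] [W.IsElliptic] {q : ℕ} [Fact q.Prime]

theorem ord_dvd (S : Setup W Ω q) [NumberField S.L] {R : ℕ} (f : HM q R S.N) {α : Ω} (hα : α ≠ 0)
    (hαL : α ^ q ∈ S.L)
    (hg : ∀ g : S.N, (g : Ω ≃ₐ[k] Ω) α = S.ζ ^ ((f : S.N → ZMod q) g).val * α)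
    (w : HeightOneSpectrum (𝓞 S.L)) (hw : (R : 𝓞 S.L) ∉ w.asIdeal) :
    (q : ℤ) ∣ ord w (⟨α ^ q, hαL⟩ : S.L) := by
  by_contra hord
  have hgal : IsGalois k Ω := by
    have h1 : IsAlgClosure k Ω := ⟨inferInstance, inferInstance⟩
    have h2 : Normal k Ω := IsAlgClosure.normal k Ω
    exact { }
  obtain ⟨A, hA⟩ := exists_above S.L w
  have hwA : w.asIdeal = plc S.L A := by
    ext z
    rw [mem_plc]
    by_cases hz : z = 0
    · rw [hz]
      simp
    · have hz' : (z : S.L) ≠ 0 := fun h => hz (RingOfIntegers.ext h)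
      rw [(hA _ hz').2.1, ord_int_pos_iff w hz]
  have hR0 : (R : 𝓞 S.L) ≠ 0 := by
    intro h0
    rw [h0] at hw
    exact hw (Ideal.zero_mem _)
  have hvR : A.valuation (R : Ω) = 1 := by
    rw [hwA, not_mem_plc] at hw
    simpa using hw
  have hfin := S.fin
  have hαint : IsIntegral k α := (Algebra.IsAlgebraic.isAlgebraic α).isIntegral
  have hαfin : FiniteDimensional k (IntermediateField.adjoin k {α}) :=
    IntermediateField.adjoin.finiteDimensional hαint
  obtain ⟨g, hgP⟩ := cpt (k := k) (Ω := Ω) (S.L ⊔ IntermediateField.adjoin k {α})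
    (fun F g => g ∈ S.N ∧ Inert A F g ∧ g α ≠ α)
    (by
      rintro F hF hFfin g g' hgg ⟨h1, h2, h3⟩
      have hαF : α ∈ F := hF (le_sup_right (a := S.L)
        (IntermediateField.mem_adjoin_simple_self k α))
      refine ⟨?_, ?_, ?_⟩
      · rw [IntermediateField.mem_fixingSubgroup_iff] at h1 ⊢
        intro x hx
        rw [← hgg x (hF (le_sup_left (a := S.L) hx))]
        exact h1 x hx
      · intro x hx hx1
        rw [← hgg x hx]
        exact h2 x hx hx1
      · rw [← hgg α hαF]
        exact h3)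
    (by
      rintro F F' hFF g ⟨h1, h2, h3⟩
      exact ⟨h1, fun x hx => h2 x (hFF hx), h3⟩)
    (by
      intro F hF hFfin
      have hF' : F ≤ IntermediateField.normalClosure k F Ω := IntermediateField.le_normalClosure F
      have hαF : α ∈ F := hF (le_sup_right (a := S.L)
        (IntermediateField.mem_adjoin_simple_self k α))
      have hn : Normal k (IntermediateField.normalClosure k F Ω) := normalClosure.normal k F Ω
      have hff : FiniteDimensional k (IntermediateField.normalClosure k F Ω) :=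
        normalClosure.is_finiteDimensional k F Ω
      obtain ⟨g, hgN, hgI, hgα⟩ := inert_kummer S hα hαL A w hwA hord
        (IntermediateField.normalClosure k F Ω) ((le_sup_left.trans hF).trans hF')
        (fun g _ x hx => by
          have h1 := IntermediateField.normal_iff_forall_map_le'.1 hn g
          exact h1 ⟨x, hx, rfl⟩) (hF' hαF)
      exact ⟨g, hgN, fun x hx => hgI x (hF' hx), hgα⟩)
  obtain ⟨hgN, -, hgα⟩ := hgP ⊥ inferInstance
  have hI : Inert A ⊤ g := by
    intro x _ hx1
    have hxfin : FiniteDimensional k (IntermediateField.adjoin k {x}) :=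
      IntermediateField.adjoin.finiteDimensional (Algebra.IsAlgebraic.isAlgebraic x).isIntegral
    exact (hgP (IntermediateField.adjoin k {x}) hxfin).2.1 x
      (IntermediateField.mem_adjoin_simple_self k x) hx1
  have h0 : (f : S.N → ZMod q) ⟨g, hgN⟩ = 0 := HM_inert f hvR (g := ⟨g, hgN⟩) hI
  have h1 := hg ⟨g, hgN⟩
  rw [h0, ZMod.val_zero, pow_zero, one_mul] at h1
  exact hgα h1

end H16F
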