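import Pool.Agent.Lib.H16F.K5

/-!
# K6 (S): elements with orders divisible by `q` outside `B`

`ψ : ι → (B → ℤ/q)`, `i ↦ (ord_w (a i) mod q)_{w ∈ B}`.  Each fibre has at most `C` elements: if `i₀` is in the
fibre, apply `sunit0` to the elements `a i / a i₀`, `i` in the fibre (the orders at `w ∈ B` are divisible by
`q` by the definition of `ψ`, those at `w ∉ B` by hypothesis; `a i / a i₀ = (a j / a i₀) z^q` implies
`a i = a j z^q`).  The number of fibres is at most `q^#B`
(`Finset.card_le_mul_card_image`, or `Fintype.card` of a sigma type).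
-/

open Polynomial IsDedekindDomain NumberField

namespace H16F

open H16A

theorem sunit (F : Type*) [Field F] [NumberField F] (q : ℕ) [Fact q.Prime] :
    ∃ C : ℕ, 0 < C ∧ ∀ (B : Finset (HeightOneSpectrum (𝓞 F))) (ι : Type) [Fintype ι] (a : ι → F),
      (∀ i, a i ≠ 0) →
      (∀ i (w : HeightOneSpectrum (𝓞 F)), w ∉ B → (q : ℤ) ∣ ord w (a i)) →
      (∀ i j (z : F), a i = a j * z ^ q → i = j) → Fintype.card ι ≤ C * q ^ B.card := by
  classical
  obtain ⟨C, hC, h⟩ := sunit0 F q
  refine ⟨C, hC, ?_⟩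
  intro B ι _ a ha hB hinj
  set ψ : ι → (B → ZMod q) := fun i w => ((ord w.1 (a i) : ℤ) : ZMod q) with hψ
  have h1 : (Finset.univ : Finset ι).card ≤ C * ((Finset.univ : Finset ι).image ψ).card := by
    apply Finset.card_le_mul_card_image
    intro y hy
    obtain ⟨i₀, -, hi₀⟩ := Finset.mem_image.1 hy
    have h2 := h {i : ι // ψ i = y} (fun i => a i.1 / a i₀) (fun i => div_ne_zero (ha _) (ha _)) ?_ ?_
    · rw [Fintype.card_subtype] at h2
      exact h2
    · intro i w
      rw [ord_div w (ha _) (ha _)]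
      by_cases hw : w ∈ B
      · have h3 : ψ i.1 ⟨w, hw⟩ = ψ i₀ ⟨w, hw⟩ := by rw [i.2, hi₀]
        have h4 : ((ord w (a i₀) : ℤ) : ZMod q) = ((ord w (a i.1) : ℤ) : ZMod q) := h3.symm
        exact (ZMod.intCast_eq_intCast_iff_dvd_sub _ _ _).1 h4
      · exact dvd_sub (hB _ w hw) (hB _ w hw)
    · intro i j z hz
      apply Subtype.ext
      apply hinj i.1 j.1 z
      have h5 := ha i₀
      field_simp at hz
      linear_combination hz
  rw [Finset.card_univ] at h1
  refine h1.trans (Nat.mul_le_mul_left C ?_)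
  refine (Finset.card_le_univ _).trans ?_
  rw [Fintype.card_fun, ZMod.card, Fintype.card_coe]

end H16F
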