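import Mathlib

/-!
# K7 (S/M): the primes of a number field that divide `R`

`B` = the set of the primes `w` of `F` with `R ∈ w` (finite: `R ≠ 0`).  Every such `w` contains a prime number
`p ∣ R` (`w` prime, `R = ∏ p^e`), i.e. lies above `p`.  For each `p` the number of the primes of `𝓞 F` above
`p` is at most `[F : ℚ]` (`Ideal.sum_ramification_inertia`: `∑ e f = [F : ℚ]`, `e f ≥ 1`; or:
`∏ w ∣ (p)` and norms: `∏ N(w) ∣ p^[F:ℚ]`, `N(w) ≥ p`; see also Lib/H59 `degOne_le`).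
So `#B ≤ [F : ℚ] #R.primeFactors`.
-/

open IsDedekindDomain NumberField

namespace H16F

theorem k7_one (F : Type*) [Field F] [NumberField F] (p : ℕ) (hp : p.Prime) :
    ∃ B : Finset (HeightOneSpectrum (𝓞 F)), (∀ w, (p : 𝓞 F) ∈ w.asIdeal → w ∈ B) ∧
      B.card ≤ Module.finrank ℚ F := by
  classical
  have hpz : Prime (p : ℤ) := Nat.prime_iff_prime_int.1 hp
  have hp0 : Ideal.span {(p : ℤ)} ≠ ⊥ := by
    rw [Ne, Ideal.span_singleton_eq_bot]
    exact hpz.ne_zero
  have hmax : (Ideal.span {(p : ℤ)}).IsMaximal :=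
    PrincipalIdealRing.isMaximal_of_irreducible hpz.irreducible
  have hcard : (IsDedekindDomain.primesOverFinset (Ideal.span {(p : ℤ)}) (𝓞 F)).card ≤ Module.finrank ℚ F :=
    Ideal.card_primesOverFinset_le_finrank (𝓞 F) ℚ F hp0
  have hmem : ∀ w : HeightOneSpectrum (𝓞 F), (p : 𝓞 F) ∈ w.asIdeal →
      w.asIdeal ∈ IsDedekindDomain.primesOverFinset (Ideal.span {(p : ℤ)}) (𝓞 F) := by
    intro w hw
    rw [IsDedekindDomain.mem_primesOverFinset_iff hp0]
    refine ⟨w.isPrime, ⟨?_⟩⟩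
    refine hmax.eq_of_le ?_ ?_
    · have := w.isPrime
      exact (Ideal.IsPrime.under ℤ w.asIdeal).ne_top
    · rw [Ideal.span_singleton_le_iff_mem, Ideal.mem_comap]
      simpa using hw
  have hinj : Set.InjOn (fun w : HeightOneSpectrum (𝓞 F) => w.asIdeal)
      ((fun w : HeightOneSpectrum (𝓞 F) => w.asIdeal) ⁻¹'
        (IsDedekindDomain.primesOverFinset (Ideal.span {(p : ℤ)}) (𝓞 F) : Set (Ideal (𝓞 F)))) := by
    intro a _ b _ h
    exact HeightOneSpectrum.ext h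
  refine ⟨(IsDedekindDomain.primesOverFinset (Ideal.span {(p : ℤ)}) (𝓞 F)).preimage (fun w : HeightOneSpectrum (𝓞 F) => w.asIdeal)
    hinj, ?_, ?_⟩
  · intro w hw
    rw [Finset.mem_preimage]
    exact hmem w hw
  · rw [Finset.card_preimage]
    exact (Finset.card_filter_le _ _).trans hcard

theorem primes_dvd (F : Type*) [Field F] [NumberField F] (R : ℕ) (hR : R ≠ 0) :
    ∃ B : Finset (HeightOneSpectrum (𝓞 F)), (∀ w, (R : 𝓞 F) ∈ w.asIdeal → w ∈ B) ∧
      B.card ≤ Module.finrank ℚ F * R.primeFactors.card := by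
  classical
  have h1 : ∀ p : ℕ, ∃ B : Finset (HeightOneSpectrum (𝓞 F)), p.Prime →
      (∀ w : HeightOneSpectrum (𝓞 F), (p : 𝓞 F) ∈ w.asIdeal → w ∈ B) ∧ B.card ≤ Module.finrank ℚ F := by
    intro p
    by_cases hp : p.Prime
    · obtain ⟨B, hB⟩ := k7_one F p hp
      exact ⟨B, fun _ => hB⟩
    · exact ⟨∅, fun h => absurd h hp⟩
  choose B hB using h1
  refine ⟨R.primeFactors.biUnion B, ?_, ?_⟩
  · intro w hw
    have h2 : ∃ p ∈ R.primeFactors, (p : 𝓞 F) ∈ w.asIdeal := by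
      rw [← Nat.prod_factorization_pow_eq_self hR] at hw
      rw [Finsupp.prod, Nat.cast_prod] at hw
      have := w.isPrime
      obtain ⟨p, hp, hpw⟩ := (Ideal.IsPrime.prod_mem_iff).1 hw
      rw [Nat.cast_pow] at hpw
      exact ⟨p, by simpa using hp, this.mem_of_pow_mem _ hpw⟩
    obtain ⟨p, hp, hpw⟩ := h2
    rw [Finset.mem_biUnion]
    exact ⟨p, hp, (hB p (Nat.prime_of_mem_primeFactors hp)).1 w hpw⟩
  · refine Finset.card_biUnion_le.trans ?_
    refine (Finset.sum_le_sum fun p hp => (hB p (Nat.prime_of_mem_primeFactors hp)).2).trans ?_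
    rw [Finset.sum_const, smul_eq_mul, mul_comm]

end H16F
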