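import Pool.Agent.Lib.H16F.K1
import Pool.Agent.Lib.H16F.K4
import Pool.Agent.Lib.H16F.K6
import Pool.Agent.Lib.H16F.K7

/-!
# K8 (M): the dimension of the group of the unramified homomorphisms of `Gal(Ω/L)`

`L = S.L` is a number field (`S.fin`, `FR_numberField`).  Let `C` be the constant of `sunit L q` and `B` the
finset of `primes_dvd L R`.  Let `v : Fin s → HM q R N` be linearly independent (`rank_le`: it is enough to
bound the size of the finite linearly independent families, `rank_le`/`rank_le_of_...`,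
`Module.rank ≤ n` iff all linearly independent finsets have at most `n` elements).
The `q^s` elements `f_x = ∑ x_j v_j`, `x : Fin s → ZMod q`, are different.  `kummer_hom` gives `α_x` with
`a_x = α_x^q ∈ L`, `g α_x = ζ^(f_x g) α_x`.  `ord_dvd`: `q ∣ ord_w a_x` for `w ∉ B`.  If `a_x = a_y z^q`,
`z ∈ L`, then `α_x = ζ^i α_y z` for some `i` (`(α_x/(α_y z))^q = 1`), so for `g ∈ N`:
`ζ^(f_x g) = ζ^(f_y g)`, `f_x g = f_y g` (`IsPrimitiveRoot.pow_inj`, values `< q`), so `x = y`.
`sunit` (`ι = Fin s → ZMod q`): `q^s ≤ C q^#B`, so `s ≤ #B + C` (`C ≤ 2^C ≤ q^C`)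
`≤ [L:ℚ] ω(R) + C ≤ ([L:ℚ] + C) (1 + ω(R))`.
-/

open WeierstrassCurve NumberField IsDedekindDomain

namespace H16F

open H16C

variable {k : Type*} [Field k] [NumberField k] {Ω : Type*} [Field Ω] [Algebra k Ω] [IsAlgClosed Ω]
  [Algebra.IsAlgebraic k Ω] [CharZero Ω] [DecidableEq Ω] {W : WeierstrassCurve.Affine k}
  [W.IsShortNF] [W.IsElliptic] {q : ℕ} [Fact q.Prime]

theorem HM_rank (S : Setup W Ω q) : ∃ C : ℕ, ∀ R : ℕ, R ≠ 0 →
    Module.rank (ZMod q) (HM q R S.N) ≤ ((C * (1 + R.primeFactors.card) : ℕ) : Cardinal) := by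
  have hfin := S.fin
  have hnf : NumberField S.L := FR_numberField S.L
  obtain ⟨C, hC, hs⟩ := sunit S.L q
  have hq : q.Prime := Fact.out
  refine ⟨Module.finrank ℚ S.L + C, fun R hR => ?_⟩
  obtain ⟨B, hB1, hB2⟩ := primes_dvd S.L R hR
  apply rank_le
  intro t hli
  have hli' := hli.comp t.equivFin.symm t.equivFin.symm.injective
  set v : Fin t.card → HM q R S.N := (fun i : t => (i : HM q R S.N)) ∘ t.equivFin.symm with hv
  set f : (Fin t.card → ZMod q) → HM q R S.N := fun x => ∑ i, x i • v i with hf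
  have hfinj : Function.Injective f := by
    intro x y hxy
    have h1 : ∑ i, (x - y) i • v i = 0 := by
      have h2 : f x - f y = 0 := sub_eq_zero.2 hxy
      rw [hf] at h2
      simp only at h2
      rw [← Finset.sum_sub_distrib] at h2
      rw [← h2]
      refine Finset.sum_congr rfl fun i _ => ?_
      rw [Pi.sub_apply]
      exact sub_smul (x i) (y i) (v i)
    have h3 := Fintype.linearIndependent_iff.1 hli' (x - y) h1
    funext i
    exact sub_eq_zero.1 (h3 i)
  choose α hα0 hαL hαg using fun x => kummer_hom S (f x)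
  have h4 := hs B (Fin t.card → ZMod q) (fun x => (⟨α x ^ q, hαL x⟩ : S.L)) ?_ ?_ ?_
  · rw [Fintype.card_fun, ZMod.card, Fintype.card_fin] at h4
    have h5 : C ≤ q ^ C := (Nat.lt_two_pow_self).le.trans (Nat.pow_le_pow_left hq.two_le C)
    have h6 : q ^ t.card ≤ q ^ (C + B.card) := by
      rw [pow_add]
      exact h4.trans (Nat.mul_le_mul_right _ h5)
    have h7 := (Nat.pow_le_pow_iff_right hq.one_lt).1 h6
    refine h7.trans ?_
    nlinarith [hB2, Nat.zero_le (C * R.primeFactors.card), Nat.zero_le (Module.finrank ℚ S.L)]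
  · intro x h
    have h5 : α x ^ q = 0 := congrArg Subtype.val h
    exact hα0 x ((pow_eq_zero_iff hq.ne_zero).1 h5)
  · intro x w hw
    exact ord_dvd S (f x) (hα0 x) (hαL x) (hαg x) w (fun h => hw (hB1 w h))
  · intro x y z hz
    have h5 : α x ^ q = α y ^ q * (z : Ω) ^ q := congrArg Subtype.val hz
    have hz0 : (z : Ω) ≠ 0 := by
      intro h6
      rw [h6, zero_pow hq.ne_zero, mul_zero, pow_eq_zero_iff hq.ne_zero] at h5
      exact hα0 x h5
    have h6 : (α x / (α y * z)) ^ q = 1 := by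
      rw [div_pow, mul_pow, h5]
      exact div_self (mul_ne_zero (pow_ne_zero _ (hα0 y)) (pow_ne_zero _ hz0))
    have hq0 : NeZero q := ⟨hq.ne_zero⟩
    obtain ⟨i, -, hi⟩ := S.hζ.eq_pow_of_pow_eq_one h6
    have h7 : α x = S.ζ ^ i * (α y * z) := by
      rw [hi]
      exact (div_mul_cancel₀ _ (mul_ne_zero (hα0 y) hz0)).symm
    apply hfinj
    apply Subtype.ext
    funext g
    have h8 := hαg x g
    have h9 : (g : Ω ≃ₐ[k] Ω) (α x) = S.ζ ^ ((f y : S.N → ZMod q) g).val * α x := by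
      have hgζ : (g : Ω ≃ₐ[k] Ω) S.ζ = S.ζ := (S.fix _ g.2).1
      have hgz : (g : Ω ≃ₐ[k] Ω) (z : Ω) = z := (IntermediateField.mem_fixingSubgroup_iff _ _).1 g.2 z z.2
      rw [h7, map_mul, map_mul, map_pow, hgζ, hgz, hαg y g]
      ring
    rw [h8] at h9
    have h10 := mul_right_cancel₀ (hα0 x) h9
    have h11 := S.hζ.pow_inj (ZMod.val_lt _) (ZMod.val_lt _) h10
    exact ZMod.val_injective q h11

end H16F
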