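import Pool.Agent.Lib.H16F.N4

/-!
# N5 (M): a chain of steps

`P` is normal in `N`, `N/P` is a finite `q`-group (every element of `N` has a `q`-power power in `P`),
`[N : P] ≤ Q`.  Claim: `dim HM(P) ≤ Q (d + Q)`.
Proof.  `[N : P] = q^e` (`IsPGroup.iff_card` for `N ⧸ P.subgroupOf N`).  For subgroups `P ≤ H ≤ N` with
`[H : P] = q^j`, show `dim HM(H) ≤ q^(e-j) (d + (e-j))` by induction on `e - j`.  `j = e`: `H = N`.
`j < e`: in the finite `q`-group `N/P` of order `q^e` the subgroup `H/P` of order `q^j` is contained in a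
subgroup `K/P` of order `q^(j+1)` (`Sylow.exists_subgroup_card_pow_succ`), in which it is normal
(index `q` = smallest prime factor of the order: `Subgroup.normal_of_index_eq_minFac_card`; or
`IsPGroup`: normalizers grow).  `K` = the preimage in `N`.  `H` is normal in `K` of index `q`;
`step` with `H' = H`, `H = K`: `hin`: an inert `g ∈ K ≤ N` is in `P ≤ H`; `hopen` for `H ≥ P`.
So `dim HM(H) ≤ q (dim HM(K) + 1) ≤ q (q^(e-j-1) (d + e - j - 1) + 1) ≤ q^(e-j) (d + (e-j))`.
For `H = P`, `j = 0`: `q^e (d + e)`, `e ≤ q^e ≤ Q`.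
(Or: strong induction on `[H : P]`, downwards.)
-/

open WeierstrassCurve NumberField IsDedekindDomain

namespace H16F

open H16C

variable {k : Type*} [Field k] {Ω : Type*} [Field Ω] [Algebra k Ω]

theorem chain {q R : ℕ} [Fact q.Prime] {P N : Subgroup (Ω ≃ₐ[k] Ω)} (hle : P ≤ N)
    (hn : ∀ g ∈ N, ∀ h ∈ P, g * h * g⁻¹ ∈ P) (hp : ∀ g ∈ N, ∃ j : ℕ, g ^ (q ^ j) ∈ P)
    {Q : ℕ} (hQ : P.relIndex N ≤ Q) (hQ0 : P.relIndex N ≠ 0)
    (hin : ∀ A : ValuationSubring Ω, A.valuation (R : Ω) = 1 → ∀ g ∈ N, Inert A ⊤ g → g ∈ P)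
    (hopen : ∃ F : IntermediateField k Ω, FiniteDimensional k F ∧ F.fixingSubgroup ≤ P)
    {d : ℕ} (hd : Module.rank (ZMod q) (HM q R N) ≤ (d : Cardinal)) :
    Module.rank (ZMod q) (HM q R P) ≤ ((Q * (d + Q) : ℕ) : Cardinal) := by
  have hqp : q.Prime := Fact.out
  have hnorm : (P.subgroupOf N).Normal := ⟨fun h hh g => hn g g.2 h hh⟩
  have hcard : Nat.card (N ⧸ P.subgroupOf N) = P.relIndex N := rfl
  have hfin : Finite (N ⧸ P.subgroupOf N) := Nat.finite_of_card_ne_zero (by rw [hcard]; exact hQ0)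
  have hpg : IsPGroup q (N ⧸ P.subgroupOf N) := by
    intro g
    obtain ⟨g, rfl⟩ := QuotientGroup.mk_surjective g
    obtain ⟨j, hj⟩ := hp g g.2
    refine ⟨j, ?_⟩
    rw [← QuotientGroup.mk_pow, QuotientGroup.eq_one_iff]
    exact hj
  obtain ⟨e, he⟩ := IsPGroup.iff_card.1 hpg
  let π : N →* (N ⧸ P.subgroupOf N) := QuotientGroup.mk' (P.subgroupOf N)
  have hπ : Function.Surjective π := QuotientGroup.mk'_surjective _
  have hπ1 : ∀ (g : Ω ≃ₐ[k] Ω) (hg : g ∈ P), π ⟨g, hle hg⟩ = 1 := fun g hg =>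
    (QuotientGroup.eq_one_iff _).2 hg
  obtain ⟨HH, hHH⟩ : ∃ HH : Subgroup (N ⧸ P.subgroupOf N) → Subgroup (Ω ≃ₐ[k] Ω),
      HH = fun H => (H.comap π).map N.subtype := ⟨_, rfl⟩
  have hmem : ∀ H g, g ∈ HH H ↔ ∃ hg : g ∈ N, π ⟨g, hg⟩ ∈ H := by
    intro H g
    rw [hHH]
    constructor
    · rintro ⟨x, hx, rfl⟩
      exact ⟨x.2, hx⟩
    · rintro ⟨hg, h1⟩
      exact ⟨⟨g, hg⟩, h1, rfl⟩
  have hPH : ∀ H, P ≤ HH H := fun H g hg => (hmem H g).2 ⟨hle hg, by rw [hπ1 g hg]; exact H.one_mem⟩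
  have hrel : ∀ H K, (HH H).relIndex (HH K) = H.relIndex K := by
    intro H K
    have hKN : HH K ≤ N := fun g hg => ((hmem K g).1 hg).1
    have h1 : ∀ L, (HH L).subgroupOf N = L.comap π := by
      intro L
      ext g
      rw [Subgroup.mem_subgroupOf, hmem]
      exact ⟨fun h => h.2, fun h => ⟨g.2, h⟩⟩
    rw [← Subgroup.relIndex_subgroupOf hKN, h1, h1, Subgroup.relIndex_comap,
      Subgroup.map_comap_eq_self_of_surjective hπ]
  have key : ∀ i : ℕ, ∀ H : Subgroup (N ⧸ P.subgroupOf N), H.index = q ^ i →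
      Module.rank (ZMod q) (HM q R (HH H)) ≤ ((q ^ i * (d + i) : ℕ) : Cardinal) := by
    intro i
    induction i with
    | zero =>
      intro H hH
      rw [pow_zero, Subgroup.index_eq_one] at hH
      have e1 : HH H = N := by
        ext g
        rw [hmem, hH]
        exact ⟨fun h => h.1, fun h => ⟨h, Subgroup.mem_top _⟩⟩
      rw [e1, pow_zero, one_mul, add_zero]
      exact hd
    | succ i ih =>
      intro H hH
      have h1 : Nat.card H * q ^ (i + 1) = q ^ e := by rw [← hH, Subgroup.card_mul_index, he]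
      have h2 : i + 1 ≤ e := (Nat.pow_dvd_pow_iff_le_right hqp.one_lt).1 (Dvd.intro_left _ h1)
      obtain ⟨m, rfl⟩ := Nat.exists_eq_add_of_le h2
      have h3 : Nat.card H = q ^ m := by
        have h4 : Nat.card H * q ^ (i + 1) = q ^ m * q ^ (i + 1) := by rw [h1, ← pow_add, add_comm]
        exact Nat.eq_of_mul_eq_mul_right (pow_pos hqp.pos _) h4
      obtain ⟨K, hK, hHK⟩ := Sylow.exists_subgroup_card_pow_succ (p := q) (n := m)
        (by
          rw [he]
          exact pow_dvd_pow q (by omega)) h3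
      have h5 : K.index = q ^ i := by
        have h6 := K.card_mul_index
        rw [hK, he] at h6
        have h7 : q ^ (m + 1) * K.index = q ^ (m + 1) * q ^ i := by
          rw [h6, ← pow_add]
          congr 1
          omega
        exact Nat.eq_of_mul_eq_mul_left (pow_pos hqp.pos _) h7
      have h8 : H.relIndex K = q := by
        have h9 := Subgroup.relIndex_mul_index hHK
        rw [h5, hH, pow_succ'] at h9
        exact Nat.eq_of_mul_eq_mul_right (pow_pos hqp.pos _) h9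
      have h10 : (H.subgroupOf K).Normal := by
        refine Subgroup.normal_of_index_eq_minFac_card ?_
        rw [hK, Nat.Prime.pow_minFac hqp (by omega)]
        exact h8
      have h11 := step (q := q) (R := R) (H' := HH H) (H := HH K) (fun g hg => by
          obtain ⟨hg1, hg2⟩ := (hmem H g).1 hg
          exact (hmem K g).2 ⟨hg1, hHK hg2⟩)
        (fun g hg h hh => by
          obtain ⟨hg1, hg2⟩ := (hmem K g).1 hg
          obtain ⟨hh1, hh2⟩ := (hmem H h).1 hh
          refine (hmem H _).2 ⟨N.mul_mem (N.mul_mem hg1 hh1) (N.inv_mem hg1), ?_⟩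
          have h12 := h10.conj_mem ⟨π ⟨h, hh1⟩, hHK hh2⟩ hh2 ⟨π ⟨g, hg1⟩, hg2⟩
          have h13 : π ⟨g, hg1⟩ * π ⟨h, hh1⟩ * (π ⟨g, hg1⟩)⁻¹ ∈ H := h12
          rw [← map_mul, ← map_inv, ← map_mul] at h13
          exact h13)
        ((hrel H K).trans h8)
        (fun A hA g hg hi => hPH H (hin A hA g ((hmem K g).1 hg).1 hi))
        (by
          obtain ⟨F, hF, hF2⟩ := hopen
          exact ⟨F, hF, hF2.trans (hPH H)⟩)
        (ih K h5)
      refine h11.trans ?_
      rw [Nat.cast_le]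
      have h14 : 1 ≤ q ^ i := Nat.one_le_pow _ _ hqp.pos
      calc q * (q ^ i * (d + i) + 1) ≤ q * (q ^ i * (d + i) + q ^ i) :=
            Nat.mul_le_mul_left _ (Nat.add_le_add_left h14 _)
        _ = q ^ (i + 1) * (d + (i + 1)) := by ring
  have hbot := key e ⊥ (by rw [Subgroup.index_bot, he])
  have e2 : HH ⊥ = P := by
    ext g
    rw [hmem]
    constructor
    · rintro ⟨hg, h1⟩
      rw [Subgroup.mem_bot] at h1
      have h3 := (QuotientGroup.eq_one_iff (N := P.subgroupOf N) (⟨g, hg⟩ : N)).1 h1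
      exact h3
    · intro hg
      exact ⟨hle hg, by rw [hπ1 g hg]; exact Subgroup.one_mem _⟩
  rw [e2] at hbot
  refine hbot.trans ?_
  rw [Nat.cast_le]
  have h1 : q ^ e ≤ Q := by
    rw [← he, hcard]
    exact hQ
  have h2 : e ≤ Q := (Nat.lt_pow_self hqp.one_lt).le.trans h1
  exact Nat.mul_le_mul h1 (Nat.add_le_add_left h2 _)

end H16F
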