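import Pool.Agent.Lib.H16F.C1
import Pool.Agent.Lib.H16F.C2
import Pool.Agent.Lib.H16F.G1
import Pool.Agent.Lib.H16F.K8
import Pool.Agent.Lib.H16F.N5

/-!
# C3 (M, assembly): the number of the cocycles

Constants: `Q` of `core S d`, `C₀` of `HM_rank S`, `C₂` of `image S`, `t` of `fibre W q`.
Given `R`, `K` let `P` be the subgroup of `core`.  `chain` (`N = S.N`) and `HM_rank`: `dim HM(P) ≤ r`,
`r = Q (C₀ (1 + ω) + Q)`, `ω = R.primeFactors.card`.  Choose representatives of the classes of the equivalence relation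
`i ~ j ↔ c_i = c_j on P` on `ι` (e.g. the image `J` of a choice function; `Quotient.out`): `#J ≤ q^(C₂ r)` by
`image` (`ZU.mono`), each class has at most `t^P.index ≤ t^Q` elements by `fibre` (`H = K.fixingSubgroup`).
`#ι ≤ t^Q q^(C₂ r)`, `t ≤ 2^t ≤ q^t`, `r ≤ Q (C₀ + Q) (1 + ω)`: `C = t Q + C₂ Q (C₀ + Q)`.
(If `t = 0` were possible: `0 < t` is given.)
-/

open WeierstrassCurve NumberField IsDedekindDomain

namespace H16F

open H16C

variable {k : Type*} [Field k] [NumberField k] {Ω : Type*} [Field Ω] [Algebra k Ω] [IsAlgClosed Ω]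
  [Algebra.IsAlgebraic k Ω] [CharZero Ω] [DecidableEq Ω] {W : WeierstrassCurve.Affine k}
  [W.IsShortNF] [W.IsElliptic] {q : ℕ} [Fact q.Prime]

theorem cnt (S : Setup W Ω q) (d : ℕ) : ∃ C : ℕ, ∀ R : ℕ, R ≠ 0 → ∀ K : IntermediateField k Ω,
    FiniteDimensional k K → Module.finrank k K ≤ d →
    (∀ g : Ω ≃ₐ[k] Ω, g S.ζ = S.ζ → ∃ j : ℕ, g ^ (q ^ j) ∈ K.fixingSubgroup) →
    (∀ A : ValuationSubring Ω, A.valuation (R : Ω) = 1 → ∀ g : Ω ≃ₐ[k] Ω, Inert A ⊤ g →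
      g ∈ K.fixingSubgroup) →
    ∀ (ι : Type) [Fintype ι] (c : ι → (Ω ≃ₐ[k] Ω) → Pt W Ω),
      (∀ i, ZU W q R K.fixingSubgroup (c i)) →
      (∀ i j, (∀ g ∈ K.fixingSubgroup, c i g = c j g) → i = j) →
      Fintype.card ι ≤ q ^ (C * (1 + R.primeFactors.card)) := by
  classical
  have hqp : q.Prime := Fact.out
  obtain ⟨Q, hQ⟩ := core S d
  obtain ⟨C₀, hC₀⟩ := HM_rank S
  obtain ⟨C₂, hC₂⟩ := image S
  obtain ⟨t, ht0, ht⟩ := fibre (Ω := Ω) W q hqp.pos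
  refine ⟨t * Q + C₂ * (Q * (C₀ + Q)), ?_⟩
  intro R hR K hK hd hq hin ι _ c hc hinj
  obtain ⟨P, hPK, hPN, hPn, hPq, hrel, hrel0, hidx, hidx0, hPin, hopen⟩ := hQ R K hK hd hq hin
  have h1 := chain (R := R) hPN hPn hPq hrel hrel0 hPin hopen (hC₀ R hR)
  let st : Setoid ι := ⟨fun i j => ∀ g ∈ P, c i g = c j g, ⟨fun _ _ _ => rfl, fun h g hg => (h g hg).symm,
    fun h h' g hg => (h g hg).trans (h' g hg)⟩⟩
  have hJ : Fintype.card (Quotient st) ≤ q ^ (C₂ * (Q * (C₀ * (1 + R.primeFactors.card) + Q))) := by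
    refine hC₂ R P hPN _ h1 (Quotient st) (fun x => c x.out) (fun x => (hc _).mono hPK) fun x y h => ?_
    exact Quotient.out_equiv_out.1 h
  have hF : ∀ x : Quotient st, Fintype.card {i : ι // Quotient.mk st i = x} ≤ t ^ Q := by
    intro x
    refine (ht K.fixingSubgroup P hPK hidx0 {i : ι // Quotient.mk st i = x} (fun i => c i.1)
      (fun i => (hc i.1).coc) (fun i => (hc i.1).tors) (fun i j => ?_) (fun i j h => ?_)).trans
      (Nat.pow_le_pow_right ht0 hidx)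
    · exact Quotient.exact (i.2.trans j.2.symm)
    · exact Subtype.ext (hinj i.1 j.1 h)
  have hsum : Fintype.card ι = ∑ x : Quotient st, Fintype.card {i : ι // Quotient.mk st i = x} := by
    rw [← Fintype.card_sigma]
    exact (Fintype.card_congr (Equiv.sigmaFiberEquiv (Quotient.mk st))).symm
  have h2 : Fintype.card ι ≤ Fintype.card (Quotient st) * t ^ Q := by
    rw [hsum]
    refine (Finset.sum_le_card_nsmul _ _ _ fun x _ => hF x).trans ?_
    rw [smul_eq_mul, Finset.card_univ]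
  have h3 : t ≤ q ^ t := (Nat.lt_pow_self hqp.one_lt).le
  have h4 : t ^ Q ≤ q ^ (t * Q) := by
    rw [pow_mul]
    exact Nat.pow_le_pow_left h3 Q
  refine h2.trans ((Nat.mul_le_mul hJ h4).trans ?_)
  rw [← pow_add]
  refine Nat.pow_le_pow_right hqp.pos ?_
  obtain ⟨w, hw⟩ : ∃ w, w = 1 + R.primeFactors.card := ⟨_, rfl⟩
  rw [← hw]
  have hw1 : 1 ≤ w := by omega
  have h5 : Q ≤ Q * w := Nat.le_mul_of_pos_right Q hw1
  have h6 : t * Q ≤ t * Q * w := Nat.le_mul_of_pos_right _ hw1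
  have h7 : C₂ * (Q * (C₀ * w + Q)) ≤ C₂ * (Q * (C₀ + Q)) * w := by
    calc C₂ * (Q * (C₀ * w + Q)) ≤ C₂ * (Q * (C₀ * w + Q * w)) :=
          Nat.mul_le_mul_left _ (Nat.mul_le_mul_left _ (Nat.add_le_add_left h5 _))
      _ = C₂ * (Q * (C₀ + Q)) * w := by ring
  calc C₂ * (Q * (C₀ * w + Q)) + t * Q ≤ C₂ * (Q * (C₀ + Q)) * w + t * Q * w := Nat.add_le_add h7 h6
    _ = (t * Q + C₂ * (Q * (C₀ + Q))) * w := by ring

end H16F
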