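import Pool.Agent.Lib.H16C.Defs

/-!
# H16F: definitions

See PROOF.md.  `G = Gal(Ω/k)`.  A place is a valuation subring `A` of `Ω`.  `Inert A ⊤ g` (H16C/Defs):
`v (g x - x) < 1` for all `x` with `v x ≤ 1`, `v = A.valuation`.  The number `R` describes the bad
places: those with `v R < 1`.
-/

open WeierstrassCurve NumberField IsDedekindDomain

namespace H16F

open H16C

section

variable {k : Type*} [Field k] {Ω : Type*} [Field Ω] [Algebra k Ω]

/-- the continuous homomorphisms `H → ℤ/q` which vanish at the elements of `H` that are inert at a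
place at which `R` is a unit -/
def HM (q R : ℕ) (H : Subgroup (Ω ≃ₐ[k] Ω)) : Submodule (ZMod q) (H → ZMod q) where
  carrier := {f | (∀ g h : H, f (g * h) = f g + f h) ∧
    (∃ F : IntermediateField k Ω, FiniteDimensional k F ∧
      ∀ g : H, (g : Ω ≃ₐ[k] Ω) ∈ F.fixingSubgroup → f g = 0) ∧
    ∀ A : ValuationSubring Ω, A.valuation (R : Ω) = 1 → ∀ g : H,
      Inert A ⊤ (g : Ω ≃ₐ[k] Ω) → f g = 0}
  zero_mem' := ⟨fun _ _ => by simp, ⟨⊥, inferInstance, fun _ _ => rfl⟩, fun _ _ _ _ => rfl⟩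
  add_mem' := by
    rintro f f' ⟨h1, ⟨F, hF, h2⟩, h3⟩ ⟨h1', ⟨F', hF', h2'⟩, h3'⟩
    refine ⟨fun g h => ?_, ⟨F ⊔ F', inferInstance, fun g hg => ?_⟩, fun A hA g hg => ?_⟩
    · simp only [Pi.add_apply, h1, h1']
      ring
    · rw [IntermediateField.fixingSubgroup_sup] at hg
      simp only [Pi.add_apply, h2 g hg.1, h2' g hg.2, add_zero]
    · simp only [Pi.add_apply, h3 A hA g hg, h3' A hA g hg, add_zero]
  smul_mem' := by
    rintro a f ⟨h1, ⟨F, hF, h2⟩, h3⟩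
    refine ⟨fun g h => ?_, ⟨F, hF, fun g hg => ?_⟩, fun A hA g hg => ?_⟩
    · simp only [Pi.smul_apply, h1, smul_add]
    · simp only [Pi.smul_apply, h2 g hg, smul_zero]
    · simp only [Pi.smul_apply, h3 A hA g hg, smul_zero]

theorem HM_mul {q R : ℕ} {H : Subgroup (Ω ≃ₐ[k] Ω)} (f : HM q R H) (g h : H) :
    (f : H → ZMod q) (g * h) = (f : H → ZMod q) g + (f : H → ZMod q) h := f.2.1 g h

theorem HM_inert {q R : ℕ} {H : Subgroup (Ω ≃ₐ[k] Ω)} (f : HM q R H) {A : ValuationSubring Ω}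
    (hA : A.valuation (R : Ω) = 1) {g : H} (hg : Inert A ⊤ (g : Ω ≃ₐ[k] Ω)) :
    (f : H → ZMod q) g = 0 := f.2.2.2 A hA g hg

variable [DecidableEq Ω]

/-- `c` is a continuous cocycle of `H` with values in `E[q]` which vanishes at the elements of `H` that
are inert at a place at which `R` is a unit -/
structure ZU (W : WeierstrassCurve.Affine k) (q R : ℕ) (H : Subgroup (Ω ≃ₐ[k] Ω))
    (c : (Ω ≃ₐ[k] Ω) → Pt W Ω) : Prop where
  coc : ∀ g ∈ H, ∀ h ∈ H, c (g * h) = c g + rho W g (c h)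
  tors : ∀ g ∈ H, q • c g = 0
  cont : ∃ F : IntermediateField k Ω, FiniteDimensional k F ∧
    ∀ g ∈ H, g ∈ F.fixingSubgroup → c g = 0
  unr : ∀ A : ValuationSubring Ω, A.valuation (R : Ω) = 1 → ∀ g ∈ H, Inert A ⊤ g → c g = 0

theorem ZU.mono {W : WeierstrassCurve.Affine k} {q R : ℕ} {H H' : Subgroup (Ω ≃ₐ[k] Ω)}
    {c : (Ω ≃ₐ[k] Ω) → Pt W Ω} (h : ZU W q R H c) (hle : H' ≤ H) : ZU W q R H' c :=
  ⟨fun g hg g' hg' => h.coc g (hle hg) g' (hle hg'), fun g hg => h.tors g (hle hg), by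
    obtain ⟨F, hF, h1⟩ := h.cont
    exact ⟨F, hF, fun g hg => h1 g (hle hg)⟩, fun A hA g hg => h.unr A hA g (hle hg)⟩

end

end H16F
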