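import Mathlib

/-!
# E1 (M): `ι(Ω)` is dense in the algebraic closure of the complete field `F`

`F` is a complete nonarchimedean field, `K → F` has dense image, `Ω` is algebraically closed,
`ι : Ω → F^alg` a `K`-embedding, `N = spectralNorm F F^alg` (multiplicative: `spectralMulAlgNorm`, see
`TR1_val` in H16C/TR1.lean; nonarchimedean: `isNonarchimedean_spectralNorm`; extends the norm of `F`:
`spectralNorm_extends`).
Let `z ∈ F^alg`, `P = minpoly F z`, of degree `d ≥ 1`, monic.  Let `M = max(1, N z)`, and let `η > 0` be such that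
`η M^d < ε^d`.  Choose `c_i ∈ K` with `‖P_i - c_i‖ < η` for `i < d`, and let `P' = X^d + ∑_{i<d} c_i X^i ∈ K[X]`.
`N(P'(z)) = N(P'(z) - P(z)) ≤ max_i ‖c_i - P_i‖ N(z)^i ≤ η M^d < ε^d`.
`P'` splits over `Ω` (`IsAlgClosed.splits`): `P' = ∏ (X - x_j)`, `x_j ∈ Ω` (`d` factors), so
`P'(z) = ∏ (z - ι x_j)` and `∏ N(z - ι x_j) < ε^d`: some `N(z - ι x_j) < ε`.
-/

namespace H16F

open scoped NNReal
open Polynomial

section

variable {F : Type*} [NontriviallyNormedField F] [IsUltrametricDist F] [CompleteSpace F]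
  {L : Type*} [Field L] [Algebra F L] [Algebra.IsAlgebraic F L]

variable (F L) in
/-- the valuation of an algebraic extension of a complete field -/
noncomputable def e1_val : Valuation L ℝ≥0 where
  toFun x := ⟨spectralNorm F L x, spectralNorm_nonneg _⟩
  map_zero' := NNReal.eq spectralNorm_zero
  map_one' := NNReal.eq spectralNorm_one
  map_mul' x y := NNReal.eq (map_mul (spectralMulAlgNorm F L) x y)
  map_add_le_max' x y := by
    have h := isNonarchimedean_spectralNorm (K := F) (L := L) x y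
    rcases le_max_iff.1 h with h1 | h1
    · exact le_max_of_le_left h1
    · exact le_max_of_le_right h1

theorem e1_val_alg (a : F) : e1_val F L (algebraMap F L a) = ‖a‖₊ :=
  NNReal.eq (spectralNorm_extends a)

end

theorem e1_prod {L Ω : Type*} [Field L] [Field Ω] (V : Valuation L ℝ≥0) (ι : Ω →+* L) (z : L) (s : Multiset Ω)
    {e : ℝ≥0} (h : V ((s.map (fun x => z - ι x)).prod) < e ^ Multiset.card s) : ∃ x : Ω, V (z - ι x) < e := by
  by_contra hc
  push Not at hc
  have h1 : e ^ Multiset.card s ≤ ((s.map (fun x => z - ι x)).map V).prod := by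
    have h2 : Multiset.card s = Multiset.card ((s.map (fun x => z - ι x)).map V) := by
      rw [Multiset.card_map, Multiset.card_map]
    rw [h2]
    apply Multiset.pow_card_le_prod
    intro y hy
    rw [Multiset.map_map, Multiset.mem_map] at hy
    obtain ⟨x, -, rfl⟩ := hy
    exact hc x
  rw [← map_multiset_prod] at h1
  exact absurd h (not_lt.2 h1)

theorem dense_alg {K : Type*} [Field K] {F : Type*} [NontriviallyNormedField F]
    [IsUltrametricDist F] [CompleteSpace F] [Algebra K F]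
    (hd : ∀ (x : F) (ε : ℝ), 0 < ε → ∃ y : K, ‖x - algebraMap K F y‖ < ε)
    {Ω : Type*} [Field Ω] [Algebra K Ω] [IsAlgClosed Ω] (ι : Ω →ₐ[K] AlgebraicClosure F)
    (z : AlgebraicClosure F) {ε : ℝ} (hε : 0 < ε) :
    ∃ x : Ω, spectralNorm F (AlgebraicClosure F) (z - ι x) < ε := by
  have hεd : 0 < ε ^ (minpoly F z).natDegree := pow_pos hε _
  obtain ⟨M, hM⟩ : ∃ M : ℝ≥0, M = max 1 (e1_val F (AlgebraicClosure F) z) := ⟨_, rfl⟩
  obtain ⟨d, hd0⟩ : ∃ d, d = (minpoly F z).natDegree := ⟨_, rfl⟩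
  obtain ⟨e, he⟩ : ∃ e : ℝ≥0, e = ⟨ε, hε.le⟩ := ⟨_, rfl⟩
  have hepos : 0 < e := by
    rw [he]
    exact hε
  have hM1 : 1 ≤ M := by rw [hM]; exact le_max_left _ _
  have hMz : e1_val F (AlgebraicClosure F) z ≤ M := by rw [hM]; exact le_max_right _ _
  have hMpos : 0 < M ^ d := pow_pos (lt_of_lt_of_le one_pos hM1) d
  obtain ⟨η, hη⟩ : ∃ η : ℝ≥0, η = e ^ d / (2 * M ^ d) := ⟨_, rfl⟩
  have hηpos : 0 < η := by
    rw [hη]
    positivity
  have hηM : η * M ^ d < e ^ d := by
    have h1 : η * M ^ d = e ^ d / 2 := by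
      rw [hη]
      field_simp
    rw [h1]
    exact NNReal.half_lt_self (pow_pos hepos d).ne'
  choose c hc using fun i : ℕ => hd ((minpoly F z).coeff i) (η : ℝ) (by exact_mod_cast hηpos)
  obtain ⟨Q, hQ⟩ : ∃ Q : K[X], Q = X ^ d + ∑ i : Fin d, C (c i) * X ^ (i : ℕ) := ⟨_, rfl⟩
  have hdeg : (∑ i : Fin d, C (c i) * X ^ (i : ℕ) : K[X]).degree < (d : WithBot ℕ) :=
    degree_sum_fin_lt (fun i : Fin d => c i)
  have hQm : Q.Monic := by
    rw [hQ]
    exact monic_X_pow_add hdeg
  have hQd : Q.natDegree = d := by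
    rw [hQ, natDegree_add_eq_left_of_degree_lt (by rw [degree_X_pow]; exact hdeg), natDegree_X_pow]
  have hPm : (minpoly F z).Monic := minpoly.monic (Algebra.IsIntegral.isIntegral z)
  have hP0 : z ^ d + ∑ i : Fin d, algebraMap F (AlgebraicClosure F) ((minpoly F z).coeff i) * z ^ (i : ℕ) = 0 := by
    have h1 := minpoly.aeval F z
    rw [hPm.as_sum, ← hd0, Finset.sum_range] at h1
    rw [map_add, map_pow, aeval_X, map_sum] at h1
    rw [← h1]
    congr 1
    refine Finset.sum_congr rfl fun i _ => ?_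
    rw [map_mul, map_pow, aeval_X, aeval_C]
  have hQz : aeval z Q = ∑ i : Fin d, (algebraMap F (AlgebraicClosure F) (algebraMap K F (c i)) -
      algebraMap F (AlgebraicClosure F) ((minpoly F z).coeff i)) * z ^ (i : ℕ) := by
    have h1 : aeval z Q = z ^ d + ∑ i : Fin d, algebraMap F (AlgebraicClosure F) (algebraMap K F (c i)) * z ^ (i : ℕ) := by
      rw [hQ, map_add, map_pow, aeval_X, map_sum]
      congr 1
      refine Finset.sum_congr rfl fun i _ => ?_
      rw [map_mul, map_pow, aeval_X, aeval_C, IsScalarTower.algebraMap_apply K F (AlgebraicClosure F)]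
    rw [h1, ← sub_zero (z ^ d + _), ← hP0, add_sub_add_left_eq_sub, ← Finset.sum_sub_distrib]
    refine Finset.sum_congr rfl fun i _ => ?_
    rw [sub_mul]
  have hVQ : e1_val F (AlgebraicClosure F) (aeval z Q) < e ^ d := by
    rw [hQz]
    refine lt_of_le_of_lt (Valuation.map_sum_le _ (g := η * M ^ d) fun i _ => ?_) hηM
    rw [map_mul, map_pow, ← map_sub, e1_val_alg]
    refine mul_le_mul' ?_ ?_
    · have h2 := (hc i).le
      rw [← norm_neg, neg_sub] at h2
      exact h2
    · exact (pow_le_pow_left' hMz _).trans (pow_le_pow_right₀ hM1 i.2.le)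
  have hsplit : (Q.map (algebraMap K Ω)).Splits := IsAlgClosed.splits _
  have hQm' : (Q.map (algebraMap K Ω)).Monic := hQm.map _
  have hcard : Multiset.card (Q.map (algebraMap K Ω)).roots = d := by
    rw [← hsplit.natDegree_eq_card_roots, hQm.natDegree_map, hQd]
  have hfac : aeval z Q = ((Q.map (algebraMap K Ω)).roots.map (fun x => z - ι x)).prod := by
    have h1 : aeval z Q = ((Q.map (algebraMap K Ω)).map (ι : Ω →+* AlgebraicClosure F)).eval z := by
      rw [Polynomial.map_map, ι.comp_algebraMap, Polynomial.aeval_def, eval₂_eq_eval_map]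
    have h2 : ((Q.map (algebraMap K Ω)).map (ι : Ω →+* AlgebraicClosure F)) =
        (((Q.map (algebraMap K Ω)).roots.map (fun x => X - C x)).prod).map (ι : Ω →+* AlgebraicClosure F) :=
      congrArg _ (hsplit.eq_prod_roots_of_monic hQm')
    rw [h1, h2, Polynomial.map_multiset_prod, eval_multiset_prod, Multiset.map_map, Multiset.map_map]
    congr 1
    refine Multiset.map_congr rfl fun x _ => ?_
    simp
  rw [hfac, ← hcard] at hVQ
  obtain ⟨x, hx⟩ := e1_prod (e1_val F (AlgebraicClosure F)) (ι : Ω →+* AlgebraicClosure F) z _ hVQ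
  refine ⟨x, ?_⟩
  have h3 : ((e1_val F (AlgebraicClosure F) (z - ι x) : ℝ≥0) : ℝ) < (e : ℝ) := hx
  rw [he] at h3
  exact h3

end H16F
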