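import Mathlib
import Pool.Agent.Lib.H16F.E1

/-!
# E2 (S/M): an isometry of `Ω` respects the linear relations over `F`

`N = spectralNorm F F^alg`, `N(ι(g x)) = N(ι x)` for all `x ∈ Ω`.  Let `∑ a_i ι(x_i) = 0`, `a_i ∈ F`.
Let `M = max(1, N(ι x_i), ...)`.  Let `ε > 0`; choose `b_i ∈ K` with `‖a_i - b_i‖ < ε`.  Then
`N(∑ b_i ι(x_i)) = N(∑ (b_i - a_i) ι(x_i)) ≤ ε M`; `∑ b_i ι(x_i) = ι(∑ b_i x_i)` (`ι` is `K`-linear), so
`N(∑ b_i ι(g x_i)) = N(ι(g(∑ b_i x_i))) = N(ι(∑ b_i x_i)) ≤ ε M`, and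
`N(∑ a_i ι(g x_i)) ≤ max(N(∑ (a_i - b_i) ι(g x_i)), ε M) ≤ ε M` (`N(ι(g x_i)) = N(ι x_i) ≤ M`).
As `ε` is arbitrary, `N(∑ a_i ι(g x_i)) = 0`, so it is `0` (`eq_zero_of_map_spectralNorm_eq_zero`).
(`algebraMap F F^alg (algebraMap K F b) = ι (algebraMap K Ω b)`: both are `algebraMap K F^alg b`;
`isNonarchimedean_spectralNorm`, `IsNonarchimedean.finset_image_add` or `Valuation.map_sum_le` for
`TR1_val`, H16C/TR1.lean.)
-/

namespace H16F

open scoped NNReal

theorem e2_sum {L : Type*} [Field L] (V : Valuation L ℝ≥0) {n : ℕ} (c : Fin n → L) (y : Fin n → L) {e M : ℝ≥0}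
    (hc : ∀ i, V (c i) ≤ e) (hy : ∀ i, V (y i) ≤ M) : V (∑ i, c i * y i) ≤ e * M := by
  refine Valuation.map_sum_le _ fun i _ => ?_
  rw [map_mul]
  exact mul_le_mul' (hc i) (hy i)

theorem ker_le {K : Type*} [Field K] {F : Type*} [NontriviallyNormedField F]
    [IsUltrametricDist F] [CompleteSpace F] [Algebra K F]
    (hd : ∀ (x : F) (ε : ℝ), 0 < ε → ∃ y : K, ‖x - algebraMap K F y‖ < ε)
    {Ω : Type*} [Field Ω] [Algebra K Ω] (ι : Ω →ₐ[K] AlgebraicClosure F) (g : Ω ≃ₐ[K] Ω)
    (hg : ∀ x, spectralNorm F (AlgebraicClosure F) (ι (g x)) =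
      spectralNorm F (AlgebraicClosure F) (ι x))
    (n : ℕ) (a : Fin n → F) (x : Fin n → Ω)
    (h : ∑ i, algebraMap F (AlgebraicClosure F) (a i) * ι (x i) = 0) :
    ∑ i, algebraMap F (AlgebraicClosure F) (a i) * ι (g (x i)) = 0 := by
  obtain ⟨V, hV⟩ : ∃ V, V = e1_val F (AlgebraicClosure F) := ⟨_, rfl⟩
  have hg' : ∀ x, V (ι (g x)) = V (ι x) := by
    intro x
    rw [hV]
    exact NNReal.eq (hg x)
  obtain ⟨M, hM⟩ : ∃ M : ℝ≥0, M = 1 + ∑ i, V (ι (x i)) := ⟨_, rfl⟩
  have hMx : ∀ i, V (ι (x i)) ≤ M := by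
    intro i
    rw [hM]
    exact (Finset.single_le_sum (f := fun i => V (ι (x i))) (fun _ _ => zero_le) (Finset.mem_univ i)).trans
      le_add_self
  have hM1 : 1 ≤ M := by
    rw [hM]
    exact le_self_add
  have hMpos : 0 < M := lt_of_lt_of_le one_pos hM1
  have hMg : ∀ i, V (ι (g (x i))) ≤ M := fun i => by
    rw [hg']
    exact hMx i
  have key : ∀ e : ℝ≥0, 0 < e → V (∑ i, algebraMap F (AlgebraicClosure F) (a i) * ι (g (x i))) ≤ e * M := by
    intro e he
    choose b hb using fun i => hd (a i) (e : ℝ) (by exact_mod_cast he)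
    have hab : ∀ i, V (algebraMap F (AlgebraicClosure F) (a i) -
        algebraMap F (AlgebraicClosure F) (algebraMap K F (b i))) ≤ e := by
      intro i
      rw [← map_sub, hV, e1_val_alg]
      exact (hb i).le
    have hba : ∀ i, V (algebraMap F (AlgebraicClosure F) (algebraMap K F (b i)) -
        algebraMap F (AlgebraicClosure F) (a i)) ≤ e := by
      intro i
      rw [Valuation.map_sub_swap]
      exact hab i
    have hι : ∀ w : Fin n → Ω, ∑ i, algebraMap F (AlgebraicClosure F) (algebraMap K F (b i)) * ι (w i) =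
        ι (∑ i, algebraMap K Ω (b i) * w i) := by
      intro w
      rw [map_sum]
      refine Finset.sum_congr rfl fun i _ => ?_
      rw [map_mul, ι.commutes, IsScalarTower.algebraMap_apply K F (AlgebraicClosure F)]
    have h1 : V (∑ i, algebraMap F (AlgebraicClosure F) (algebraMap K F (b i)) * ι (x i)) ≤ e * M := by
      have e1 : ∑ i, algebraMap F (AlgebraicClosure F) (algebraMap K F (b i)) * ι (x i) =
          ∑ i, (algebraMap F (AlgebraicClosure F) (algebraMap K F (b i)) -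
            algebraMap F (AlgebraicClosure F) (a i)) * ι (x i) := by
        simp only [sub_mul]
        rw [Finset.sum_sub_distrib, h, sub_zero]
      rw [e1]
      exact e2_sum V _ _ hba hMx
    have h2 : V (∑ i, algebraMap F (AlgebraicClosure F) (algebraMap K F (b i)) * ι (g (x i))) ≤ e * M := by
      have e1 : ∑ i, algebraMap K Ω (b i) * g (x i) = g (∑ i, algebraMap K Ω (b i) * x i) := by
        rw [map_sum]
        refine Finset.sum_congr rfl fun i _ => ?_
        rw [map_mul, g.commutes]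
      rw [hι (fun i => g (x i)), e1, hg', ← hι x]
      exact h1
    have h3 : ∑ i, algebraMap F (AlgebraicClosure F) (a i) * ι (g (x i)) =
        ∑ i, (algebraMap F (AlgebraicClosure F) (a i) -
          algebraMap F (AlgebraicClosure F) (algebraMap K F (b i))) * ι (g (x i)) +
        ∑ i, algebraMap F (AlgebraicClosure F) (algebraMap K F (b i)) * ι (g (x i)) := by
      rw [← Finset.sum_add_distrib]
      refine Finset.sum_congr rfl fun i _ => ?_
      ring
    rw [h3]
    exact Valuation.map_add_le _ (e2_sum V _ _ hab hMg) h2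
  by_contra hne
  have hpos : 0 < V (∑ i, algebraMap F (AlgebraicClosure F) (a i) * ι (g (x i))) :=
    zero_lt_iff.2 ((Valuation.ne_zero_iff V).2 hne)
  generalize V (∑ i, algebraMap F (AlgebraicClosure F) (a i) * ι (g (x i))) = v at key hpos
  have h4 := key (v / (2 * M)) (by positivity)
  have h5 : v / (2 * M) * M = v / 2 := by field_simp
  rw [h5] at h4
  exact absurd (NNReal.half_lt_self hpos.ne') (not_lt.2 h4)

end H16F
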