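import Pool.Agent.Lib.H16F.E1

/-!
# E4 (S): the extension of an inert automorphism is inert

`N = spectralNorm F F^alg`.  Let `N z ≤ 1`; `dense_alg` gives `x ∈ Ω` with `N(z - ι x) < 1`, so `N(ι x) ≤ 1`.
`σ z - z = σ(z - ι x) + (ι(g x) - ι x) - (z - ι x)`; `N(σ(z - ι x)) = N(z - ι x) < 1`
(`spectralNorm_eq_of_equiv`), `N(ι(g x - x)) < 1`, `N(z - ι x) < 1`
(`isNonarchimedean_spectralNorm`).
-/

namespace H16F

theorem inert_ext {K : Type*} [Field K] {F : Type*} [NontriviallyNormedField F]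
    [IsUltrametricDist F] [CompleteSpace F] [Algebra K F]
    (hd : ∀ (x : F) (ε : ℝ), 0 < ε → ∃ y : K, ‖x - algebraMap K F y‖ < ε)
    {Ω : Type*} [Field Ω] [Algebra K Ω] [IsAlgClosed Ω] (ι : Ω →ₐ[K] AlgebraicClosure F)
    (g : Ω ≃ₐ[K] Ω)
    (hin : ∀ x, spectralNorm F (AlgebraicClosure F) (ι x) ≤ 1 →
      spectralNorm F (AlgebraicClosure F) (ι (g x - x)) < 1)
    (σ : AlgebraicClosure F ≃ₐ[F] AlgebraicClosure F) (hσ : ∀ x, ι (g x) = σ (ι x))
    (z : AlgebraicClosure F) (hz : spectralNorm F (AlgebraicClosure F) z ≤ 1) :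
    spectralNorm F (AlgebraicClosure F) (σ z - z) < 1 := by
  have hn := isNonarchimedean_spectralNorm (K := F) (L := AlgebraicClosure F)
  obtain ⟨x, hx⟩ := dense_alg hd ι z (ε := 1) one_pos
  have hneg : ∀ y : AlgebraicClosure F, spectralNorm F (AlgebraicClosure F) (-y) =
      spectralNorm F (AlgebraicClosure F) y := fun y =>
    spectralNorm_neg (Algebra.IsAlgebraic.isAlgebraic y)
  have h1 : spectralNorm F (AlgebraicClosure F) (ι x) ≤ 1 := by
    have h2 := hn z (-(z - ι x))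
    rw [hneg, show z + -(z - ι x) = ι x by ring] at h2
    exact h2.trans (max_le hz hx.le)
  have h2 := hin x h1
  have h3 : spectralNorm F (AlgebraicClosure F) (σ (z - ι x)) < 1 := by
    rw [← spectralNorm_eq_of_equiv σ]
    exact hx
  have h4 : σ z - z = σ (z - ι x) + (ι (g x - x) + -(z - ι x)) := by
    rw [map_sub, map_sub, hσ]
    ring
  rw [h4]
  refine (hn _ _).trans_lt (max_lt h3 ((hn _ _).trans_lt (max_lt h2 ?_)))
  rw [hneg]
  exact hx

end H16F
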