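import Pool.Agent.Lib.H16C.R1

/-!
# E5 (S/M): points and inert automorphisms, general valuation

`s` is an injective ring endomorphism of `F` with `v (s x - x) < 1` for `v x ≤ 1`; `P'` is the image of `P`
under `s` (on coordinates).  Claim: `P' - P ∈ E₁(v)`.
* `P = 0`: `P' = 0`, `InE1 v 0`.
* `P ≠ 0`, `v (xc P) ≤ 1`: `v (yc P) ≤ 1` (`R1_y`), so `v (xc P' - xc P) < 1`, `v (yc P' - yc P) < 1`, and
  `v (xc P') ≤ 1`; `congr_mem`.
* `P ≠ 0`, `v (xc P) > 1`: let `x = xc P`, `v (x⁻¹) < 1`, so `v (s (x⁻¹)) < 1`, `v (s x) > 1`: `P` and `P'` are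
  in `E₁(v)` (`R1_inE1`), `e1_sub`.
(This is the argument of `rho_sub_mem`, H16C/SE3.lean.)
-/

open WeierstrassCurve

namespace H16F

open H16C

theorem pt_inert {F : Type*} [Field F] [DecidableEq F] [CharZero F] {W : WeierstrassCurve.Affine F}
    [W.IsShortNF] {Γ : Type*} [LinearOrderedCommGroupWithZero Γ] {v : Valuation F Γ}
    (h4 : v W.a₄ ≤ 1) (h6 : v W.a₆ ≤ 1) (hΔ : v W.Δ = 1) (s : F →+* F)
    (hs : ∀ x, v x ≤ 1 → v (s x - x) < 1) {P P' : W.Point} (h0 : P = 0 ↔ P' = 0)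
    (hx : xc P' = s (xc P)) (hy : yc P' = s (yc P)) : InE1 v (P' - P) := by
  by_cases hP0 : P = 0
  · rw [h0.1 hP0, hP0, sub_zero]
    trivial
  have hP0' : P' ≠ 0 := fun h => hP0 (h0.2 h)
  rcases le_or_gt (v (xc P)) 1 with h1 | h1
  · have hy1 := R1_y h4 h6 hP0 h1
    have h2 := hs _ h1
    have h3 := hs _ hy1
    rw [← hx] at h2
    rw [← hy] at h3
    refine congr_mem h4 h6 hΔ hP0' hP0 ?_ h1 h2 h3
    have h5 : xc P' = (xc P' - xc P) + xc P := by ring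
    rw [h5]
    exact v.map_add_le h2.le h1
  · have hx0 : xc P ≠ 0 := by
      intro h0
      rw [h0, map_zero] at h1
      exact absurd h1 (not_lt.mpr zero_le)
    have hz : v (xc P)⁻¹ < 1 := by
      rw [map_inv₀]
      exact inv_lt_one_of_one_lt₀ h1
    have h2 := hs _ hz.le
    have h3 : v (s (xc P)⁻¹) < 1 := by
      have h5 : s (xc P)⁻¹ = (s (xc P)⁻¹ - (xc P)⁻¹) + (xc P)⁻¹ := by ring
      rw [h5]
      exact v.map_add_lt h2 hz
    have h4' : 1 < v (xc P') := by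
      rw [map_inv₀, map_inv₀] at h3
      rw [hx]
      have h6 : v (s (xc P)) ≠ 0 := by
        rw [Ne, map_eq_zero, map_eq_zero]
        exact hx0
      exact (inv_lt_one₀ (zero_lt_iff.mpr h6)).mp h3
    exact e1_sub h4 h6 (R1_inE1.mpr (Or.inr h4')) (R1_inE1.mpr (Or.inr h1))

end H16F
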