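import Mathlib

/-!
# E6 (M): an inert automorphism is an isometry

`N = spectralNorm F F^alg`.  Hypothesis: `N(ι(g x - x)) < 1` for all `x` with `N(ι x) ≤ 1`.
(a) If `N(ι u) = 1` then `N(ι(g u)) = 1`: `ι(g u) = ι u + ι(g u - u)`, `N(ι(g u - u)) < 1 = N(ι u)`.
(b) For every `x ∈ Ω`, `x ≠ 0`, there are `e ≥ 1` and `y ∈ K`, `y ≠ 0`, with `N(ι x)^e = ‖y‖`: let
`P = minpoly F (ι x)`, `e = deg P`; `N(ι x)^e = ‖P(0)‖` (`spectralNorm_eq_norm_coeff_zero_rpow`, or
`spectralNorm_pow_natDegree_eq_...`), `P(0) ≠ 0`; by density there is `y ∈ K` with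
`‖P(0) - y‖ < ‖P(0)‖`, so `‖y‖ = ‖P(0)‖`.
(c) `u = x^e / y ∈ Ω` (`y` mapped to `Ω`): `N(ι u) = 1`, so `1 = N(ι(g u)) = N(ι(g x))^e / ‖y‖`, hence
`N(ι(g x))^e = N(ι x)^e` and `N(ι(g x)) = N(ι x)`.
(`N` is multiplicative: `spectralMulAlgNorm`, `TR1_val` in H16C/TR1.lean; `spectralNorm_extends`.)
-/

namespace H16F

theorem e6_add {F L : Type*} [NontriviallyNormedField F] [IsUltrametricDist F] [Field L]
    [Algebra F L] [Algebra.IsAlgebraic F L] {x y : L}
    (h : spectralNorm F L y < spectralNorm F L x) :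
    spectralNorm F L (x + y) = spectralNorm F L x := by
  have hn := isNonarchimedean_spectralNorm (K := F) (L := L)
  apply le_antisymm
  · exact (hn x y).trans (max_le le_rfl h.le)
  · have h1 := hn (x + y) (-y)
    rw [add_neg_cancel_right, spectralNorm_neg (Algebra.IsAlgebraic.isAlgebraic y)] at h1
    rcases le_max_iff.1 h1 with h2 | h2
    · exact h2
    · exact absurd h2 (not_le.2 h)

theorem norm_eq {K : Type*} [Field K] {F : Type*} [NontriviallyNormedField F]
    [IsUltrametricDist F] [CompleteSpace F] [Algebra K F]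
    (hd : ∀ (x : F) (ε : ℝ), 0 < ε → ∃ y : K, ‖x - algebraMap K F y‖ < ε)
    {Ω : Type*} [Field Ω] [Algebra K Ω] (ι : Ω →ₐ[K] AlgebraicClosure F) (g : Ω ≃ₐ[K] Ω)
    (hin : ∀ x, spectralNorm F (AlgebraicClosure F) (ι x) ≤ 1 →
      spectralNorm F (AlgebraicClosure F) (ι (g x - x)) < 1) (x : Ω) :
    spectralNorm F (AlgebraicClosure F) (ι (g x)) = spectralNorm F (AlgebraicClosure F) (ι x) := by
  have hmul : ∀ a b : AlgebraicClosure F, spectralNorm F (AlgebraicClosure F) (a * b) =
      spectralNorm F (AlgebraicClosure F) a * spectralNorm F (AlgebraicClosure F) b := fun a b =>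
    map_mul (spectralMulAlgNorm F (AlgebraicClosure F)) a b
  have hpow : ∀ (a : AlgebraicClosure F) (n : ℕ), spectralNorm F (AlgebraicClosure F) (a ^ n) =
      spectralNorm F (AlgebraicClosure F) a ^ n := fun a n =>
    map_pow (spectralMulAlgNorm F (AlgebraicClosure F)) a n
  -- units
  have ha : ∀ u : Ω, spectralNorm F (AlgebraicClosure F) (ι u) = 1 →
      spectralNorm F (AlgebraicClosure F) (ι (g u)) = 1 := by
    intro u hu
    have h1 := hin u hu.le
    rw [← hu] at h1
    have h2 := e6_add h1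
    rw [← map_add, add_sub_cancel] at h2
    rw [h2, hu]
  by_cases hx : x = 0
  · rw [hx, map_zero, map_zero]
  have hιx : ι x ≠ 0 := by
    intro h
    exact hx (ι.toRingHom.injective (by simpa using h))
  have hint : IsIntegral F (ι x) := Algebra.IsIntegral.isIntegral _
  set P := minpoly F (ι x) with hP
  have he : P.natDegree ≠ 0 := (minpoly.natDegree_pos hint).ne'
  have hP0 : P.coeff 0 ≠ 0 := minpoly.coeff_zero_ne_zero hint hιx
  have h1 : spectralNorm F (AlgebraicClosure F) (ι x) ^ P.natDegree = ‖P.coeff 0‖ := by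
    rw [spectralNorm.spectralNorm_eq_norm_coeff_zero_rpow, ← hP, one_div,
      Real.rpow_inv_natCast_pow (norm_nonneg _) he]
  obtain ⟨y, hy⟩ := hd (P.coeff 0) ‖P.coeff 0‖ (norm_pos_iff.2 hP0)
  have hy1 : ‖algebraMap K F y‖ = ‖P.coeff 0‖ := by
    have h2 : ‖P.coeff 0‖ ≠ ‖-(P.coeff 0 - algebraMap K F y)‖ := by
      rw [norm_neg]
      exact hy.ne'
    have h3 := IsUltrametricDist.norm_add_eq_max_of_norm_ne_norm h2
    rw [norm_neg, max_eq_left hy.le] at h3
    rw [← h3]
    congr 1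
    ring
  have hy0 : ‖algebraMap K F y‖ ≠ 0 := by
    rw [hy1]
    exact (norm_pos_iff.2 hP0).ne'
  have hy2 : algebraMap K Ω y ≠ 0 := by
    intro h
    apply hy0
    have : y = 0 := (algebraMap K Ω).injective (by simpa using h)
    rw [this, map_zero, norm_zero]
  have hιy : spectralNorm F (AlgebraicClosure F) (ι (algebraMap K Ω y)) = ‖algebraMap K F y‖ := by
    rw [AlgHom.commutes, IsScalarTower.algebraMap_apply K F (AlgebraicClosure F),
      spectralNorm_extends]
  -- the unit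
  have hu : ∀ z : Ω, spectralNorm F (AlgebraicClosure F) (ι (z ^ P.natDegree / algebraMap K Ω y)) *
      ‖algebraMap K F y‖ = spectralNorm F (AlgebraicClosure F) (ι z) ^ P.natDegree := by
    intro z
    rw [← hιy, ← hmul, ← map_mul, div_mul_cancel₀ _ hy2, map_pow, hpow]
  have h3 := ha (x ^ P.natDegree / algebraMap K Ω y) (by
    have h4 := hu x
    rw [h1, ← hy1] at h4
    exact mul_right_cancel₀ hy0 (h4.trans (one_mul _).symm))
  rw [map_div₀, map_pow, AlgEquiv.commutes] at h3
  have h5 := hu (g x)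
  rw [h3, one_mul, hy1, ← h1] at h5
  exact ((pow_left_inj₀ (spectralNorm_nonneg _) (spectralNorm_nonneg _) he).1 h5).symm

end H16F
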