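import Pool.Agent.Lib.H16F.E3
import Pool.Agent.Lib.H16F.E4
import Pool.Agent.Lib.H16F.E5
import Pool.Agent.Lib.H16F.E6
import Pool.Agent.Lib.H16C.TR1
import Pool.Agent.Lib.H16C.Stm
import Pool.Agent.Lib.H16C.T3

/-!
# E7b (M): a locally trivial torsion cocycle vanishes at the inert elements, abstract complete field

`N = spectralNorm F F^alg`, `V = TR1_val F F^alg : Valuation F^alg ℝ≥0` (H16C/TR1.lean), `(V x : ℝ) = N x`.
`g` inert: `norm_eq`, `exists_ext` give `σ ∈ Gal(F^alg/F)` with `ι ∘ g = σ ∘ ι`; `inert_ext`: `σ` is inert.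
`LocTriv` for `ι` gives `Q` with `Point.map ι (c g) = act W F^alg (σ.restrictScalars K) Q - Q`.
`pt_inert` (the curve `baseChange W F^alg`, `v = V`, `s = σ`, `P = Q`, `P'` = its image): the right side is in
`E₁(V)`.  `q •` (it) `= Point.map ι (q • c g) = 0`, so it is `0` by `tors_inj` (`V q = 1`).
`Point.map ι` is injective (`WeierstrassCurve.Affine.Point.map_injective`), so `c g = 0`.
(Short normal form and ellipticity of the base changes: instances `short_baseChange`,
`elliptic_baseChange` in H16C/Defs; `(baseChange W F^alg).a₄ = algebraMap K F^alg W.a₄`,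
`W.Δ` similarly (`WeierstrassCurve.map_Δ`); `CharZero F^alg` from `CharZero F`.)
-/

open NumberField IsDedekindDomain WeierstrassCurve

namespace H16F

open H16C

open Classical in
theorem loc_abs {K : Type*} [Field K] {F : Type*} [NontriviallyNormedField F]
    [IsUltrametricDist F] [CompleteSpace F] [CharZero F] [Algebra K F]
    (hd : ∀ (x : F) (ε : ℝ), 0 < ε → ∃ y : K, ‖x - algebraMap K F y‖ < ε)
    {Ω : Type*} [Field Ω] [Algebra K Ω] [IsAlgClosed Ω] (ι : Ω →ₐ[K] AlgebraicClosure F)
    (W : WeierstrassCurve.Affine K) [W.IsShortNF] [W.IsElliptic] (q : ℕ)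
    (c : (Ω ≃ₐ[K] Ω) → (WeierstrassCurve.Affine.baseChange W Ω).Point) (hq : ∀ g, q • c g = 0)
    (h1 : spectralNorm F (AlgebraicClosure F) (q : AlgebraicClosure F) = 1)
    (h4 : spectralNorm F (AlgebraicClosure F) (algebraMap K _ W.a₄) ≤ 1)
    (h6 : spectralNorm F (AlgebraicClosure F) (algebraMap K _ W.a₆) ≤ 1)
    (hΔ : spectralNorm F (AlgebraicClosure F) (algebraMap K _ W.Δ) = 1)
    (hloc : LocTriv W Ω F c) (g : Ω ≃ₐ[K] Ω)
    (hin : ∀ x, spectralNorm F (AlgebraicClosure F) (ι x) ≤ 1 →
      spectralNorm F (AlgebraicClosure F) (ι (g x - x)) < 1) : c g = 0 := by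
  have hcz : CharZero (AlgebraicClosure F) :=
    charZero_of_injective_algebraMap (algebraMap F (AlgebraicClosure F)).injective
  obtain ⟨σ, hσ⟩ := exists_ext hd ι g (norm_eq hd ι g hin)
  have hσin := inert_ext hd ι g hin σ hσ
  obtain ⟨Q, hQ⟩ := hloc ι
  have h2 := hQ σ g hσ
  have hle : ∀ x, TR1_val F (AlgebraicClosure F) x ≤ 1 ↔
      spectralNorm F (AlgebraicClosure F) x ≤ 1 := fun x => Iff.rfl
  have hlt : ∀ x, TR1_val F (AlgebraicClosure F) x < 1 ↔
      spectralNorm F (AlgebraicClosure F) x < 1 := fun x => Iff.rfl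
  have h4' : TR1_val F (AlgebraicClosure F)
      (WeierstrassCurve.Affine.baseChange W (AlgebraicClosure F)).a₄ ≤ 1 := (hle _).2 h4
  have h6' : TR1_val F (AlgebraicClosure F)
      (WeierstrassCurve.Affine.baseChange W (AlgebraicClosure F)).a₆ ≤ 1 := (hle _).2 h6
  have hΔ' : TR1_val F (AlgebraicClosure F)
      (WeierstrassCurve.Affine.baseChange W (AlgebraicClosure F)).Δ = 1 := by
    change TR1_val F (AlgebraicClosure F)
      (WeierstrassCurve.map W (algebraMap K (AlgebraicClosure F))).Δ = 1
    rw [WeierstrassCurve.map_Δ]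
    exact NNReal.eq hΔ
  have h3 : InE1 (TR1_val F (AlgebraicClosure F))
      (act W (AlgebraicClosure F) (σ.restrictScalars K) Q - Q) := by
    refine pt_inert (W := WeierstrassCurve.Affine.baseChange W (AlgebraicClosure F)) h4' h6' hΔ'
      (σ : AlgebraicClosure F →+* AlgebraicClosure F) (fun x hx => ?_) ?_ ?_ ?_
    · exact (hlt _).2 (hσin x ((hle _).1 hx))
    · cases Q with
      | zero => exact ⟨fun _ => rfl, fun _ => rfl⟩
      | some x y h =>
        exact ⟨fun h => absurd h (WeierstrassCurve.Affine.Point.some_ne_zero _),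
          fun h => absurd h (WeierstrassCurve.Affine.Point.some_ne_zero _)⟩
    · cases Q with
      | zero => exact (map_zero σ).symm
      | some x y h => rfl
    · cases Q with
      | zero => exact (map_zero σ).symm
      | some x y h => rfl
  have h5 : q • (act W (AlgebraicClosure F) (σ.restrictScalars K) Q - Q) = 0 := by
    rw [← h2, ← map_nsmul, hq, map_zero]
  have h6 := tors_inj (W := WeierstrassCurve.Affine.baseChange W (AlgebraicClosure F)) h4' h6' q
    (NNReal.eq h1) h5 h3
  rw [h6] at h2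
  exact WeierstrassCurve.Affine.Point.map_injective ι (h2.trans (map_zero _).symm)

end H16F
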