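import Pool.Agent.Lib.H16F.E7a
import Pool.Agent.Lib.H16F.E7b

/-!
# E7 (M): a locally trivial torsion cocycle vanishes at the inert elements of one place above `v`

`F = K_v = v.adicCompletion K`, with the instances of the proof of `place_fin` (H16C/TR1.lean):
`letI := Valued.toNontriviallyNormedField ..`, `haveI : IsUltrametricDist`, complete.  `dense_adic`.
Choose a `K`-embedding `ι : Ω → K_v^alg` (`IsAlgClosed.lift`).  `V = TR1_val K_v K_v^alg`;
`A = (V.comap ι).valuationSubring`: `A.valuation x ≤ 1 ↔ N(ι x) ≤ 1`, `A.valuation x < 1 ↔ N(ι x) < 1`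
(`Valuation.isEquiv_valuation_valuationSubring`, see `TR1_gen`).  First claim: for `z ∈ 𝓞 K`,
`N(ι z) = ‖z‖_v < 1 ↔ z ∈ v` (`spectralNorm_extends`; as in the proof of `place_fin`:
`v.valuation_lt_one_iff_mem`, `v.valuedAdicCompletion_eq_valuation`, `Valued.toNormedField.norm_lt_one_iff`).
Second claim: `loc_abs`, with `A.valuation x ≤ 1 ↔ N(ι x) ≤ 1` etc.
-/

open NumberField IsDedekindDomain WeierstrassCurve
open scoped WithZero

namespace H16F

open H16C

open Classical in
theorem loc_inert {K : Type*} [Field K] [NumberField K] {Ω : Type*} [Field Ω] [Algebra K Ω]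
    [IsAlgClosed Ω] [Algebra.IsAlgebraic K Ω] (W : WeierstrassCurve.Affine K) [W.IsShortNF]
    [W.IsElliptic] (v : HeightOneSpectrum (𝓞 K)) :
    ∃ A : ValuationSubring Ω,
      (∀ z : 𝓞 K, z ∈ v.asIdeal ↔ A.valuation (algebraMap K Ω z) < 1) ∧
      ∀ (q : ℕ) (c : (Ω ≃ₐ[K] Ω) → (WeierstrassCurve.Affine.baseChange W Ω).Point),
        (∀ g, q • c g = 0) → A.valuation (q : Ω) = 1 →
        A.valuation (algebraMap K Ω W.a₄) ≤ 1 → A.valuation (algebraMap K Ω W.a₆) ≤ 1 →
        A.valuation (algebraMap K Ω W.Δ) = 1 → LocTriv W Ω (v.adicCompletion K) c →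
        ∀ g : Ω ≃ₐ[K] Ω, (∀ x, A.valuation x ≤ 1 → A.valuation (g x - x) < 1) → c g = 0 := by
  letI : NontriviallyNormedField (v.adicCompletion K) :=
    Valued.toNontriviallyNormedField (v.adicCompletion K) ℤᵐ⁰
  haveI : IsUltrametricDist (v.adicCompletion K) :=
    Valued.instIsUltrametricDist (v.adicCompletion K) ℤᵐ⁰
  haveI : CharZero (v.adicCompletion K) :=
    charZero_of_injective_algebraMap (algebraMap K (v.adicCompletion K)).injective
  let ι : Ω →ₐ[K] AlgebraicClosure (v.adicCompletion K) := IsAlgClosed.lift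
  have h := Valuation.isEquiv_valuation_valuationSubring
    ((TR1_val (v.adicCompletion K) (AlgebraicClosure (v.adicCompletion K))).comap ι.toRingHom)
  set A := ((TR1_val (v.adicCompletion K)
    (AlgebraicClosure (v.adicCompletion K))).comap ι.toRingHom).valuationSubring with hA
  have hlt : ∀ x : Ω, A.valuation x < 1 ↔
      spectralNorm (v.adicCompletion K) (AlgebraicClosure (v.adicCompletion K)) (ι x) < 1 := by
    intro x
    exact (Valuation.isEquiv_iff_val_lt_one.1 h).symm
  have hle : ∀ x : Ω, A.valuation x ≤ 1 ↔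
      spectralNorm (v.adicCompletion K) (AlgebraicClosure (v.adicCompletion K)) (ι x) ≤ 1 := by
    intro x
    exact (Valuation.isEquiv_iff_val_le_one.1 h).symm
  have heq : ∀ x : Ω, A.valuation x = 1 ↔
      spectralNorm (v.adicCompletion K) (AlgebraicClosure (v.adicCompletion K)) (ι x) = 1 := by
    intro x
    constructor
    · intro hx
      refine le_antisymm ((hle x).1 hx.le) (not_lt.1 fun h' => ?_)
      exact absurd hx ((hlt x).2 h').ne
    · intro hx
      refine le_antisymm ((hle x).2 hx.le) (not_lt.1 fun h' => ?_)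
      exact absurd hx ((hlt x).1 h').ne
  refine ⟨A, ?_, ?_⟩
  · intro z
    rw [hlt, ι.commutes]
    have h1 : algebraMap K (AlgebraicClosure (v.adicCompletion K)) (z : K) =
        algebraMap (v.adicCompletion K) (AlgebraicClosure (v.adicCompletion K))
          (algebraMap K (v.adicCompletion K) (z : K)) :=
      IsScalarTower.algebraMap_apply _ _ _ _
    rw [h1, spectralNorm_extends, Valued.toNormedField.norm_lt_one_iff]
    rw [← v.valuation_lt_one_iff_mem (K := K) z, ← v.valuedAdicCompletion_eq_valuation (K := K) z]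
    rfl
  · intro q c hq hq1 h4 h6 hΔ hloc g hg
    refine loc_abs (dense_adic v) ι W q c hq ?_ ?_ ?_ ?_ hloc g ?_
    · rw [heq, map_natCast] at hq1
      exact hq1
    · rw [hle, ι.commutes] at h4
      exact h4
    · rw [hle, ι.commutes] at h6
      exact h6
    · rw [heq, ι.commutes] at hΔ
      exact hΔ
    · intro x hx
      exact (hlt _).1 (hg x ((hle x).2 hx))

end H16F
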