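import Pool.Agent.Lib.H16C.FR1
import Pool.Agent.Lib.H16F.K3

/-!
# E8 (M): the places above a prime are conjugate

`K` a number field, `Ω` an algebraic closure of `K`, `A`, `A'` two places of `Ω` above the same prime `v` of `K`.
`cpt` (base field `K`, `F₁ = ⊥`) with `P F g = (∀ x ∈ F, A'.valuation (g x) ≤ 1 ↔ A.valuation x ≤ 1)`.  The conclusion
for all finite `F` gives it for all `x` (`F = K⟮x⟯`).  `hres`, `hmono` are clear.
`hne`: by `hmono` we may replace `F` by its normal closure: `F/K` finite Galois.  `𝔭 = plc F A`,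
`𝔭' = plc F A'` (H16C/FR1.lean, with `k := K`) are primes of `𝓞 F` above `v` (their contractions to `𝓞 K` are
`v.asIdeal`, by `mem_plc` and `hA`, `hA'`), so there is `s ∈ Gal(F/K)` with `s • 𝔭 = 𝔭'`
(`Algebra.IsInvariant.exists_smul_of_under_eq`, or `Ideal.exists_smul_eq_of_isGaloisGroup` and similar; see
how `FR_smul_plc`, `FR_lift`, `RM.lean` use Galois groups).  Lift `s` to `g ∈ Gal(Ω/K)`.
For `z ∈ 𝓞 F`: `A.valuation z < 1 ↔ z ∈ 𝔭 ↔ s • z ∈ 𝔭' ↔ A'.valuation (g z) < 1`; and `≤ 1` for all `z ∈ 𝓞 F`.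
For `x ∈ F` with `A.valuation x ≤ 1`: `frac_rep` (or `frac_rep_int`, H16C/FR1.lean; needs the residue
characteristic `p` of `v`): `x = a/c` with `a, c ∈ 𝓞 F`, `A.valuation c = 1`, so `A'.valuation (g c) = 1` and
`A'.valuation (g x) ≤ 1`.  Conversely with `g⁻¹` (symmetric).
-/

open NumberField IsDedekindDomain

namespace H16F

open H16C

open scoped Pointwise

theorem e8_half {K : Type*} [Field K] [NumberField K] {Ω : Type*} [Field Ω] [Algebra K Ω]
    (F : IntermediateField K Ω) [FiniteDimensional K F] (A A' : ValuationSubring Ω) (q : ℕ)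
    (hq : q.Prime) (hA : A.valuation (q : Ω) < 1) (g : Ω ≃ₐ[K] Ω)
    (h : ∀ z : 𝓞 F, z ∉ plc F A → A'.valuation (g ((z : F) : Ω)) = 1) (x : Ω) (hx : x ∈ F)
    (hvx : A.valuation x ≤ 1) : A'.valuation (g x) ≤ 1 := by
  obtain ⟨a, c, hc, hac⟩ := frac_rep_int F A q hq hA (x := ⟨x, hx⟩) hvx
  have h1 : x * ((c : F) : Ω) = ((a : F) : Ω) := by
    have := congrArg (fun z : F => (z : Ω)) hac
    simpa using this
  have h2 : A'.valuation (g x) * A'.valuation (g ((c : F) : Ω)) = A'.valuation (g ((a : F) : Ω)) := by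
    rw [← map_mul, ← map_mul, h1]
  rw [h c hc, mul_one] at h2
  rw [h2]
  exact FR_le_one A' (map_isIntegral_int g (FR_isIntegral F a))

theorem e8_prime {K : Type*} [Field K] [NumberField K] (v : HeightOneSpectrum (𝓞 K)) :
    ∃ q : ℕ, q.Prime ∧ (q : 𝓞 K) ∈ v.asIdeal := by
  have hN : Ideal.absNorm v.asIdeal ≠ 0 := by
    rw [Ne, Ideal.absNorm_eq_zero_iff]
    exact v.ne_bot
  have hmem : ((Ideal.absNorm v.asIdeal : ℕ) : 𝓞 K) ∈ v.asIdeal := Ideal.absNorm_mem _
  have key : ∀ m : ℕ, m ≠ 0 → (m : 𝓞 K) ∈ v.asIdeal → ∃ q : ℕ, q.Prime ∧ (q : 𝓞 K) ∈ v.asIdeal := by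
    intro m
    induction m using Nat.recOnMul with
    | zero => intro h; exact absurd rfl h
    | one =>
      intro _ h
      exact absurd ((Ideal.eq_top_iff_one _).2 (by simpa using h)) v.isPrime.ne_top
    | prime p hp => intro _ h; exact ⟨p, hp, h⟩
    | mul a b iha ihb =>
      intro hab h
      rw [Nat.cast_mul] at h
      rcases v.isPrime.mem_or_mem h with h1 | h1
      · exact iha (fun h0 => hab (by rw [h0, zero_mul])) h1
      · exact ihb (fun h0 => hab (by rw [h0, mul_zero])) h1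
  exact key _ hN hmem

theorem conj_place {K : Type*} [Field K] [NumberField K] {Ω : Type*} [Field Ω] [Algebra K Ω]
    [IsAlgClosed Ω] [Algebra.IsAlgebraic K Ω] (v : HeightOneSpectrum (𝓞 K))
    (A A' : ValuationSubring Ω)
    (hA : ∀ z : 𝓞 K, z ∈ v.asIdeal ↔ A.valuation (algebraMap K Ω z) < 1)
    (hA' : ∀ z : 𝓞 K, z ∈ v.asIdeal ↔ A'.valuation (algebraMap K Ω z) < 1) :
    ∃ τ : Ω ≃ₐ[K] Ω, ∀ x, A'.valuation (τ x) ≤ 1 ↔ A.valuation x ≤ 1 := by
  have hcl : IsAlgClosure K Ω := ⟨inferInstance, inferInstance⟩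
  have hno : Normal K Ω := IsAlgClosure.normal K Ω
  have hgal : IsGalois K Ω := { }
  obtain ⟨q, hq, hqv⟩ := e8_prime v
  have hqA : A.valuation (q : Ω) < 1 := by
    have := (hA (q : 𝓞 K)).1 hqv
    simpa using this
  have hqA' : A'.valuation (q : Ω) < 1 := by
    have := (hA' (q : 𝓞 K)).1 hqv
    simpa using this
  obtain ⟨g, hg⟩ := cpt (k := K) (Ω := Ω) ⊥
    (fun F g => ∀ x ∈ F, A'.valuation (g x) ≤ 1 ↔ A.valuation x ≤ 1)
    (by
      intro F _ _ g g' hgg hP x hx
      rw [← hgg x hx]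
      exact hP x hx)
    (by
      intro F F' hFF g hP x hx
      exact hP x (hFF hx))
    (by
      intro F₀ _ hfin₀
      obtain ⟨F, hFd⟩ : ∃ F : IntermediateField K Ω, F = IntermediateField.normalClosure K F₀ Ω :=
        ⟨_, rfl⟩
      have hle : F₀ ≤ F := by
        rw [hFd]
        exact IntermediateField.le_normalClosure F₀
      have hFfin : FiniteDimensional K F := by
        rw [hFd]
        infer_instance
      have hFn : Normal K F := by
        rw [hFd]
        infer_instance
      have hFgal : IsGalois K F := { }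
      have hnf : NumberField F := FR_numberField F
      have hu : ∀ B : ValuationSubring Ω,
          (∀ z : 𝓞 K, z ∈ v.asIdeal ↔ B.valuation (algebraMap K Ω z) < 1) →
          (plc F B).under (𝓞 K) = v.asIdeal := by
        intro B hB
        ext z
        rw [Ideal.mem_comap, mem_plc, hB]
        rfl
      obtain ⟨s, hs⟩ := Algebra.IsInvariant.exists_smul_of_under_eq (𝓞 K) (𝓞 F) Gal(F/K)
        (plc F A) (plc F A') (by rw [hu A hA, hu A' hA'])
      obtain ⟨g, hgd⟩ : ∃ g : Ω ≃ₐ[K] Ω, g = s.liftNormal Ω := ⟨_, rfl⟩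
      have hgs : ∀ x : F, g (x : Ω) = ((s x : F) : Ω) := by
        intro x
        rw [hgd]
        exact s.liftNormal_commutes Ω x
      have hgs' : ∀ x : F, g.symm (x : Ω) = ((s⁻¹ x : F) : Ω) := by
        intro x
        rw [AlgEquiv.symm_apply_eq, hgs]
        have : s (s⁻¹ x) = x := s.apply_symm_apply x
        rw [this]
      have hint : ∀ z : 𝓞 F, (((s • z : 𝓞 F) : F) : Ω) = g ((z : F) : Ω) := by
        intro z
        rw [hgs]
        rfl
      have hint' : ∀ z : 𝓞 F, (((s⁻¹ • z : 𝓞 F) : F) : Ω) = g.symm ((z : F) : Ω) := by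
        intro z
        rw [hgs']
        rfl
      refine ⟨g, fun x hx => ?_⟩
      have hxF := hle hx
      constructor
      · intro hv
        have h1 := e8_half F A' A q hq hqA' g.symm (fun z hz => by
          rw [← hint', ← not_mem_plc]
          intro hz2
          apply hz
          rw [hs, Ideal.mem_pointwise_smul_iff_inv_smul_mem]
          exact hz2) (g x) (by
            rw [hgs ⟨x, hxF⟩]
            exact (s ⟨x, hxF⟩).2) hv
        rwa [AlgEquiv.symm_apply_apply] at h1
      · intro hv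
        exact e8_half F A A' q hq hqA g (fun z hz => by
          rw [← hint, ← not_mem_plc, hs]
          intro hz2
          rw [Ideal.smul_mem_pointwise_smul_iff] at hz2
          exact hz hz2) x hxF hv)
  refine ⟨g, fun x => ?_⟩
  have hfin : FiniteDimensional K (IntermediateField.adjoin K {x}) :=
    IntermediateField.adjoin.finiteDimensional (Algebra.IsIntegral.isIntegral x)
  exact hg (IntermediateField.adjoin K {x}) hfin x (IntermediateField.mem_adjoin_simple_self K x)

end H16F
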