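import Pool.Agent.Lib.H16F.E7
import Pool.Agent.Lib.H16F.E8

/-!
# E9 (M): a locally trivial torsion cocycle vanishes at the inert elements of all good places

Let `A'` be the given place, `v_{A'} b = 1`, `g'` inert at `A'`.
* `A'` trivial on `𝓞 K` (`A'.valuation z = 1` for all `0 ≠ z ∈ 𝓞 K`): then `A'.valuation x = 1` for all `0 ≠ x ∈ Ω`
  (every `x` is algebraic over `K`: if `v x > 1`, in a monic equation `x^n = -∑ c_i x^i` with `c_i ∈ K`,
  `v c_i ≤ 1`, the term `x^n` dominates; same for `x⁻¹`), so `v (g' x - x) < 1` gives `g' x = x`: `g' = 1`,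
  and `c 1 = 0` (`c (1 * 1) = c 1 + c 1`).
* Otherwise `{z ∈ 𝓞 K | A'.valuation z < 1}` is a nonzero prime ideal `v` (`𝓞 K ⊆ A'`: integral elements have
  `v ≤ 1`, `se2_le` in H16C/SE2.lean).  `loc_inert` gives `A` above `v`, `conj_place` gives `τ` with
  `A'.valuation (τ x) ≤ 1 ↔ A.valuation x ≤ 1` (so also `< 1 ↔ < 1`, `= 1 ↔ = 1`).  In particular
  `A.valuation b = 1` (`τ b = b`), so by `hgood` the coefficients are good at `A` and `A.valuation q = 1`
  (`q ∣ b`; `SE3_dvd`).  `g = τ⁻¹ g' τ` is inert at `A`, so `c g = 0` (`loc_inert`).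
  Cocycle relation: `g' = τ g τ⁻¹`, `c(g') = c(τ) + τ c(g) + τ g c(τ⁻¹)`, `c(τ⁻¹) = - τ⁻¹ c(τ)`, so
  `c(g') = c(τ) - g' c(τ) = -(g' c(τ) - c(τ))`.  It is `q`-torsion, and `g' T - T ∈ E₁(A')` for `T = c(τ)` by
  `pt_inert` (`s = g'`, curve `baseChange W Ω`, `v = A'.valuation`); `tors_inj`: it is `0`.
-/

open NumberField IsDedekindDomain WeierstrassCurve

namespace H16F

open H16C

theorem e9_dvd {Ω : Type*} [Field Ω] {A : ValuationSubring Ω} {b m : ℕ} (hb : A.valuation (b : Ω) = 1)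
    (h : m ∣ b) : A.valuation (m : Ω) = 1 := by
  have hnat : ∀ j : ℕ, A.valuation (j : Ω) ≤ 1 := fun j => (A.valuation_le_one_iff _).2 (natCast_mem A j)
  obtain ⟨c, rfl⟩ := h
  rw [Nat.cast_mul, map_mul] at hb
  refine le_antisymm (hnat m) ?_
  rw [← hb]
  exact mul_le_of_le_one_right' (hnat c)

open Classical in
theorem e9_one {K : Type*} [Field K] {Ω : Type*} [Field Ω] [Algebra K Ω] (W : WeierstrassCurve.Affine K)
    (P : (WeierstrassCurve.Affine.baseChange W Ω).Point) : act W Ω 1 P = P := by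
  cases P <;> rfl

open Classical in
theorem e9_mul {K : Type*} [Field K] {Ω : Type*} [Field Ω] [Algebra K Ω] (W : WeierstrassCurve.Affine K)
    (g h : Ω ≃ₐ[K] Ω) (P : (WeierstrassCurve.Affine.baseChange W Ω).Point) :
    act W Ω (g * h) P = act W Ω g (act W Ω h P) := by
  cases P <;> rfl

open Classical in
theorem e9_xc {K : Type*} [Field K] {Ω : Type*} [Field Ω] [Algebra K Ω] {W : WeierstrassCurve.Affine K}
    (g : Ω ≃ₐ[K] Ω) (P : (WeierstrassCurve.Affine.baseChange W Ω).Point) : xc (act W Ω g P) = g (xc P) := by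
  rcases P with _ | ⟨x, y, h⟩
  · exact (map_zero g).symm
  · rfl

open Classical in
theorem e9_yc {K : Type*} [Field K] {Ω : Type*} [Field Ω] [Algebra K Ω] {W : WeierstrassCurve.Affine K}
    (g : Ω ≃ₐ[K] Ω) (P : (WeierstrassCurve.Affine.baseChange W Ω).Point) : yc (act W Ω g P) = g (yc P) := by
  rcases P with _ | ⟨x, y, h⟩
  · exact (map_zero g).symm
  · rfl

open Classical in
theorem all_inert {K : Type*} [Field K] [NumberField K] {Ω : Type*} [Field Ω] [Algebra K Ω]
    [IsAlgClosed Ω] [Algebra.IsAlgebraic K Ω] (W : WeierstrassCurve.Affine K) [W.IsShortNF]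
    [W.IsElliptic] (q b : ℕ) (hqb : q ∣ b)
    (hgood : ∀ A : ValuationSubring Ω, A.valuation (b : Ω) = 1 →
      A.valuation (algebraMap K Ω W.a₄) ≤ 1 ∧ A.valuation (algebraMap K Ω W.a₆) ≤ 1 ∧
        A.valuation (algebraMap K Ω W.Δ) = 1)
    (c : (Ω ≃ₐ[K] Ω) → (WeierstrassCurve.Affine.baseChange W Ω).Point)
    (hc : ∀ g h, c (g * h) = c g + act W Ω g (c h)) (hq : ∀ g, q • c g = 0)
    (hloc : ∀ v : HeightOneSpectrum (𝓞 K), LocTriv W Ω (v.adicCompletion K) c)
    (A' : ValuationSubring Ω) (hA' : A'.valuation (b : Ω) = 1) (g' : Ω ≃ₐ[K] Ω)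
    (hg' : ∀ x, A'.valuation x ≤ 1 → A'.valuation (g' x - x) < 1) : c g' = 0 := by
  have hCZ : CharZero Ω := charZero_of_injective_algebraMap (algebraMap K Ω).injective
  have hint : ∀ z : 𝓞 K, IsIntegral ℤ (algebraMap K Ω z) := fun z => by
    have h1 : IsIntegral ℤ ((z : K)) := z.isIntegral_coe
    exact h1.map (algebraMap K Ω).toIntAlgHom
  have hle : ∀ z : 𝓞 K, A'.valuation (algebraMap K Ω z) ≤ 1 := fun z => FR_le_one A' (hint z)
  have hc1 : c 1 = 0 := by
    have h1 := hc 1 1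
    rw [mul_one, e9_one] at h1
    exact left_eq_add.1 h1
  by_cases htriv : ∀ z : 𝓞 K, z ≠ 0 → A'.valuation (algebraMap K Ω z) = 1
  · -- the trivial place
    have hQ : Algebra.IsAlgebraic ℚ Ω := Algebra.IsAlgebraic.trans ℚ K Ω
    have hZ : Algebra.IsAlgebraic ℤ Ω :=
      (IsFractionRing.comap_isAlgebraic_iff (A := ℤ) (K := ℚ) (C := Ω)).2 hQ
    have hall : ∀ x : Ω, A'.valuation x ≤ 1 := by
      intro x
      obtain ⟨y, hy0, hy⟩ := (hZ.1 x).exists_integral_multiple
      have h1 := FR_le_one A' hy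
      rw [zsmul_eq_mul, map_mul] at h1
      have h2 := htriv (y : 𝓞 K) (by exact_mod_cast hy0)
      have h3 : algebraMap K Ω ((y : 𝓞 K) : K) = (y : Ω) := by
        have h4 : ((y : 𝓞 K) : K) = (y : K) := map_intCast (algebraMap (𝓞 K) K) y
        rw [h4, map_intCast]
      rw [h3] at h2
      rwa [h2, one_mul] at h1
    have hg1 : g' = 1 := by
      ext x
      have h1 := hg' x (hall x)
      by_contra hne
      have h2 : g' x - x ≠ 0 := sub_ne_zero.2 hne
      have h3 := hall (g' x - x)⁻¹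
      rw [map_inv₀] at h3
      have h4 : A'.valuation (g' x - x) ≠ 0 := (Valuation.ne_zero_iff _).2 h2
      have h5 : 1 ≤ A'.valuation (g' x - x) := (inv_le_one₀ (zero_lt_iff.2 h4)).1 h3
      exact absurd h1 (not_lt.2 h5)
    rw [hg1, hc1]
  · push Not at htriv
    obtain ⟨z₀, hz₀, hz₀'⟩ := htriv
    let 𝔭 : Ideal (𝓞 K) :=
      { carrier := {z | A'.valuation (algebraMap K Ω z) < 1}
        add_mem' := fun {a b} ha hb => by
          show A'.valuation (algebraMap K Ω ((a + b : 𝓞 K) : K)) < 1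
          have h1 : ((a + b : 𝓞 K) : K) = (a : K) + (b : K) := map_add (algebraMap (𝓞 K) K) a b
          rw [h1, map_add]
          exact Valuation.map_add_lt _ ha hb
        zero_mem' := by
          show A'.valuation (algebraMap K Ω ((0 : 𝓞 K) : K)) < 1
          have h1 : ((0 : 𝓞 K) : K) = 0 := map_zero (algebraMap (𝓞 K) K)
          rw [h1, map_zero, map_zero]
          exact zero_lt_one
        smul_mem' := fun a b hb => by
          show A'.valuation (algebraMap K Ω ((a * b : 𝓞 K) : K)) < 1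
          have h1 : ((a * b : 𝓞 K) : K) = (a : K) * (b : K) := map_mul (algebraMap (𝓞 K) K) a b
          rw [h1, map_mul, map_mul]
          exact (mul_le_of_le_one_left' (hle a)).trans_lt hb }
    have hmem : ∀ z : 𝓞 K, z ∈ 𝔭 ↔ A'.valuation (algebraMap K Ω z) < 1 := fun z => Iff.rfl
    have hprime : 𝔭.IsPrime := by
      refine ⟨fun h => ?_, fun {a b} hab => ?_⟩
      · have h1 : (1 : 𝓞 K) ∈ 𝔭 := by
          rw [h]
          trivial
        rw [hmem] at h1
        have h2 : ((1 : 𝓞 K) : K) = 1 := map_one (algebraMap (𝓞 K) K)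
        rw [h2, map_one, map_one] at h1
        exact lt_irrefl _ h1
      · rw [hmem] at hab ⊢
        rw [hmem]
        by_contra hcon
        push Not at hcon
        have h2 : ((a * b : 𝓞 K) : K) = (a : K) * (b : K) := map_mul (algebraMap (𝓞 K) K) a b
        rw [h2, map_mul, map_mul, le_antisymm (hle a) hcon.1, le_antisymm (hle b) hcon.2, one_mul] at hab
        exact lt_irrefl _ hab
    have hbot : 𝔭 ≠ ⊥ := by
      intro h
      have h1 : z₀ ∈ 𝔭 := lt_of_le_of_ne (hle z₀) hz₀'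
      rw [h] at h1
      exact hz₀ h1
    let v : HeightOneSpectrum (𝓞 K) := ⟨𝔭, hprime, hbot⟩
    obtain ⟨A, hA1, hA2⟩ := loc_inert (Ω := Ω) W v
    obtain ⟨τ, hτ⟩ := conj_place v A A' hA1 hmem
    have hτ' : ∀ x, A'.valuation (τ x) < 1 ↔ A.valuation x < 1 := by
      intro x
      by_cases hx : x = 0
      · rw [hx, map_zero, map_zero, map_zero]
        exact iff_of_true zero_lt_one zero_lt_one
      have h1 := hτ x⁻¹
      rw [map_inv₀, map_inv₀, map_inv₀] at h1
      have h2 : 0 < A'.valuation (τ x) := zero_lt_iff.2 ((Valuation.ne_zero_iff _).2 ((map_ne_zero τ).2 hx))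
      have h3 : 0 < A.valuation x := zero_lt_iff.2 ((Valuation.ne_zero_iff _).2 hx)
      rw [inv_le_one₀ h2, inv_le_one₀ h3] at h1
      rw [← not_le, ← not_le, h1]
    have hAb : A.valuation (b : Ω) = 1 := by
      have h1 := hτ (b : Ω)
      have h2 := hτ' (b : Ω)
      rw [map_natCast, hA'] at h1 h2
      refine le_antisymm (h1.1 le_rfl) (not_lt.1 fun h => ?_)
      exact lt_irrefl _ (h2.2 h)
    obtain ⟨g4, g6, gΔ⟩ := hgood A hAb
    have hqA : A.valuation (q : Ω) = 1 := e9_dvd hAb hqb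
    have hcg : c (τ⁻¹ * g' * τ) = 0 := by
      refine hA2 q c hq hqA g4 g6 gΔ (hloc v) _ fun x hx => ?_
      rw [← hτ']
      have h1 := hg' (τ x) ((hτ x).2 hx)
      have h2 : τ ((τ⁻¹ * g' * τ) x - x) = g' (τ x) - τ x := by
        rw [map_sub]
        congr 1
        exact τ.apply_symm_apply _
      rw [h2]
      exact h1
    have e1 : g' = τ * ((τ⁻¹ * g' * τ) * τ⁻¹) := by group
    have e2 : c g' = c τ + act W Ω τ (act W Ω (τ⁻¹ * g' * τ) (c τ⁻¹)) := by
      rw [e1, hc, hc, hcg, zero_add]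
      congr 3
      group
    have e3 : c τ + act W Ω τ (c τ⁻¹) = 0 := by
      rw [← hc, mul_inv_cancel, hc1]
    have e4 : act W Ω τ (act W Ω (τ⁻¹ * g' * τ) (c τ⁻¹)) = act W Ω g' (act W Ω τ (c τ⁻¹)) := by
      rw [← e9_mul, ← e9_mul]
      congr 2
      group
    have e5 : c g' = -(act W Ω g' (c τ) - c τ) := by
      rw [e2, e4, eq_neg_of_add_eq_zero_right e3, map_neg]
      abel
    obtain ⟨h4, h6, hΔ⟩ := hgood A' hA'
    have hqA' : A'.valuation (q : Ω) = 1 := e9_dvd hA' hqb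
    have h7 : InE1 A'.valuation (act W Ω g' (c τ) - c τ) := by
      refine pt_inert (W := WeierstrassCurve.Affine.baseChange W Ω) h4 h6 ?_ (g' : Ω →+* Ω) hg' ?_
        (e9_xc _ _) (e9_yc _ _)
      · have h8 : (WeierstrassCurve.Affine.baseChange W Ω).Δ = algebraMap K Ω W.Δ := by
          exact WeierstrassCurve.map_Δ W (algebraMap K Ω)
        rw [h8]
        exact hΔ
      · constructor
        · intro h
          rw [h, map_zero]
        · intro h
          have h9 := congrArg (act W Ω g'⁻¹) h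
          rwa [← e9_mul, inv_mul_cancel, e9_one, map_zero] at h9
    have h8 : q • (act W Ω g' (c τ) - c τ) = 0 := by
      have h9 := hq g'
      rw [e5, smul_neg, neg_eq_zero] at h9
      exact h9
    have h9 := tors_inj (W := WeierstrassCurve.Affine.baseChange W Ω) h4 h6 q hqA' h8 h7
    rw [e5, h9, neg_zero]

end H16F
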