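import Pool.Agent.Lib.H16C.SE2

/-!
# G2 (M): inert elements at the places prime to the discriminant

`K` a number field in `Ω`, `v_A (discr K) = 1`, `g` inert at `A`: then `g` is the identity on `K`.
Proof.  Let `ω_j` be an integral basis of `K` (`NumberField.integralBasis`), `σ_i : K → Ω` the embeddings over `ℚ`
(`Ω` algebraically closed).  `discr K = det(σ_i(ω_j))^2` (`NumberField.discr`,
`Algebra.discr_eq_det_embeddingsMatrixReindex_pow_two` with `E := Ω`; `coe_discr`).  Suppose `g` is not the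
identity on `K`.  Then `σ = ` the inclusion and `σ' = g ∘ ` inclusion are different embeddings, rows `i ≠ i'` of
the matrix.  Subtract row `i` from row `i'` (`Matrix.det_updateRow_add_smul_self` and similar): the entries of the new row
are `g(ω_j) - ω_j`, of valuation `< 1` (`ω_j` integral: `v ω_j ≤ 1`, `se2_le` in H16C/SE2), all other entries have
valuation `≤ 1`.  So every term of the determinant (`Matrix.det_apply`) has valuation `< 1`, hence `v (det) < 1`
(`Valuation.map_sum_lt`), `v (discr K) < 1`, a contradiction.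
-/

open WeierstrassCurve NumberField IsDedekindDomain

namespace H16F

open H16C

theorem disc_inert {k : Type*} [Field k] [NumberField k] {Ω : Type*} [Field Ω] [Algebra k Ω]
    [IsAlgClosed Ω] (K : IntermediateField k Ω) [NumberField K] (A : ValuationSubring Ω)
    (hA : A.valuation ((discr K : ℤ) : Ω) = 1) (g : Ω ≃ₐ[k] Ω) (hg : Inert A ⊤ g) :
    g ∈ K.fixingSubgroup := by
  classical
  haveI hc0 : CharZero Ω := charZero_of_injective_algebraMap (algebraMap k Ω).injective
  by_contra hgK
  rw [IntermediateField.mem_fixingSubgroup_iff] at hgK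
  push Not at hgK
  obtain ⟨x₀, hx₀, hgx₀⟩ := hgK
  -- the two embeddings
  let f₀ : K →ₐ[ℚ] Ω := K.val.toRingHom.toRatAlgHom
  let f₁ : K →ₐ[ℚ] Ω := ((g : Ω →ₐ[k] Ω).comp K.val).toRingHom.toRatAlgHom
  have hf₀ : ∀ x : K, f₀ x = (x : Ω) := fun x => rfl
  have hf₁ : ∀ x : K, f₁ x = g (x : Ω) := fun x => rfl
  have hne : f₀ ≠ f₁ := by
    intro h
    have h1 := DFunLike.congr_fun h ⟨x₀, hx₀⟩
    rw [hf₀, hf₁] at h1
    exact hgx₀ h1.symm
  let b := integralBasis K
  have hcard : Fintype.card (Module.Free.ChooseBasisIndex ℤ (𝓞 K)) =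
      Fintype.card (K →ₐ[ℚ] Ω) := by
    rw [AlgHom.card ℚ K Ω, ← Module.finrank_eq_card_basis b]
  let e : Module.Free.ChooseBasisIndex ℤ (𝓞 K) ≃ (K →ₐ[ℚ] Ω) := Fintype.equivOfCardEq hcard
  have hint : ∀ (σ : K →ₐ[ℚ] Ω) i, A.valuation (σ (b i)) ≤ 1 := by
    intro σ i
    apply se2_le
    apply map_isIntegral_int
    have h1 : b i = algebraMap (𝓞 K) K (RingOfIntegers.basis K i) := integralBasis_apply K i
    rw [h1]
    exact RingOfIntegers.isIntegral_coe _
  obtain ⟨M, hM⟩ : ∃ M, M = Algebra.embeddingsMatrixReindex ℚ Ω b e := ⟨_, rfl⟩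
  have hMe : ∀ i j, M i j = e j (b i) := by
    intro i j
    rw [hM]
    rfl
  have hdisc := Algebra.discr_eq_det_embeddingsMatrixReindex_pow_two ℚ Ω b e
  rw [← hM, ← coe_discr] at hdisc
  have hdisc2 : ((discr K : ℤ) : Ω) = M.det ^ 2 := by
    rw [← hdisc]
    simp
  -- subtract a column
  have hij : e.symm f₁ ≠ e.symm f₀ := fun h => hne (e.symm.injective h).symm
  have hdet := Matrix.det_updateCol_add_smul_self M hij (-1 : Ω)
  have hlt : A.valuation M.det < 1 := by
    rw [← hdet, Matrix.det_apply']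
    refine Valuation.map_sum_lt _ one_ne_zero fun σ _ => ?_
    rw [map_mul]
    refine lt_of_le_of_lt (mul_le_of_le_one_left' (se2_intc A _)) ?_
    rw [map_prod, ← Finset.mul_prod_erase _ _ (Finset.mem_univ (e.symm f₁))]
    refine lt_of_le_of_lt (mul_le_of_le_one_right' (Finset.prod_le_one' fun i hi => ?_)) ?_
    · rw [Matrix.updateCol_ne (Finset.ne_of_mem_erase hi), hMe]
      exact hint _ _
    · rw [Matrix.updateCol_self, hMe, hMe, Equiv.apply_symm_apply, Equiv.apply_symm_apply, hf₁, hf₀,
        neg_smul, one_smul, ← sub_eq_add_neg]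
      exact hg _ IntermediateField.mem_top (hint f₀ _)
  rw [hdisc2, map_pow] at hA
  exact absurd hA (pow_lt_one₀ zero_le hlt two_ne_zero).ne

end H16F
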