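import Mathlib
import Pool.Agent.Lib.H16C.Defs

/-!
# G3 (S/M): radical extensions of degree `q^m`

`δ^(q^m) = D ∈ k`, `g ζ = ζ` (`ζ` a primitive `q`-th root of unity).  Claim: some `g^(q^j)` fixes `δ`.
Proof.  Let `ζ'` be a primitive `q^m`-th root of unity in `Ω` (`m ≥ 1`; `m = 0`: `δ ∈ k`, `j = 0`).  `g ζ' = ζ'^a`
(`IsPrimitiveRoot.eq_pow_of_pow_eq_one`).  `ζ'^(q^(m-1))` is a primitive `q`-th root of unity, so a power of `ζ`,
fixed by `g`: `a ≡ 1 mod q`.  So `a^(q^(m-1)) ≡ 1 mod q^m` (`Int.emod_emod_of_dvd`, `dvd_sub_pow_of_dvd_sub`, or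
`ZMod`: induction `a ≡ 1 mod q^i → a^q ≡ 1 mod q^(i+1)`), and `h = g^(q^(m-1))` fixes `ζ'`
(`g^i ζ' = ζ'^(a^i)`), hence all `q^m`-th roots of unity.  `h δ = η δ` with `η^(q^m) = 1` (`δ ≠ 0`; if `δ = 0` everything
is clear), `h η = η`, so `h^i δ = η^i δ` and `h^(q^m) δ = δ`.  `j = 2m - 1`.
An automorphism that fixes `δ` is in `k⟮δ⟯.fixingSubgroup` (`TR3_fix` in H16C/TR3.lean, or
`IntermediateField.adjoin` induction).
-/

open IntermediateField

namespace H16F

open H16C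

theorem root_pow {k : Type*} [Field k] {Ω : Type*} [Field Ω] [Algebra k Ω] [IsAlgClosed Ω]
    [CharZero Ω] {q : ℕ} [Fact q.Prime] (m : ℕ) {ζ : Ω} (hζ : IsPrimitiveRoot ζ q) {δ : Ω} {D : k}
    (hδ : δ ^ (q ^ m) = algebraMap k Ω D) (g : Ω ≃ₐ[k] Ω) (hg : g ζ = ζ) :
    ∃ j : ℕ, g ^ (q ^ j) ∈ k⟮δ⟯.fixingSubgroup := by
  have hq : q.Prime := Fact.out
  have hpow : ∀ (h : Ω ≃ₐ[k] Ω) (x : Ω), h x = x → ∀ n : ℕ, (h ^ n) x = x := by
    intro h x hx n
    induction n with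
    | zero => rfl
    | succ n ih => rw [pow_succ, AlgEquiv.mul_apply, hx, ih]
  have key : ∀ i, i ≤ m → (g ^ (q ^ i)) (δ ^ (q ^ (m - i))) = δ ^ (q ^ (m - i)) := by
    intro i
    induction i with
    | zero =>
      intro _
      rw [Nat.sub_zero, hδ, AlgEquiv.commutes]
    | succ i ih =>
      intro hi
      have ih' := ih (by omega)
      obtain ⟨x, hx⟩ : ∃ x, x = δ ^ (q ^ (m - (i + 1))) := ⟨_, rfl⟩
      obtain ⟨h, hh⟩ : ∃ h, h = g ^ (q ^ i) := ⟨_, rfl⟩
      have e1 : δ ^ (q ^ (m - i)) = x ^ q := by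
        have e2 : m - i = (m - (i + 1)) + 1 := by omega
        rw [hx, ← pow_mul, e2, pow_succ]
      have e3 : g ^ (q ^ (i + 1)) = h ^ q := by rw [hh, ← pow_mul, pow_succ]
      rw [e1, ← hh] at ih'
      rw [← hx, e3]
      by_cases hx0 : x = 0
      · rw [hx0, map_zero]
      have h1 : (h x / x) ^ q = 1 := by
        rw [div_pow, ← map_pow, ih', div_self (pow_ne_zero q hx0)]
      obtain ⟨c, -, hc⟩ := hζ.eq_pow_of_pow_eq_one h1
      have h2 : h x = ζ ^ c * x := by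
        rw [hc, div_mul_cancel₀ _ hx0]
      have hζh : h ζ = ζ := by
        rw [hh]
        exact hpow g ζ hg _
      have h3 : ∀ n : ℕ, (h ^ n) x = ζ ^ (c * n) * x := by
        intro n
        induction n with
        | zero =>
          rw [Nat.mul_zero, pow_zero, pow_zero, one_mul]
          rfl
        | succ n ih2 =>
          rw [pow_succ, AlgEquiv.mul_apply, h2, map_mul, ih2, map_pow, hpow h ζ hζh n]
          ring
      rw [h3, mul_comm c q, pow_mul, hζ.pow_eq_one, one_pow, one_mul]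
  have h1 := key m le_rfl
  rw [Nat.sub_self, pow_zero, pow_one] at h1
  refine ⟨m, ?_⟩
  obtain ⟨h, hh⟩ : ∃ h, h = g ^ (q ^ m) := ⟨_, rfl⟩
  rw [← hh] at h1 ⊢
  rw [IntermediateField.mem_fixingSubgroup_iff]
  intro y hy
  induction hy using IntermediateField.adjoin_induction with
  | mem x hx =>
    rw [Set.mem_singleton_iff] at hx
    rw [hx, h1]
  | algebraMap x => exact h.commutes x
  | add x y _ _ hx hy => rw [map_add, hx, hy]
  | inv x _ hx => rw [map_inv₀, hx]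
  | mul x y _ _ hx hy => rw [map_mul, hx, hy]

end H16F
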