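import Pool.Agent.Lib.H16C.TR3

/-!
# G4 (M): Galois extensions of `k(ζ)` of `q`-power degree

`K₀ = k⟮ζ⟯`.  `QPower q K`: there are a primitive `q`-th root of unity `ζ` in `Ω` and a field `M ⊇ K, K₀`, Galois over
`K₀` of degree a power of `q`.
`qpower_pow`: if `QPower q K` then every `g` fixing one (equivalently every) primitive `q`-th root of unity `ζ'` has a
`q`-power power in `Gal(Ω/K)`: `ζ` is a power of `ζ'`, so `g` fixes `K₀`; its restriction to `M` is in `Gal(M/K₀)`,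
a group of order `q^e` (`IsGalois.card_aut_eq_finrank`), so `g^(q^e)` is the identity on `M` (`pow_card_eq_one'`).
(`M` is stable under `g`: `M/K₀` is normal; `AlgEquiv.restrictNormal`.  Passing from `Ω ≃ₐ[k] Ω` to `Ω ≃ₐ[K₀] Ω`:
`FR_up` in H16C/FR2.lean, `TR3_lift` in H16C/TR3.lean.)
-/

open IntermediateField

namespace H16F

open H16C

/-- `K` is contained in a Galois extension of `k(ζ)` of degree a power of `q`, `ζ` a primitive `q`-th root
of unity -/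
def QPower {k : Type*} [Field k] {Ω : Type*} [Field Ω] [Algebra k Ω] (q : ℕ)
    (K : IntermediateField k Ω) : Prop :=
  ∃ (ζ : Ω) (M : IntermediateField k⟮ζ⟯ Ω), IsPrimitiveRoot ζ q ∧ IsGalois k⟮ζ⟯ M ∧
    (∃ e : ℕ, Module.finrank k⟮ζ⟯ M = q ^ e) ∧ ∀ x ∈ K, x ∈ M

theorem qpower_pow {k : Type*} [Field k] {Ω : Type*} [Field Ω] [Algebra k Ω] [IsAlgClosed Ω]
    [CharZero Ω] [Algebra.IsAlgebraic k Ω] {q : ℕ} [Fact q.Prime] {K : IntermediateField k Ω}
    (hK : QPower q K) {ζ' : Ω} (hζ' : IsPrimitiveRoot ζ' q) (g : Ω ≃ₐ[k] Ω) (hg : g ζ' = ζ') :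
    ∃ j : ℕ, g ^ (q ^ j) ∈ K.fixingSubgroup := by
  have hq : q.Prime := Fact.out
  obtain ⟨ζ, M, hζ, hgal, ⟨e, he⟩, hKM⟩ := hK
  have : NeZero q := ⟨hq.ne_zero⟩
  obtain ⟨c, -, hc⟩ := hζ'.eq_pow_of_pow_eq_one hζ.pow_eq_one
  have hgζ : g ζ = ζ := by rw [← hc, map_pow, hg]
  obtain ⟨g', rfl⟩ := TR3_lift g hgζ
  have hfin : FiniteDimensional k⟮ζ⟯ M :=
    Module.finite_of_finrank_pos (by rw [he]; exact pow_pos hq.pos e)
  refine ⟨e, ?_⟩
  have hone : (AlgEquiv.restrictNormalHom M) (g' ^ (q ^ e)) = 1 := by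
    rw [map_pow, ← he, ← IsGalois.card_aut_eq_finrank k⟮ζ⟯ M]
    exact pow_card_eq_one'
  rw [← map_pow, IntermediateField.mem_fixingSubgroup_iff]
  intro x hx
  rw [TR3_res_apply]
  have h1 := AlgEquiv.restrictNormal_commutes (g' ^ (q ^ e)) M ⟨x, hKM x hx⟩
  have h2 : (g' ^ (q ^ e)).restrictNormal M = 1 := hone
  rw [h2] at h1
  exact h1.symm

end H16F
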