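import Pool.Agent.Lib.H16C.RU
import Pool.Agent.Lib.H16C.SE2

/-!
# G5 (S/M): inert elements at the places prime to `n N(D)` fix the `n`-th roots of `D`

`δ^n = D ∈ 𝓞 k`, `D ≠ 0`, `R = b |N(D)|`, `n ∣ b`, `v_A R = 1`.  `v_A` is `≤ 1` on integral elements (`se2_le`), so
`v_A b = v_A N(D) = 1`, `v_A n = 1` (`b = n c`), and `v_A D = 1`: `D` divides `N(D)` in `𝓞 k`
(`Ideal.absNorm_mem`/`Ideal.absNorm_span_singleton`: `N(D) ∈ (D)`), `N(D) = D y`, `v D ≤ 1`, `v y ≤ 1`.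
So `v_A δ = 1`; `g` inert: `η = g δ/δ` satisfies `η^n = 1`, `v (η - 1) < 1`, so `η = 1` (`root_unit`,
H16C/RU.lean).  `g` fixes `δ`, hence `k⟮δ⟯`.
-/

open IntermediateField NumberField

namespace H16F

open H16C

theorem G5_eq_one {M : Type*} [LinearOrderedCommGroupWithZero M] {a b : M} (ha : a ≤ 1) (hb : b ≤ 1)
    (h : a * b = 1) : a = 1 ∧ b = 1 := by
  have h1 : a = 1 := by
    refine le_antisymm ha ?_
    rw [← h]
    exact mul_le_of_le_one_right' hb
  refine ⟨h1, ?_⟩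
  rw [h1, one_mul] at h
  exact h

theorem rad_inert {k : Type*} [Field k] [NumberField k] {Ω : Type*} [Field Ω] [Algebra k Ω]
    [CharZero Ω] {n b : ℕ} (hn : 0 < n) (hnb : n ∣ b) {D : 𝓞 k} (hD : D ≠ 0) {δ : Ω}
    (hδ : δ ^ n = algebraMap k Ω (D : k)) (A : ValuationSubring Ω)
    (hA : A.valuation ((b * (Algebra.norm ℤ D).natAbs : ℕ) : Ω) = 1) (g : Ω ≃ₐ[k] Ω)
    (hg : Inert A ⊤ g) : g ∈ k⟮δ⟯.fixingSubgroup := by
  have hnat : ∀ m : ℕ, A.valuation (m : Ω) ≤ 1 := fun m => se2_nat A m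
  have hint : ∀ z : 𝓞 k, A.valuation (algebraMap k Ω (z : k)) ≤ 1 := fun z =>
    se2_le A (z.isIntegral_coe.map ((algebraMap k Ω).toIntAlgHom))
  rw [Nat.cast_mul, map_mul] at hA
  obtain ⟨hvb, hvN⟩ := G5_eq_one (hnat b) (hnat _) hA
  have hvn : A.valuation (n : Ω) = 1 := by
    obtain ⟨c, rfl⟩ := hnb
    rw [Nat.cast_mul, map_mul] at hvb
    exact (G5_eq_one (hnat n) (hnat c) hvb).1
  have hmem : ((Algebra.norm ℤ D).natAbs : 𝓞 k) ∈ Ideal.span {D} := by
    have h1 := Ideal.absNorm_mem (Ideal.span {D})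
    rw [Ideal.absNorm_span_singleton] at h1
    exact h1
  obtain ⟨y, hy⟩ := Ideal.mem_span_singleton.1 hmem
  have hNy : (((Algebra.norm ℤ D).natAbs : ℕ) : Ω) =
      algebraMap k Ω (D : k) * algebraMap k Ω (y : k) := by
    rw [← map_mul, ← map_mul, ← hy]
    simp
  rw [hNy, map_mul] at hvN
  obtain ⟨hvD, -⟩ := G5_eq_one (hint D) (hint y) hvN
  have hvδ : A.valuation δ = 1 := by
    have h1 : A.valuation δ ^ n = 1 := by rw [← map_pow, hδ, hvD]
    exact (pow_eq_one_iff.mp h1).resolve_right hn.ne'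
  have hfix : g δ = δ := by
    refine fixed_of_unit A.valuation hvn hvδ ?_ (hg δ trivial hvδ.le)
    rw [← map_pow, hδ, AlgEquiv.commutes]
  rw [IntermediateField.mem_fixingSubgroup_iff]
  intro y hy
  induction hy using IntermediateField.adjoin_induction with
  | mem x hx =>
    rw [Set.mem_singleton_iff] at hx
    rw [hx, hfix]
  | algebraMap x => exact g.commutes x
  | add x y _ _ hx hy => rw [map_add, hx, hy]
  | inv x _ hx => rw [map_inv₀, hx]
  | mul x y _ _ hx hy => rw [map_mul, hx, hy]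

end H16F
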