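import Pool.Agent.Lib.H16F.M4
import Pool.Agent.Lib.H16F.C3
import Pool.Agent.Lib.H16C.TR3
import Pool.Agent.Lib.H16C.SE2

/-!
# M5 (M, assembly): the algebraic upper bound

`exists_setup Ω W q` gives `S`, `exists_bad Ω W q` gives `b` (`6 q ∣ b`, `b ≠ 0`), `cnt S d` gives `C`.
`W_K = baseChange W K` over `K`; `(W_K).a₄` is the image of `W.a₄`, etc., so `hgood` for `W_K` is `Bad.good`.
Let `f : (ℤ/q)^s → Sha(W_K)` be injective; `family W_K q b` gives `m`, `c`.  For `i` let `c'_i : Gal(Ω/k) → E(Ω)`,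
`c'_i g = c_i g'` if `g ∈ K.fixingSubgroup`, where `g' ∈ Gal(Ω/K)` is the same map (`IntermediateField.fixingSubgroupEquiv`,
or `TR3_res K g' = g`), and `0` otherwise.  `ZU W q R K.fixingSubgroup c'_i`: cocycle relation by `TR3_act`
(`act W_K Ω g' P = rho W (TR3_res K g') P`); continuity: `IsCocycle` gives a field `F'` finite over `K`, hence
(restrictScalars) finite over `k`; vanishing at the inert elements: `A.valuation R = 1` and `b ∣ R` give
`A.valuation b = 1` (`SE3_dvd`).  `cnt` gives `q^s m ≤ q^(C (1 + ω(R)))` (`ι = (Fin s → ZMod q) × Fin m`,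
card `q^s m`), `m ≥ q^rank`, so `s + rank ≤ C (1 + ω(R))` (`Nat.pow_le_pow_iff_right`).
`Module.Finite`: `mw_quot`.
The root condition of `cnt` for `S.ζ` follows from `hroot` (`S.hζ`).
-/

open NumberField IsDedekindDomain WeierstrassCurve

namespace H16F

open H16C

open Classical in
theorem alg_bound {k : Type*} [Field k] [NumberField k] (Ω : Type*) [Field Ω] [Algebra k Ω]
    [IsAlgClosed Ω] [Algebra.IsAlgebraic k Ω] [CharZero Ω] (W : WeierstrassCurve.Affine k)
    [W.IsShortNF] [W.IsElliptic] (q : ℕ) [Fact q.Prime] (d : ℕ) :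
    ∃ b C : ℕ, b ≠ 0 ∧ q ∣ b ∧ ∀ R : ℕ, R ≠ 0 → b ∣ R → ∀ K : IntermediateField k Ω,
      ∀ _ : NumberField K, FiniteDimensional k K → Module.finrank k K ≤ d →
      (∀ ζ : Ω, IsPrimitiveRoot ζ q → ∀ g : Ω ≃ₐ[k] Ω, g ζ = ζ →
        ∃ j : ℕ, g ^ (q ^ j) ∈ K.fixingSubgroup) →
      (∀ A : ValuationSubring Ω, A.valuation (R : Ω) = 1 → ∀ g : Ω ≃ₐ[k] Ω, Inert A ⊤ g →
        g ∈ K.fixingSubgroup) →
      Module.Finite ℤ (WeierstrassCurve.Affine.baseChange W K).Point ∧
      ∀ (s : ℕ) (f : (Fin s → ZMod q) →+ Sha (WeierstrassCurve.Affine.baseChange W K) Ω),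
        Function.Injective f →
        s + Module.finrank ℤ (WeierstrassCurve.Affine.baseChange W K).Point ≤
          C * (1 + R.primeFactors.card) := by
  have hqp : q.Prime := Fact.out
  have hq : 0 < q := hqp.pos
  obtain ⟨S⟩ := exists_setup Ω W q hq
  obtain ⟨b, hb⟩ := exists_bad Ω W q hq
  obtain ⟨C, hC⟩ := cnt S d
  have hqb : q ∣ b := (Dvd.intro_left 6 rfl).trans hb.dvd
  refine ⟨b, C, hb.ne, hqb, ?_⟩
  intro R hR hbR K hNF hfd hdeg hroot hin
  refine ⟨(mw_quot (TR3_W W K) q).1, ?_⟩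
  intro s f hf
  have hgood : ∀ A : ValuationSubring Ω, A.valuation (b : Ω) = 1 →
      A.valuation (algebraMap K Ω (TR3_W W K).a₄) ≤ 1 ∧
        A.valuation (algebraMap K Ω (TR3_W W K).a₆) ≤ 1 ∧
        A.valuation (algebraMap K Ω (TR3_W W K).Δ) = 1 := by
    intro A hA
    obtain ⟨h4, h6, hΔ⟩ := hb.good A hA
    refine ⟨h4, h6, ?_⟩
    change A.valuation (algebraMap K Ω (WeierstrassCurve.map W (algebraMap k K)).Δ) = 1
    rw [WeierstrassCurve.map_Δ, ← IsScalarTower.algebraMap_apply]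
    exact hΔ
  obtain ⟨m, c, hm, hci, hc⟩ := family (Ω := Ω) (TR3_W W K) q b hqb hgood s f hf
  let e := IntermediateField.fixingSubgroupEquiv K
  have hres : ∀ (g : Ω ≃ₐ[k] Ω) (h : g ∈ K.fixingSubgroup), TR3_res K (e ⟨g, h⟩) = g := by
    intro g h
    ext x
    rfl
  let c' : (Fin s → ZMod q) × Fin m → (Ω ≃ₐ[k] Ω) → Pt W Ω := fun i g =>
    if h : g ∈ K.fixingSubgroup then c i (e ⟨g, h⟩) else 0
  have hc' : ∀ i g (h : g ∈ K.fixingSubgroup), c' i g = c i (e ⟨g, h⟩) := fun i g h => dif_pos h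
  have hZU : ∀ i, ZU W q R K.fixingSubgroup (c' i) := by
    intro i
    obtain ⟨⟨h1, F, hF, h2⟩, h3, h4⟩ := hc i
    refine ⟨fun g hg h hh => ?_, fun g hg => ?_, ?_, fun A hA g hg hgi => ?_⟩
    · rw [hc' i _ (mul_mem hg hh), hc' i _ hg, hc' i _ hh]
      have h5 : e ⟨g * h, mul_mem hg hh⟩ = e ⟨g, hg⟩ * e ⟨h, hh⟩ := by
        rw [← map_mul]
        rfl
      rw [h5, h1]
      refine congrArg (fun z => c i (e ⟨g, hg⟩) + z) ?_
      refine (TR3_act W K _ _).trans ?_
      rw [hres]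
    · rw [hc' i _ hg]
      exact h3 _
    · have : FiniteDimensional k F := FiniteDimensional.trans k K F
      refine ⟨F.restrictScalars k, this, fun g hg hgF => ?_⟩
      rw [hc' i _ hg]
      exact h2 _ ((IntermediateField.mem_fixingSubgroup_iff _ _).2 fun x hx =>
        (IntermediateField.mem_fixingSubgroup_iff _ _).1 hgF x hx)
    · rw [hc' i _ hg]
      exact h4 A (SE3_dvd hA hbR) _ fun x hx => hgi x (IntermediateField.mem_top) hx
  have hinj : ∀ i j, (∀ g ∈ K.fixingSubgroup, c' i g = c' j g) → i = j := by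
    intro i j h
    refine hci (funext fun g => ?_)
    have h1 := h (e.symm g).1 (e.symm g).2
    rw [hc' i _ (e.symm g).2, hc' j _ (e.symm g).2] at h1
    have h2 : e ⟨(e.symm g).1, (e.symm g).2⟩ = g := e.apply_symm_apply g
    rw [h2] at h1
    exact h1
  have hcnt := hC R hR K hfd hdeg (hroot S.ζ S.hζ) hin ((Fin s → ZMod q) × Fin m) c' hZU hinj
  rw [Fintype.card_prod, Fintype.card_fun, Fintype.card_fin, Fintype.card_fin, ZMod.card] at hcnt
  have h1 : q ^ (s + Module.finrank ℤ (WeierstrassCurve.Affine.baseChange W K).Point) ≤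
      q ^ (C * (1 + R.primeFactors.card)) := by
    rw [pow_add]
    refine (Nat.mul_le_mul_left _ ?_).trans hcnt
    have hdec : ∀ i₁ i₂ : DecidableEq K,
        @Module.finrank ℤ (WeierstrassCurve.Affine.baseChange W K).Point Int.instSemiring
          (@AddCommGroup.toAddCommMonoid _ (@Affine.Point.instAddCommGroup (↥K) K.toField
            (WeierstrassCurve.Affine.baseChange W K) i₁)) (@AddCommGroup.toIntModule _
              (@Affine.Point.instAddCommGroup (↥K) K.toField
                (WeierstrassCurve.Affine.baseChange W K) i₁)) =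
        @Module.finrank ℤ (WeierstrassCurve.Affine.baseChange W K).Point Int.instSemiring
          (@AddCommGroup.toAddCommMonoid _ (@Affine.Point.instAddCommGroup (↥K) K.toField
            (WeierstrassCurve.Affine.baseChange W K) i₂)) (@AddCommGroup.toIntModule _
              (@Affine.Point.instAddCommGroup (↥K) K.toField
                (WeierstrassCurve.Affine.baseChange W K) i₂)) := by
      intro i₁ i₂
      rw [Subsingleton.elim i₁ i₂]
    exact (congrArg (fun z => q ^ z) (hdec _ _)).le.trans hm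
  exact (Nat.pow_le_pow_iff_right hqp.one_lt).1 h1

end H16F
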