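import Pool.Agent.Lib.H16F.A1
import Pool.Agent.Lib.H16F.G2
import Pool.Agent.Lib.H16F.G3
import Pool.Agent.Lib.H16F.G4
import Pool.Agent.Lib.H16F.G5
import Pool.Agent.Lib.H16F.M5

/-!
# F1 (M, assembly): the upper bounds for fields of `q`-power type, and for `k(D^(1/n))`

`max_bound`: `alg_bound` with `R = b |discr K|`.  `hroot`: `qpower_pow`.  `hinert`: `A.valuation R = 1` implies
`A.valuation (discr K) = 1` (`A.valuation b ≤ 1`, `se2_nat`; `|discr K| = ± discr K`), `disc_inert`.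
`ω(b m) ≤ ω(b) + ω(m)` (`Nat.primeFactors_mul`, `Finset.card_union_le`), so
`C (1 + ω(R)) ≤ C (1 + ω(b)) (1 + ω(m))`, `m = |discr K| ≤ X`; `omega_max (C * (1 + ω(b)))`.
(`FiniteDimensional k K`: `K` is a number field.)
`rad_bound`: `n = q^m`, `K = k⟮δ⟯`, `[K : k] ≤ n` (`δ` is a root of `X^n - D`), `R = b |N(D)|`: `hroot`: `qpower_pow` and
`radical_qpower`, or `root_pow`; `hinert`: `rad_inert`, with `n ∣ b'` where `b' = b n` (replace `b` by `b n`: `b ∣ R` for
`R = b n |N(D)|`).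
-/

open NumberField IsDedekindDomain WeierstrassCurve IntermediateField

namespace H16F

open H16C

theorem F1_omega {b m : ℕ} (hb : b ≠ 0) (hm : m ≠ 0) (C : ℕ) :
    C * (1 + (b * m).primeFactors.card) ≤ C * (1 + b.primeFactors.card) * (1 + m.primeFactors.card) := by
  rw [Nat.primeFactors_mul hb hm, mul_assoc]
  refine Nat.mul_le_mul_left C ?_
  have h1 := Finset.card_union_le b.primeFactors m.primeFactors
  nlinarith [Nat.zero_le (b.primeFactors.card * m.primeFactors.card)]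

theorem F1_val {Ω : Type*} [Field Ω] (A : ValuationSubring Ω) {b : ℕ} {z : ℤ}
    (h : A.valuation ((b * z.natAbs : ℕ) : Ω) = 1) : A.valuation ((z : ℤ) : Ω) = 1 := by
  rw [Nat.cast_mul, map_mul] at h
  have h1 := (G5_eq_one (se2_nat A b) (se2_nat A _) h).2
  have h2 : ((z.natAbs : ℕ) : Ω) = ((z.natAbs : ℤ) : Ω) := (Int.cast_natCast _).symm
  rw [h2] at h1
  rcases Int.natAbs_eq z with h3 | h3
  · rw [h3]
    exact h1
  · rw [h3, Int.cast_neg, Valuation.map_neg]
    exact h1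

open Classical in
theorem max_bound {k : Type*} [Field k] [NumberField k] (Ω : Type*) [Field Ω] [Algebra k Ω]
    [IsAlgClosed Ω] [Algebra.IsAlgebraic k Ω] [CharZero Ω] (W : WeierstrassCurve.Affine k)
    [W.IsShortNF] [W.IsElliptic] (q : ℕ) [Fact q.Prime] (d : ℕ) :
    ∃ C : ℝ, ∀ X : ℝ, 16 ≤ X → ∀ (K : IntermediateField k Ω) (_ : NumberField K),
      Module.finrank k K ≤ d → QPower q K → |(discr K : ℝ)| ≤ X →
      Module.Finite ℤ (WeierstrassCurve.Affine.baseChange W K).Point ∧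
      ∀ (s : ℕ) (f : (Fin s → ZMod q) →+ Sha (WeierstrassCurve.Affine.baseChange W K) Ω),
        Function.Injective f →
        (s : ℝ) + Module.finrank ℤ (WeierstrassCurve.Affine.baseChange W K).Point ≤
          C * (Real.log X / Real.log (Real.log X)) := by
  obtain ⟨b, C, hb0, hqb, hC⟩ := alg_bound Ω W q d
  obtain ⟨C', hC'⟩ := omega_max (C * (1 + b.primeFactors.card))
  refine ⟨C', fun X hX K hK hdeg hQ hdisc => ?_⟩
  have hfd : FiniteDimensional k K := Module.Finite.of_restrictScalars_finite ℚ k K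
  have hd0 : (discr K).natAbs ≠ 0 := Int.natAbs_ne_zero.2 (discr_ne_zero K)
  have h := hC (b * (discr K).natAbs) (mul_ne_zero hb0 hd0) (Dvd.intro _ rfl) K hK hfd hdeg
    (fun ζ hζ g hg => qpower_pow hQ hζ g hg)
    (fun A hA g hg => disc_inert K A (F1_val A hA) g hg)
  refine ⟨h.1, fun s f hf => ?_⟩
  have h2 := (h.2 s f hf).trans (F1_omega hb0 hd0 C)
  have h3 : ((s + Module.finrank ℤ (WeierstrassCurve.Affine.baseChange W K).Point : ℕ) : ℝ) ≤
      ((C * (1 + b.primeFactors.card) * (1 + (discr K).natAbs.primeFactors.card) : ℕ) : ℝ) := by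
    exact_mod_cast h2
  have h4 := hC' X hX (discr K).natAbs hd0 (by
    rw [Nat.cast_natAbs, Int.cast_abs]
    exact hdisc)
  refine le_trans ?_ h4
  push_cast at h3 ⊢
  exact h3

open Classical in
theorem rad_bound {k : Type*} [Field k] [NumberField k] (Ω : Type*) [Field Ω] [Algebra k Ω]
    [IsAlgClosed Ω] [Algebra.IsAlgebraic k Ω] [CharZero Ω] (W : WeierstrassCurve.Affine k)
    [W.IsShortNF] [W.IsElliptic] (q : ℕ) [Fact q.Prime] (m : ℕ) :
    ∃ C : ℕ, ∀ (D : 𝓞 k) (δ : Ω), D ≠ 0 → δ ^ (q ^ m) = algebraMap k Ω (D : k) →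
      ∃ _ : NumberField k⟮δ⟯,
      Module.Finite ℤ (WeierstrassCurve.Affine.baseChange W k⟮δ⟯).Point ∧
      ∀ (s : ℕ) (f : (Fin s → ZMod q) →+ Sha (WeierstrassCurve.Affine.baseChange W k⟮δ⟯) Ω),
        Function.Injective f →
        s + Module.finrank ℤ (WeierstrassCurve.Affine.baseChange W k⟮δ⟯).Point ≤
          C * (1 + (Algebra.norm ℤ D).natAbs.primeFactors.card) := by
  have hq : q.Prime := Fact.out
  have hn : 0 < q ^ m := pow_pos hq.pos m
  obtain ⟨b, C, hb0, hqb, hC⟩ := alg_bound Ω W q (q ^ m)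
  refine ⟨C * (1 + (b * q ^ m).primeFactors.card), fun D δ hD hδ => ?_⟩
  have hint : IsIntegral k δ := (Algebra.IsAlgebraic.isAlgebraic δ).isIntegral
  have hfd : FiniteDimensional k k⟮δ⟯ := IntermediateField.adjoin.finiteDimensional hint
  have hK : NumberField k⟮δ⟯ := FR_numberField k⟮δ⟯
  refine ⟨hK, ?_⟩
  have hd0 : (Algebra.norm ℤ D).natAbs ≠ 0 :=
    Int.natAbs_ne_zero.2 (Algebra.norm_ne_zero_iff.2 hD)
  have hbn : b * q ^ m ≠ 0 := mul_ne_zero hb0 hn.ne'
  have hdeg : Module.finrank k k⟮δ⟯ ≤ q ^ m := by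
    rw [IntermediateField.adjoin.finrank hint]
    have h1 : (Polynomial.X ^ (q ^ m) - Polynomial.C (D : k)).natDegree = q ^ m :=
      Polynomial.natDegree_X_pow_sub_C
    rw [← h1]
    refine Polynomial.natDegree_le_of_dvd (minpoly.dvd k δ ?_)
      (Polynomial.X_pow_sub_C_ne_zero hn _)
    rw [map_sub, map_pow, Polynomial.aeval_X, Polynomial.aeval_C, hδ, sub_self]
  have h := hC (b * q ^ m * (Algebra.norm ℤ D).natAbs) (mul_ne_zero hbn hd0)
    ((Dvd.intro _ rfl).trans (Dvd.intro _ rfl)) k⟮δ⟯ hK hfd hdeg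
    (fun ζ hζ g hg => root_pow m hζ hδ g hg)
    (fun A hA g hg => rad_inert hn (Dvd.intro_left _ rfl) hD hδ A hA g hg)
  exact ⟨h.1, fun s f hf => (h.2 s f hf).trans (F1_omega hbn hd0 C)⟩

end H16F
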