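import Pool.Agent.Lib.H16F.F1
import Pool.Agent.Lib.H16F.A8

/-!
# F2 (S/M, assembly): the typical upper bound

`rad_bound` gives `C`; `C' = 2 C (1 + 3 g)`, `g = Fintype.card ι = [k:ℚ]` (`C'` must not depend on the basis: use
`Module.finrank ℚ k`, `Fintype.card ι = Module.finrank ℤ (𝓞 k) = Module.finrank ℚ k`, `RingOfIntegers.rank`).
For `X` with `log log X ≥ 1` and `x ∈ box X` with `N(D) ≠ 0` (so `D ≠ 0`), `ω(N(D)) ≤ 3 g log log X`:
`s + rank ≤ C (1 + 3 g log log X) ≤ C' log log X`.  By `typical_omega` the number of the other `x` is at most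
`ε #box` for `X ≥ X₀(ε)`.  So the proportion is between `1 - ε` and `1` for large `X`
(`Metric.tendsto_atTop` or `tendsto_order`; `0 < #box`, `card_box`).
-/

open NumberField IsDedekindDomain WeierstrassCurve IntermediateField

namespace H16F

open H16C H16E

open Classical in
theorem typical_bound {k : Type*} [Field k] [NumberField k] (Ω : Type*) [Field Ω] [Algebra k Ω]
    [IsAlgClosed Ω] [Algebra.IsAlgebraic k Ω] [CharZero Ω] (W : WeierstrassCurve.Affine k)
    [W.IsShortNF] [W.IsElliptic] (q : ℕ) [Fact q.Prime] (m : ℕ) :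
    ∃ C : ℝ, ∀ (ι : Type) [Fintype ι] (ω : Module.Basis ι ℤ (𝓞 k)),
      Filter.Tendsto (fun X : ℕ => (((box ι X).filter fun x => ∀ δ : Ω,
        δ ^ (q ^ m) = algebraMap k Ω ((∑ i, x i • ω i : 𝓞 k) : k) →
        ∃ _ : NumberField k⟮δ⟯,
        Module.Finite ℤ (WeierstrassCurve.Affine.baseChange W k⟮δ⟯).Point ∧
        ∀ (s : ℕ) (f : (Fin s → ZMod q) →+ Sha (WeierstrassCurve.Affine.baseChange W k⟮δ⟯) Ω),
          Function.Injective f →
          (s : ℝ) + Module.finrank ℤ (WeierstrassCurve.Affine.baseChange W k⟮δ⟯).Point ≤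
            C * Real.log (Real.log X)).card : ℝ) / ((box ι X).card : ℝ))
        Filter.atTop (nhds 1) := by
  obtain ⟨C, hC⟩ := rad_bound Ω W q m
  refine ⟨(C : ℝ) * (1 + 3 * (Module.finrank ℚ k : ℝ)), fun ι _ ω => ?_⟩
  have hg : Fintype.card ι = Module.finrank ℚ k := by
    rw [← Module.finrank_eq_card_basis ω, RingOfIntegers.rank]
  -- the main step
  have key : ∀ X : ℕ, 1 ≤ Real.log (Real.log X) → ∀ x : ι → ℤ,
      (Algebra.norm ℤ (∑ i, x i • ω i) ≠ 0 ∧
        ((Algebra.norm ℤ (∑ i, x i • ω i)).natAbs.primeFactors.card : ℝ) ≤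
          3 * (Fintype.card ι : ℝ) * Real.log (Real.log X)) →
      ∀ δ : Ω, δ ^ (q ^ m) = algebraMap k Ω ((∑ i, x i • ω i : 𝓞 k) : k) →
        ∃ _ : NumberField k⟮δ⟯,
        Module.Finite ℤ (WeierstrassCurve.Affine.baseChange W k⟮δ⟯).Point ∧
        ∀ (s : ℕ) (f : (Fin s → ZMod q) →+ Sha (WeierstrassCurve.Affine.baseChange W k⟮δ⟯) Ω),
          Function.Injective f →
          (s : ℝ) + Module.finrank ℤ (WeierstrassCurve.Affine.baseChange W k⟮δ⟯).Point ≤
            (C : ℝ) * (1 + 3 * (Module.finrank ℚ k : ℝ)) * Real.log (Real.log X) := by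
    rintro X hX x ⟨hx1, hx2⟩ δ hδ
    have hD : (∑ i, x i • ω i : 𝓞 k) ≠ 0 := by
      intro h0
      rw [h0] at hx1
      exact hx1 (Algebra.norm_zero)
    obtain ⟨hK, hfin, h⟩ := hC _ δ hD hδ
    refine ⟨hK, hfin, fun s f hf => ?_⟩
    have h1 : ((s + Module.finrank ℤ (WeierstrassCurve.Affine.baseChange W k⟮δ⟯).Point : ℕ) : ℝ) ≤
        ((C * (1 + (Algebra.norm ℤ (∑ i, x i • ω i)).natAbs.primeFactors.card) : ℕ) : ℝ) := by
      exact_mod_cast h s f hf
    push_cast at h1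
    refine h1.trans ?_
    rw [mul_assoc]
    refine mul_le_mul_of_nonneg_left ?_ (Nat.cast_nonneg C)
    rw [hg] at hx2
    have h2 : (1 + 3 * (Module.finrank ℚ k : ℝ)) * Real.log (Real.log X) =
      Real.log (Real.log X) + 3 * (Module.finrank ℚ k : ℝ) * Real.log (Real.log X) := by ring
    rw [h2]
    exact add_le_add hX hx2
  have hlog : ∃ X₁ : ℕ, ∀ X : ℕ, X₁ ≤ X → 1 ≤ Real.log (Real.log X) := by
    have h1 : Filter.Tendsto (fun X : ℕ => Real.log (Real.log (X : ℝ))) Filter.atTop Filter.atTop :=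
      Real.tendsto_log_atTop.comp (Real.tendsto_log_atTop.comp tendsto_natCast_atTop_atTop)
    exact Filter.eventually_atTop.1 (h1.eventually_ge_atTop 1)
  obtain ⟨X₁, hX₁⟩ := hlog
  rw [Metric.tendsto_atTop]
  intro ε hε
  obtain ⟨X₀, hX₀⟩ := typical_omega ω (ε / 2) (half_pos hε)
  refine ⟨max X₀ X₁, fun X hX => ?_⟩
  have hl := hX₁ X ((le_max_right _ _).trans hX)
  have ho := hX₀ X ((le_max_left _ _).trans hX)
  have hbox : (0 : ℝ) < ((box ι X).card : ℝ) := by
    rw [card_box]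
    positivity
  set P : (ι → ℤ) → Prop := fun x => ∀ δ : Ω,
        δ ^ (q ^ m) = algebraMap k Ω ((∑ i, x i • ω i : 𝓞 k) : k) →
        ∃ _ : NumberField k⟮δ⟯,
        Module.Finite ℤ (WeierstrassCurve.Affine.baseChange W k⟮δ⟯).Point ∧
        ∀ (s : ℕ) (f : (Fin s → ZMod q) →+ Sha (WeierstrassCurve.Affine.baseChange W k⟮δ⟯) Ω),
          Function.Injective f →
          (s : ℝ) + Module.finrank ℤ (WeierstrassCurve.Affine.baseChange W k⟮δ⟯).Point ≤
            (C : ℝ) * (1 + 3 * (Module.finrank ℚ k : ℝ)) * Real.log (Real.log X) with hP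
  have hsub : (box ι X).filter (fun x => ¬ P x) ⊆
      (box ι X).filter fun x => ¬ (Algebra.norm ℤ (∑ i, x i • ω i) ≠ 0 ∧
        ((Algebra.norm ℤ (∑ i, x i • ω i)).natAbs.primeFactors.card : ℝ) ≤
          3 * (Fintype.card ι : ℝ) * Real.log (Real.log X)) := by
    intro x hx
    rw [Finset.mem_filter] at hx ⊢
    exact ⟨hx.1, fun h => hx.2 (key X hl x h)⟩
  have h1 : (((box ι X).filter (fun x => ¬ P x)).card : ℝ) ≤ ε / 2 * ((box ι X).card : ℝ) :=
    le_trans (by exact_mod_cast Finset.card_le_card hsub) ho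
  have h2 : (((box ι X).filter P).card : ℝ) + (((box ι X).filter (fun x => ¬ P x)).card : ℝ) =
      ((box ι X).card : ℝ) := by
    exact_mod_cast Finset.card_filter_add_card_filter_not (s := box ι X) P
  have h3 : (((box ι X).filter P).card : ℝ) / ((box ι X).card : ℝ) =
      1 - (((box ι X).filter (fun x => ¬ P x)).card : ℝ) / ((box ι X).card : ℝ) := by
    rw [eq_sub_iff_add_eq, ← add_div, h2, div_self hbox.ne']
  rw [h3, Real.dist_eq]
  have h4 : (((box ι X).filter (fun x => ¬ P x)).card : ℝ) / ((box ι X).card : ℝ) ≤ ε / 2 :=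
    (div_le_iff₀ hbox).2 h1
  have h5 : (0 : ℝ) ≤ (((box ι X).filter (fun x => ¬ P x)).card : ℝ) / ((box ι X).card : ℝ) := by
    positivity
  rw [abs_lt]
  constructor <;> linarith

end H16F
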