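import Pool.Agent.Lib.H16F.G3
import Pool.Agent.Lib.H16F.G4

/-!
# G6 (M): radical fields of exponent `q^m` are of `q`-power type

`K = k⟮δ⟯`, `δ^(q^m) = D ∈ k`.  Let `ζ` be a primitive `q`-th root of unity of `Ω`, `K₀ = k⟮ζ⟯`, `ζ'` a primitive `q^m`-th
root of unity, `M = K₀(ζ', δ)`: generated over `K₀` by all the roots of `(X^(q^m) - 1)(X^(q^m) - D)`, so Galois over
`K₀` and finite.  `Γ = Gal(M/K₀)`: every `s ∈ Γ` has `q`-power order: extend `s` to `g ∈ Gal(Ω/k)` fixing `ζ`; by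
`root_pow` (for `δ`, and for `ζ'`, `D = 1`, `ζ'^(q^m) = 1`) some `g^(q^j)` fixes `δ` and `ζ'`, so `s^(q^j) = 1`.
So `#Γ` is a power of `q` (`IsPGroup.iff_card`; `IsPGroup q Γ`), and `[M : K₀] = #Γ`
(`IsGalois.card_aut_eq_finrank`).
-/

open IntermediateField

namespace H16F

open H16C

theorem radical_qpower {k : Type*} [Field k] {Ω : Type*} [Field Ω] [Algebra k Ω] [IsAlgClosed Ω]
    [CharZero Ω] [Algebra.IsAlgebraic k Ω] {q : ℕ} [Fact q.Prime] (m : ℕ) {δ : Ω} {D : k}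
    (hδ : δ ^ (q ^ m) = algebraMap k Ω D) : QPower q k⟮δ⟯ := by
  have hq : q.Prime := Fact.out
  have : NeZero (q : Ω) := ⟨by exact_mod_cast hq.ne_zero⟩
  obtain ⟨ζ, hζ⟩ := HasEnoughRootsOfUnity.exists_primitiveRoot Ω q
  have hck : CharZero k := ((algebraMap k Ω).charZero_iff (algebraMap k Ω).injective).mpr
    inferInstance
  have hN : q ^ m ≠ 0 := pow_ne_zero m hq.ne_zero
  let p : Polynomial k⟮ζ⟯ := Polynomial.X ^ (q ^ m) - Polynomial.C (algebraMap k k⟮ζ⟯ D)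
  have hp0 : p ≠ 0 := Polynomial.X_pow_sub_C_ne_zero (Nat.pos_of_ne_zero hN) _
  have hroot : ∀ β : Ω, β ∈ p.rootSet Ω → β ^ (q ^ m) = algebraMap k Ω D := by
    intro β hβ
    rw [Polynomial.mem_rootSet_of_ne hp0] at hβ
    have h1 : β ^ (q ^ m) - algebraMap k⟮ζ⟯ Ω (algebraMap k k⟮ζ⟯ D) = 0 := by
      simpa [p] using hβ
    rw [sub_eq_zero] at h1
    exact h1
  have hδr : δ ∈ p.rootSet Ω := by
    rw [Polynomial.mem_rootSet_of_ne hp0]
    have h1 : δ ^ (q ^ m) - algebraMap k⟮ζ⟯ Ω (algebraMap k k⟮ζ⟯ D) = 0 := by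
      rw [hδ, sub_eq_zero]
      rfl
    simpa [p] using h1
  let M : IntermediateField k⟮ζ⟯ Ω := IntermediateField.adjoin k⟮ζ⟯ (p.rootSet Ω)
  have hspl : p.IsSplittingField k⟮ζ⟯ M :=
    IntermediateField.adjoin_rootSet_isSplittingField (IsAlgClosed.splits _)
  have hnorm : Normal k⟮ζ⟯ M := Normal.of_isSplittingField p
  have hfin : FiniteDimensional k⟮ζ⟯ M := Polynomial.IsSplittingField.finiteDimensional M p
  have hgal : IsGalois k⟮ζ⟯ M := { }
  have halg : Algebra.IsAlgebraic k⟮ζ⟯ Ω := Algebra.IsAlgebraic.tower_top (K := k) k⟮ζ⟯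
  have hΩn : Normal k⟮ζ⟯ Ω := by
    have : IsAlgClosure k⟮ζ⟯ Ω := ⟨inferInstance, inferInstance⟩
    exact IsAlgClosure.normal k⟮ζ⟯ Ω
  have hP : IsPGroup q (M ≃ₐ[k⟮ζ⟯] M) := by
    intro s
    obtain ⟨g, hg⟩ := AlgEquiv.restrictNormalHom_surjective (F := k⟮ζ⟯) (K₁ := M) (E := Ω) s
    have hgζ : (TR3_res k⟮ζ⟯ g) ζ = ζ :=
      g.commutes (⟨ζ, IntermediateField.mem_adjoin_simple_self k ζ⟩ : k⟮ζ⟯)
    have hj : ∀ β : Ω, ∃ j : ℕ, β ∈ p.rootSet Ω → (g ^ (q ^ j)) β = β := by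
      intro β
      by_cases hβ : β ∈ p.rootSet Ω
      · obtain ⟨j, hj⟩ := root_pow m hζ (hroot β hβ) (TR3_res k⟮ζ⟯ g) hgζ
        refine ⟨j, fun _ => ?_⟩
        rw [← map_pow, IntermediateField.mem_fixingSubgroup_iff] at hj
        exact hj β (IntermediateField.mem_adjoin_simple_self k β)
      · exact ⟨0, fun h => absurd h hβ⟩
    choose j hj using hj
    have hfs : (p.rootSet Ω).Finite := Polynomial.rootSet_finite p Ω
    obtain ⟨J, hJ⟩ : ∃ J : ℕ, ∀ β ∈ p.rootSet Ω, j β ≤ J := by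
      obtain ⟨J, hJ⟩ := (hfs.image j).bddAbove
      exact ⟨J, fun β hβ => hJ ⟨β, hβ, rfl⟩⟩
    have hfix : ∀ β ∈ p.rootSet Ω, (g ^ (q ^ J)) β = β := by
      intro β hβ
      obtain ⟨i, hi⟩ := Nat.exists_eq_add_of_le (hJ β hβ)
      have h1 := hj β hβ
      rw [hi, pow_add, pow_mul]
      have h2 : g ^ q ^ j β ∈ MulAction.stabilizer (Ω ≃ₐ[k⟮ζ⟯] Ω) β := h1
      exact (MulAction.stabilizer (Ω ≃ₐ[k⟮ζ⟯] Ω) β).pow_mem h2 (q ^ i)
    refine ⟨J, ?_⟩
    rw [← hg, ← map_pow]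
    have hfix2 : ∀ x ∈ M, (g ^ (q ^ J)) x = x := by
      intro x hx
      obtain ⟨h, hh⟩ : ∃ h, h = g ^ (q ^ J) := ⟨_, rfl⟩
      rw [← hh] at hfix ⊢
      induction hx using IntermediateField.adjoin_induction with
      | mem x hx => exact hfix x hx
      | algebraMap x => exact h.commutes x
      | add x y _ _ hx hy => rw [map_add, hx, hy]
      | inv x _ hx => rw [map_inv₀, hx]
      | mul x y _ _ hx hy => rw [map_mul, hx, hy]
    ext x
    have h1 := AlgEquiv.restrictNormal_commutes (g ^ (q ^ J)) M x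
    have h2 : algebraMap M Ω ((g ^ (q ^ J)).restrictNormal M x) = algebraMap M Ω x := by
      rw [h1]
      exact hfix2 _ x.2
    exact h2
  obtain ⟨e, he⟩ := IsPGroup.iff_card.1 hP
  refine ⟨ζ, M, hζ, hgal, ⟨e, ?_⟩, ?_⟩
  · rw [← IsGalois.card_aut_eq_finrank k⟮ζ⟯ M]
    exact he
  · intro x hx
    have hδM : δ ∈ M := IntermediateField.subset_adjoin _ _ hδr
    induction hx using IntermediateField.adjoin_induction with
    | mem x hx =>
      rw [Set.mem_singleton_iff] at hx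
      rw [hx]
      exact hδM
    | algebraMap x => exact M.algebraMap_mem (algebraMap k k⟮ζ⟯ x)
    | add x y _ _ hx hy => exact add_mem hx hy
    | inv x _ hx => exact inv_mem hx
    | mul x y _ _ hx hy => exact mul_mem hx hy

end H16F
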