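import Pool.Agent.Lib.H16C.SE3
import Pool.Agent.Lib.H16F.Defs

/-!
# K1 (M): Kummer theory: a homomorphism `Gal(Ω/L) → ℤ/q` comes from a `q`-th root

`L = S.L` contains `ζ = S.ζ` (primitive `q`-th root of unity; `S.fix`, `S.mem_L`).  `f ∈ HM q R S.N` is a
continuous homomorphism `N = Gal(Ω/L) → ℤ/q`.  `c(g) = ζ^f(g)` is a cocycle of `N` with values in `Ω^*`
(`g ζ = ζ`), trivial on an open subgroup; by Hilbert 90 there is `α ≠ 0` with `g α = c(g) α` for `g ∈ N`;
`α^q` is fixed by `N`, so it is in `L` (`S.mem_L`).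
Hilbert 90 for such a cocycle is `H13S.ku1_h90` (Lib/H13S/KU1.lean, first theorem; statement over an
arbitrary base field, there in `Type`): copy it with `Type*` (base field `L`, group `Ω ≃ₐ[L] Ω`, see
`FR_up` in H16C/FR2.lean or `TR3_lift`, `TR3_field` in H16C/TR3.lean for the passage between
`S.L.fixingSubgroup` and `Ω ≃ₐ[S.L] Ω`).
Or directly, Lagrange resolvent: if `f = 0` take `α = 1`.  Otherwise let `τ ∈ N` with `f τ = 1`, let `M` be
the fixed field of `ker f` (finite over `k`).  `α = ∑_{i<q} ζ^(-i) τ^i(β)`, `β ∈ M` with `α ≠ 0`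
(linear independence of the characters `τ^i` on `M`, `i < q`, which are distinct).  `τ α = ζ α`, and `u ∈ ker f`
fixes `τ^i β` (`ker f` normal), so `u α = α`; `g = τ^f(g) u`.
-/

open WeierstrassCurve NumberField IsDedekindDomain

namespace H16F

open H16C

/-- Hilbert 90 for a cocycle which is trivial on the automorphisms fixing a finite set. -/
theorem k1_h90 {k : Type*} {Ω : Type*} [Field k] [Field Ω] [Algebra k Ω] [Normal k Ω]
    (u : (Ω ≃ₐ[k] Ω) → Ω) (hu0 : ∀ s, u s ≠ 0) (hcoc : ∀ s t, u (s * t) = u s * s (u t))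
    (S : Set Ω) [Finite S] (hS1 : ∀ s, u s ∈ S)
    (hS2 : ∀ n : Ω ≃ₐ[k] Ω, (∀ x ∈ S, n x = x) → u n = 1) :
    ∃ y : Ω, y ≠ 0 ∧ ∀ s : Ω ≃ₐ[k] Ω, s y = u s * y := by
  classical
  have hfin : FiniteDimensional k (IntermediateField.adjoin k S) :=
    IntermediateField.finiteDimensional_adjoin fun x _ => Normal.isIntegral inferInstance x
  let N : IntermediateField k Ω :=
    IntermediateField.normalClosure k (IntermediateField.adjoin k S) Ω
  have hNn : Normal k N := normalClosure.normal k (IntermediateField.adjoin k S) Ω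
  have hNf : FiniteDimensional k N := normalClosure.is_finiteDimensional k (IntermediateField.adjoin k S) Ω
  have hSN : ∀ x ∈ S, x ∈ N := fun x hx =>
    (IntermediateField.le_normalClosure (IntermediateField.adjoin k S))
      (IntermediateField.subset_adjoin k S hx)
  have hres : ∀ (s : Ω ≃ₐ[k] Ω) (x : N), ((AlgEquiv.restrictNormalHom N s x : N) : Ω) = s x :=
    fun s x => s.restrictNormal_commutes N x
  have hsur := AlgEquiv.restrictNormalHom_surjective (F := k) (K₁ := N) Ω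
  choose g hg using hsur
  -- u depends only on the restriction
  have hdep : ∀ s t : Ω ≃ₐ[k] Ω, AlgEquiv.restrictNormalHom N s = AlgEquiv.restrictNormalHom N t →
      u s = u t := by
    intro s t hst
    have h1 : u (t⁻¹ * s) = 1 := by
      apply hS2
      intro x hx
      have h2 : AlgEquiv.restrictNormalHom N (t⁻¹ * s) = 1 := by
        rw [map_mul, map_inv, hst, inv_mul_cancel]
      have h3 := hres (t⁻¹ * s) ⟨x, hSN x hx⟩
      rw [h2] at h3
      exact h3.symm
    have h2 := hcoc t (t⁻¹ * s)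
    rw [h1, map_one, mul_one, mul_inv_cancel_left] at h2
    exact h2
  let f : (N ≃ₐ[k] N) → Nˣ := fun σ => Units.mk0 ⟨u (g σ), hSN _ (hS1 _)⟩
    (fun h => hu0 (g σ) (congrArg Subtype.val h))
  have hf : groupCohomology.IsMulCocycle₁ f := by
    intro σ τ
    apply Units.ext
    apply Subtype.ext
    show u (g (σ * τ)) = ((σ ⟨u (g τ), hSN _ (hS1 _)⟩ : N) : Ω) * u (g σ)
    rw [hdep (g (σ * τ)) (g σ * g τ) (by rw [hg, map_mul, hg, hg]), hcoc, mul_comm]
    congr 1
    have h1 := hres (g σ) ⟨u (g τ), hSN _ (hS1 _)⟩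
    rw [hg] at h1
    exact h1.symm
  obtain ⟨β, hβ⟩ := groupCohomology.isMulCoboundary₁_of_isMulCocycle₁_of_aut_to_units f hf
  refine ⟨((β : N) : Ω), ?_, fun s => ?_⟩
  · intro h
    exact β.ne_zero (Subtype.ext h)
  · have h1 := hβ (AlgEquiv.restrictNormalHom N s)
    rw [div_eq_iff_eq_mul] at h1
    have h2 : (((AlgEquiv.restrictNormalHom N s) • β : Nˣ) : N) = AlgEquiv.restrictNormalHom N s (β : N) := rfl
    have h3 := congrArg (fun z : Nˣ => ((z : N) : Ω)) h1
    simp only [h2] at h3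
    rw [hres] at h3
    rw [h3]
    show u (g (AlgEquiv.restrictNormalHom N s)) * ((β : N) : Ω) = _
    rw [hdep (g (AlgEquiv.restrictNormalHom N s)) s (hg _)]

variable {k : Type*} [Field k] [NumberField k] {Ω : Type*} [Field Ω] [Algebra k Ω] [IsAlgClosed Ω]
  [Algebra.IsAlgebraic k Ω] [CharZero Ω] [DecidableEq Ω] {W : WeierstrassCurve.Affine k}
  [W.IsShortNF] [W.IsElliptic] {q : ℕ} [Fact q.Prime]

theorem kummer_hom (S : Setup W Ω q) {R : ℕ} (f : HM q R S.N) :
    ∃ α : Ω, α ≠ 0 ∧ α ^ q ∈ S.L ∧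
      ∀ g : S.N, (g : Ω ≃ₐ[k] Ω) α = S.ζ ^ ((f : S.N → ZMod q) g).val * α := by
  classical
  obtain ⟨E₁, hE₁, hc₁⟩ := f.2.2.1
  have hcl : IsAlgClosure k Ω := ⟨inferInstance, inferInstance⟩
  have hNk : Normal k Ω := IsAlgClosure.normal k Ω
  have hNL : Normal S.L Ω := Normal.tower_top_of_normal k S.L Ω
  have hq0 : 0 < q := (Fact.out : q.Prime).pos
  have hζq : S.ζ ^ q = 1 := S.hζ.pow_eq_one
  let b := Module.finBasis k E₁
  let S₀ : Set Ω := Set.range (fun i => ((b i : E₁) : Ω)) ∪ {x : Ω | x ^ q = 1}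
  have hfr : {x : Ω | x ^ q = 1}.Finite := by
    have h1 := (Polynomial.nthRoots q (1 : Ω)).toFinset.finite_toSet
    refine h1.subset fun x hx => ?_
    rw [Finset.mem_coe, Multiset.mem_toFinset, Polynomial.mem_nthRoots hq0]
    exact hx
  have hSf : Finite S₀ := ((Set.finite_range _).union hfr).to_subtype
  have hmem : ∀ s : Ω ≃ₐ[S.L] Ω, s.restrictScalars k ∈ S.L.fixingSubgroup := by
    intro s
    rw [IntermediateField.mem_fixingSubgroup_iff]
    intro x hx
    exact s.commutes ⟨x, hx⟩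
  let u : (Ω ≃ₐ[S.L] Ω) → Ω := fun s => S.ζ ^ ((f : S.N → ZMod q) ⟨s.restrictScalars k, hmem s⟩).val
  have hroot : ∀ m : ℕ, (S.ζ ^ m) ^ q = 1 := fun m => by rw [← pow_mul, mul_comm, pow_mul, hζq, one_pow]
  have hcoc : ∀ s t : Ω ≃ₐ[S.L] Ω, u (s * t) = u s * s (u t) := by
    intro s t
    have h1 : (⟨(s * t).restrictScalars k, hmem (s * t)⟩ : S.N) =
        ⟨s.restrictScalars k, hmem s⟩ * ⟨t.restrictScalars k, hmem t⟩ := Subtype.ext rfl
    have h2 : s S.ζ = S.ζ := (S.fix _ (hmem s)).1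
    show S.ζ ^ ((f : S.N → ZMod q) ⟨(s * t).restrictScalars k, hmem (s * t)⟩).val =
      S.ζ ^ ((f : S.N → ZMod q) ⟨s.restrictScalars k, hmem s⟩).val *
        s (S.ζ ^ ((f : S.N → ZMod q) ⟨t.restrictScalars k, hmem t⟩).val)
    rw [h1, HM_mul, map_pow, h2, ZMod.val_add, ← pow_eq_pow_mod _ hζq, pow_add]
  have htriv : ∀ n : Ω ≃ₐ[S.L] Ω, (∀ x ∈ S₀, n x = x) → u n = 1 := by
    intro n hn
    have h1 : n.restrictScalars k ∈ E₁.fixingSubgroup := by
      rw [IntermediateField.mem_fixingSubgroup_iff]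
      intro x hx
      have h2 := b.sum_repr ⟨x, hx⟩
      have h3 : x = ∑ i, (b.repr ⟨x, hx⟩ i) • ((b i : E₁) : Ω) := by
        have h4 := congrArg (fun z : E₁ => (z : Ω)) h2
        refine h4.symm.trans ?_
        push_cast
        rfl
      rw [h3, map_sum]
      refine Finset.sum_congr rfl fun i _ => ?_
      rw [Algebra.smul_def, map_mul, AlgEquiv.commutes]
      congr 1
      exact hn _ (Or.inl ⟨i, rfl⟩)
    have h2 := hc₁ ⟨n.restrictScalars k, hmem n⟩ h1
    show S.ζ ^ ((f : S.N → ZMod q) ⟨n.restrictScalars k, hmem n⟩).val = 1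
    rw [h2, ZMod.val_zero, pow_zero]
  have hζ0 : S.ζ ≠ 0 := by
    intro h
    rw [h, zero_pow hq0.ne'] at hζq
    exact zero_ne_one hζq
  obtain ⟨y, hy0, hy⟩ := k1_h90 (k := S.L) (Ω := Ω) u (fun s => pow_ne_zero _ hζ0) hcoc S₀
    (fun s => Or.inr (hroot _)) htriv
  have hg : ∀ g : S.N, (g : Ω ≃ₐ[k] Ω) y = S.ζ ^ ((f : S.N → ZMod q) g).val * y := fun g =>
    hy (IntermediateField.fixingSubgroupEquiv S.L g)
  refine ⟨y, hy0, S.mem_L fun g hgm => ?_, hg⟩
  rw [map_pow, hg ⟨g, hgm⟩, mul_pow, hroot, one_mul]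

end H16F
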