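import Pool.Agent.Lib.H16A.V1

/-!
# K5 (M): the `q`-Selmer group of a number field is finite

Elements `a i ≠ 0` of `F` with `q ∣ ord_w (a i)` for all `w`, pairwise different modulo `q`-th powers: their
number is bounded.  Port of `H16A/U3.lean` (`U3_even_sq`, `U3_kernel_finite`), with `q` in place of `2` and
without the group of classes.
Proof.  Multiplying `a i` by a `q`-th power of an element of `𝓞 F` we may assume `a i ∈ 𝓞 F`
(`a = x/y`, `a y^q = x y^(q-1)`; the hypotheses are unchanged).  All multiplicities of the ideal `(a i)` are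
divisible by `q`, so `(a i) = J_i^q` (`U3_even_sq`).  The number of classes of the `J_i` is at most
`h = #ClassGroup`.  If `J_i` and `J_j` are in the same class: `(y) J_j = (z) J_i`, `y, z ∈ 𝓞 F` nonzero, so
`y^q a_j = u z^q a_i` with a unit `u`; so `a_j/a_i` is `u` times a `q`-th power.  The group `U/U^q`,
`U = (𝓞 F)ˣ`, is finite (`U` finitely generated; `CommGroup.finite_of_fg_isMulTorsion`, as in
`U3_range_finite`, or `Module.Finite` of the quotient), of order `e` say.  `C = h e`: the map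
`i ↦ (class of J_i, class of u_i)` is injective, where `u_i` is defined by comparison with a fixed `i₀` in
the class.
-/

open Polynomial IsDedekindDomain NumberField

namespace H16F

open H16A

section

variable (F : Type*) [Field F] [NumberField F]

open Classical in
theorem k5_ord_eq_count (w : HeightOneSpectrum (𝓞 F)) (a : 𝓞 F) (ha : a ≠ 0) :
    ord w (a : F) =
      ((Associates.mk w.asIdeal).count (Associates.mk (Ideal.span {a})).factors : ℤ) := by
  unfold ord
  have h : w.valuation F (a : F) = w.intValuation a := w.valuation_of_algebraMap a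
  rw [h, w.intValuation_if_neg ha, WithZero.log_exp, neg_neg]

open Classical in
theorem k5_pow (q : ℕ) (hq : q ≠ 0) (a : 𝓞 F) (ha : a ≠ 0)
    (h : ∀ w : HeightOneSpectrum (𝓞 F), (q : ℤ) ∣ ord w (a : F)) :
    ∃ J : Ideal (𝓞 F), J ≠ 0 ∧ Ideal.span {a} = J ^ q := by
  set I : Ideal (𝓞 F) := Ideal.span {a} with hI
  have hI0 : I ≠ 0 := by
    rw [hI, Ideal.zero_eq_bot, Ne, Ideal.span_singleton_eq_bot]
    exact ha
  set n : HeightOneSpectrum (𝓞 F) → ℕ := fun w =>
    (Associates.mk w.asIdeal).count (Associates.mk I).factors with hn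
  have hev : ∀ w, q ∣ n w := by
    intro w
    have := h w
    rw [k5_ord_eq_count F w a ha] at this
    exact_mod_cast this
  have hfin : (Function.mulSupport fun w : HeightOneSpectrum (𝓞 F) =>
      w.asIdeal ^ (n w / q)).Finite := by
    have h1 := Associates.finite_factors hI0
    rw [Filter.eventually_cofinite] at h1
    refine h1.subset ?_
    intro w hw
    rw [Function.mem_mulSupport] at hw
    intro h2
    apply hw
    have h3 : n w = 0 := by exact_mod_cast h2
    rw [h3]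
    simp
  have hJ : I = (∏ᶠ w : HeightOneSpectrum (𝓞 F), w.asIdeal ^ (n w / q)) ^ q := by
    rw [finprod_pow hfin]
    conv_lhs => rw [← Ideal.finprod_heightOneSpectrum_factorization hI0]
    refine finprod_congr fun w => ?_
    rw [← pow_mul, Nat.div_mul_cancel (hev w)]
    rfl
  refine ⟨_, ?_, hJ⟩
  intro h0
  apply hI0
  rw [hJ, h0, zero_pow hq]

/-- The units modulo `q`-th powers. -/
abbrev k5_Q (q : ℕ) : Type _ := (𝓞 F)ˣ ⧸ (powMonoidHom q : (𝓞 F)ˣ →* (𝓞 F)ˣ).range

theorem k5_finite (q : ℕ) (hq : 0 < q) : Finite (k5_Q F q) := by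
  have h2 : Group.FG (𝓞 F)ˣ := by
    rw [Group.fg_iff_monoid_fg]
    infer_instance
  have h4 : Group.FG (k5_Q F q) := QuotientGroup.fg _
  refine CommGroup.finite_of_fg_isMulTorsion _ ?_
  intro x
  rw [isOfFinOrder_iff_pow_eq_one]
  refine ⟨q, hq, ?_⟩
  induction x using QuotientGroup.induction_on with
  | H z =>
    rw [← QuotientGroup.mk_pow, QuotientGroup.eq_one_iff]
    exact ⟨z, rfl⟩

variable {F}

theorem k5_int {q : ℕ} (hq : 0 < q) {a : F} (ha : a ≠ 0) (h : ∀ w : HeightOneSpectrum (𝓞 F), (q : ℤ) ∣ ord w a) :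
    ∃ (b : 𝓞 F) (y : F), b ≠ 0 ∧ y ≠ 0 ∧ (b : F) = a * y ^ q ∧
      ∀ w : HeightOneSpectrum (𝓞 F), (q : ℤ) ∣ ord w (b : F) := by
  obtain ⟨x, y, hy, hxy⟩ := IsFractionRing.div_surjective (A := 𝓞 F) a
  have hy0 : y ≠ 0 := nonZeroDivisors.ne_zero hy
  have hy1 : (y : F) ≠ 0 := by
    simpa using hy0
  have hxy' : (x : F) / (y : F) = a := hxy
  have hx : (x : F) = a * (y : F) := by
    rw [← hxy']
    field_simp
  have hx1 : (x : F) ≠ 0 := by
    rw [hx]
    exact mul_ne_zero ha hy1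
  have hx0 : x ≠ 0 := by
    intro h
    rw [h] at hx1
    simp at hx1
  have hb : (((x * y ^ (q - 1) : 𝓞 F)) : F) = a * (y : F) ^ q := by
    have h1 : (((x * y ^ (q - 1) : 𝓞 F)) : F) = (x : F) * (y : F) ^ (q - 1) := by simp
    rw [h1, hx, mul_assoc, ← pow_succ', Nat.sub_add_cancel hq]
  refine ⟨x * y ^ (q - 1), y, mul_ne_zero hx0 (pow_ne_zero _ hy0), hy1, hb, fun w => ?_⟩
  rw [hb, ord_mul w ha (pow_ne_zero _ hy1), ord_pow]
  exact dvd_add (h w) (dvd_mul_right _ _)

theorem k5_class {q : ℕ} {a b : 𝓞 F} (_ha : a ≠ 0) (_hb : b ≠ 0) {I J : nonZeroDivisors (Ideal (𝓞 F))}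
    (hI : Ideal.span {a} = (I : Ideal (𝓞 F)) ^ q) (hJ : Ideal.span {b} = (J : Ideal (𝓞 F)) ^ q)
    (h : ClassGroup.mk0 I = ClassGroup.mk0 J) :
    ∃ (u : (𝓞 F)ˣ) (t : F), t ≠ 0 ∧ (a : F) = (b : F) * ((u : 𝓞 F) : F) * t ^ q := by
  obtain ⟨y, z, hy, hz, hyz⟩ := (ClassGroup.mk0_eq_mk0_iff).mp h.symm
  have h1 : Ideal.span {y ^ q * b} = Ideal.span {z ^ q * a} := by
    rw [← Ideal.span_singleton_mul_span_singleton, ← Ideal.span_singleton_mul_span_singleton,
      ← Ideal.span_singleton_pow, ← Ideal.span_singleton_pow, hI, hJ, ← mul_pow, ← mul_pow, hyz]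
  obtain ⟨u, hu⟩ := Ideal.span_singleton_eq_span_singleton.mp h1
  have hy1 : (y : F) ≠ 0 := by simpa using hy
  have hz1 : (z : F) ≠ 0 := by simpa using hz
  have hu' : (y : F) ^ q * (b : F) * ((u : 𝓞 F) : F) = (z : F) ^ q * (a : F) := by
    exact_mod_cast congrArg (fun t : 𝓞 F => (t : F)) hu
  refine ⟨u, (y : F) / z, div_ne_zero hy1 hz1, ?_⟩
  rw [div_pow]
  field_simp
  linear_combination -hu'

end

theorem sunit0 (F : Type*) [Field F] [NumberField F] (q : ℕ) [Fact q.Prime] :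
    ∃ C : ℕ, 0 < C ∧ ∀ (ι : Type) [Fintype ι] (a : ι → F), (∀ i, a i ≠ 0) →
      (∀ i (w : HeightOneSpectrum (𝓞 F)), (q : ℤ) ∣ ord w (a i)) →
      (∀ i j (z : F), a i = a j * z ^ q → i = j) → Fintype.card ι ≤ C := by
  classical
  have hq : 0 < q := (Fact.out : q.Prime).pos
  have hfin := k5_finite F q hq
  refine ⟨Nat.card (ClassGroup (𝓞 F) × k5_Q F q), Nat.card_pos, ?_⟩
  intro ι _ a ha hord hinj
  rcases isEmpty_or_nonempty ι with he | he
  · rw [Fintype.card_eq_zero]
    exact Nat.zero_le _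
  choose b y hb hy hby hordb using fun i => k5_int hq (ha i) (hord i)
  choose J hJ0 hJ using fun i => k5_pow F q hq.ne' (b i) (hb i) (hordb i)
  let J' : ι → nonZeroDivisors (Ideal (𝓞 F)) := fun i => ⟨J i, mem_nonZeroDivisors_of_ne_zero (hJ0 i)⟩
  let c : ι → ClassGroup (𝓞 F) := fun i => ClassGroup.mk0 (J' i)
  let s : ClassGroup (𝓞 F) → ι := Function.invFun c
  have hs : ∀ i, c (s (c i)) = c i := fun i => Function.invFun_eq ⟨i, rfl⟩
  choose u t ht hut using fun i => k5_class (hb i) (hb (s (c i))) (I := J' i) (J := J' (s (c i))) (hJ i) (hJ _)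
    (hs i).symm
  have hinjf : Function.Injective (fun i => ((c i, (u i : k5_Q F q)) : ClassGroup (𝓞 F) × k5_Q F q)) := by
    intro i j hij
    have h1 : c i = c j := congrArg Prod.fst hij
    have h2 : (u i : k5_Q F q) = (u j : k5_Q F q) := congrArg Prod.snd hij
    rw [QuotientGroup.eq] at h2
    obtain ⟨v, hv⟩ := h2
    have hv' : u j = u i * v ^ q := by
      have : v ^ q = (u i)⁻¹ * u j := hv
      rw [this, mul_inv_cancel_left]
    have hvF : (((u j : (𝓞 F)ˣ) : 𝓞 F) : F) = (((u i : (𝓞 F)ˣ) : 𝓞 F) : F) * (((v : (𝓞 F)ˣ) : 𝓞 F) : F) ^ q := by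
      rw [hv']
      simp
    have hi := hut i
    have hj := hut j
    rw [h1] at hi
    have hvne : (((v : (𝓞 F)ˣ) : 𝓞 F) : F) ≠ 0 := by simp
    have huine : (((u i : (𝓞 F)ˣ) : 𝓞 F) : F) ≠ 0 := by simp
    have hbs : (b (s (c j)) : F) ≠ 0 := by simpa using hb _
    refine (hinj j i ((((v : (𝓞 F)ˣ) : 𝓞 F) : F) * t j * y i / (t i * y j)) ?_).symm
    have e1 := hby i
    have e2 := hby j
    have hti := ht i
    have htj := ht j
    have hyi := hy i
    have hyj := hy j
    rw [div_pow, mul_pow, mul_pow, mul_pow]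
    have e3 : a j * (y j) ^ q = (a i * (y i) ^ q) * (((v : (𝓞 F)ˣ) : 𝓞 F) : F) ^ q * (t j) ^ q / (t i) ^ q := by
      rw [← e1, ← e2, hi, hj, hvF]
      field_simp
    have e4 : a j = (a j * (y j) ^ q) / (y j) ^ q := by
      field_simp
    rw [e4, e3]
    field_simp
  rw [← Nat.card_eq_fintype_card]
  exact Nat.card_le_card_of_injective _ hinjf

end H16F
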