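import Pool.Agent.Lib.H16C.MW3
import Pool.Agent.Lib.H16C.SE1

/-!
# M1 (M): Mordell-Weil over `K` and `#E(K)/q ≥ q^rank`

* `E(K)` is finitely generated: `exists_setup (AlgebraicClosure K) W 2` (base field `K`) gives `S`, and `MW3_fg S` says
  that `E(S.L)` is finitely generated; `E(K) → E(S.L)` is injective (`WeierstrassCurve.Affine.Point.map_injective`,
  `baseChange W K` is `W` up to definitional equality), a `ℤ`-linear map; a submodule of a finitely generated
  `ℤ`-module is finitely generated (`Module.Finite.of_injective`, `ℤ` noetherian).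
* For a finitely generated abelian group `M` of rank `r` (`Module.finrank ℤ M`): `M/qM` is finite (`MW3_quot`) and has at
  least `q^r` elements: it maps onto `(ℤ/q)^r`: `M → M/tors ≅ ℤ^r` (`Module.finBasis`, `Submodule.torsion`,
  `Module.Free` of torsion free; finrank of the quotient by the torsion is the same), or: choose `r` linearly independent
  elements generating a free submodule of finite index `M'`... (see how `H16A` proves `2 ^ finrank ≤ index`:
  `fin6_finite` and the files it uses; H16A/FIN5).
* `m = #(M/qM)`, `P : Fin m → M` a set of representatives (`Finite.equivFin`, `Quotient.out`):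
  `P i - P j = q • P'` implies that `P i` and `P j` have the same class, so `i = j`.
-/

open WeierstrassCurve NumberField

namespace H16F

open H16C

theorem m1_fg {K : Type*} [Field K] [NumberField K] [DecidableEq K]
    (W : WeierstrassCurve.Affine K) [W.IsShortNF] [W.IsElliptic] : Module.Finite ℤ W.Point := by
  classical
  obtain ⟨S⟩ := exists_setup (AlgebraicClosure K) W 2 (by norm_num)
  have h1 : Module.Finite ℤ (Pt W S.L) := MW3_fg S
  let φ : W.Point →+ Pt W S.L := WeierstrassCurve.Affine.Point.map (W' := W) (Algebra.ofId K S.L)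
  have hφ : Function.Injective φ := WeierstrassCurve.Affine.Point.map_injective (W' := W) (f := Algebra.ofId K S.L)
  exact Module.Finite.of_injective φ.toIntLinearMap hφ

/-- `#(M/qM) ≥ q^rank` -/
theorem m1_card {M : Type*} [AddCommGroup M] [Module.Finite ℤ M] {q : ℕ} [Fact q.Prime] :
    q ^ Module.finrank ℤ M ≤ Nat.card (M ⧸ (nsmulAddMonoidHom q : M →+ M).range) := by
  have hq0 : q ≠ 0 := (Fact.out : q.Prime).ne_zero
  have hfin : Finite (M ⧸ (nsmulAddMonoidHom q : M →+ M).range) := MW3_quot q hq0
  let T : Submodule ℤ M := Submodule.torsion ℤ M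
  have hr : Module.finrank ℤ (M ⧸ T) = Module.finrank ℤ M := finrank_quotient_eq_of_le_torsion le_rfl
  have hfree : Module.Free ℤ (M ⧸ T) := inferInstance
  let b := Module.finBasis ℤ (M ⧸ T)
  let φ : M →+ (Fin (Module.finrank ℤ (M ⧸ T)) → ZMod q) :=
    { toFun := fun x i => ((b.equivFun (T.mkQ x) i : ℤ) : ZMod q)
      map_zero' := by
        funext i
        rw [map_zero, map_zero]
        simp
      map_add' := fun x y => by
        funext i
        rw [map_add, map_add]
        simp }
  have hsurj : Function.Surjective φ := by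
    intro y
    obtain ⟨x, hx⟩ := T.mkQ_surjective (b.equivFun.symm fun i => ((y i).val : ℤ))
    refine ⟨x, funext fun i => ?_⟩
    show ((b.equivFun (T.mkQ x) i : ℤ) : ZMod q) = y i
    rw [hx, LinearEquiv.apply_symm_apply]
    rw [Int.cast_natCast, ZMod.natCast_zmod_val]
  have hker : (nsmulAddMonoidHom q : M →+ M).range ≤ φ.ker := by
    rintro _ ⟨x, rfl⟩
    rw [AddMonoidHom.mem_ker]
    show φ (q • x) = 0
    rw [map_nsmul]
    funext i
    rw [Pi.smul_apply, nsmul_eq_mul, ZMod.natCast_self, zero_mul]
    rfl
  have h1 := Nat.card_le_card_of_surjective (QuotientAddGroup.lift _ φ hker)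
    (QuotientAddGroup.lift_surjective_of_surjective _ φ hsurj hker)
  rw [Nat.card_fun, Nat.card_zmod, Nat.card_fin, hr] at h1
  exact h1

theorem mw_quot {K : Type*} [Field K] [NumberField K] [DecidableEq K]
    (W : WeierstrassCurve.Affine K) [W.IsShortNF] [W.IsElliptic] (q : ℕ) [Fact q.Prime] :
    Module.Finite ℤ W.Point ∧ ∃ (m : ℕ) (P : Fin m → W.Point),
      q ^ Module.finrank ℤ W.Point ≤ m ∧
      ∀ (i j : Fin m) (P' : W.Point), P i - P j = q • P' → i = j := by
  have hfg : Module.Finite ℤ W.Point := m1_fg W
  refine ⟨hfg, ?_⟩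
  have hq0 : q ≠ 0 := (Fact.out : q.Prime).ne_zero
  have hfin : Finite (W.Point ⧸ (nsmulAddMonoidHom q : W.Point →+ W.Point).range) := MW3_quot q hq0
  refine ⟨Nat.card (W.Point ⧸ (nsmulAddMonoidHom q : W.Point →+ W.Point).range),
    fun i => ((Finite.equivFin _).symm i).out, m1_card, ?_⟩
  intro i j P' h
  have h1 : (QuotientAddGroup.mk (((Finite.equivFin _).symm i).out) :
      W.Point ⧸ (nsmulAddMonoidHom q : W.Point →+ W.Point).range) =
      QuotientAddGroup.mk (((Finite.equivFin _).symm j).out) := by
    rw [← sub_eq_zero, ← QuotientAddGroup.mk_sub, h, QuotientAddGroup.eq_zero_iff]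
    exact ⟨P', rfl⟩
  rw [QuotientAddGroup.out_eq', QuotientAddGroup.out_eq'] at h1
  exact (Finite.equivFin _).symm.injective h1

end H16F
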