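import Pool.Agent.Lib.H16F.E9

/-!
# M2 (M): good representatives of the classes of `Sha[q]`

`x ∈ Sha`, `q • x = 0`.  `x` is the class of some `c₀ ∈ ZSha W Ω`; `q • c₀ ∈ BSha W Ω`: `q • c₀ g = g Q - Q`.
`divisible` (H16C/T1): `Q = q • R`.  `c g = c₀ g - (g R - R)`.  Then `q • c g = 0`.
`∂R : g ↦ g R - R` is in `ZSha W Ω`: it is a cocycle, continuous (`R = 0` or the coordinates of `R` generate a finite
extension of `K`: `IntermediateField.finiteDimensional_adjoin`; `g` fixing them fixes `R`), and trivial over every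
extension `L` of `K`: `Q = Point.map ι R` (as in `TR3_loc`, H16C/TR3.lean, where the same computation is done:
`Point.map_map` and `ι ∘ g = σ ∘ ι`).  So `c = c₀ - ∂R ∈ ZSha W Ω` has the same class.
`c` vanishes at the inert elements of the good places: `all_inert`.
-/

open NumberField IsDedekindDomain WeierstrassCurve

namespace H16F

open H16C

open Classical in
theorem m2_fix {K : Type*} [Field K] {Ω : Type*} [Field Ω] [Algebra K Ω] (W : WeierstrassCurve.Affine K)
    (g : Ω ≃ₐ[K] Ω) (P : (WeierstrassCurve.Affine.baseChange W Ω).Point)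
    (hx : g (xc P) = xc P) (hy : g (yc P) = yc P) : act W Ω g P = P := by
  rcases P with _ | ⟨x, y, h⟩
  · rfl
  · have hx' : g x = x := hx
    have hy' : g y = y := hy
    change WeierstrassCurve.Affine.Point.map (g : Ω →ₐ[K] Ω) _ = _
    rw [WeierstrassCurve.Affine.Point.map_some]
    congr

open Classical in
theorem m2_loc {K : Type*} [Field K] {Ω : Type*} [Field Ω] [Algebra K Ω] (W : WeierstrassCurve.Affine K)
    (L : Type*) [Field L] [Algebra K L] (R : (WeierstrassCurve.Affine.baseChange W Ω).Point) :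
    LocTriv W Ω L (fun g => act W Ω g R - R) := by
  intro ι
  refine ⟨WeierstrassCurve.Affine.Point.map ι R, fun σ g h => ?_⟩
  rw [map_sub]
  congr 1
  unfold act
  rw [WeierstrassCurve.Affine.Point.map_map, WeierstrassCurve.Affine.Point.map_map]
  have h1 : ι.comp (g : Ω →ₐ[K] Ω) =
      ((σ.restrictScalars K : AlgebraicClosure L ≃ₐ[K] AlgebraicClosure L) :
        AlgebraicClosure L →ₐ[K] AlgebraicClosure L).comp ι := AlgHom.ext h
  rw [h1]

open Classical in
theorem m2_cocycle {K : Type*} [Field K] {Ω : Type*} [Field Ω] [Algebra K Ω] [Algebra.IsAlgebraic K Ω]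
    (W : WeierstrassCurve.Affine K) (R : (WeierstrassCurve.Affine.baseChange W Ω).Point) :
    IsCocycle W Ω (fun g => act W Ω g R - R) := by
  refine ⟨fun g h => ?_, IntermediateField.adjoin K {xc R, yc R}, ?_, fun g hg => ?_⟩
  · show act W Ω (g * h) R - R = (act W Ω g R - R) + act W Ω g (act W Ω h R - R)
    rw [e9_mul, map_sub]
    abel
  · have hfin : Finite ({xc R, yc R} : Set Ω) := Set.toFinite _
    exact IntermediateField.finiteDimensional_adjoin fun x _ => Algebra.IsIntegral.isIntegral x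
  · show act W Ω g R - R = 0
    rw [IntermediateField.mem_fixingSubgroup_iff] at hg
    rw [m2_fix W g R (hg _ (IntermediateField.subset_adjoin K _ (Or.inl rfl)))
      (hg _ (IntermediateField.subset_adjoin K _ (Or.inr rfl))), sub_self]

open Classical in
theorem m2_mem {K : Type*} [Field K] [NumberField K] {Ω : Type*} [Field Ω] [Algebra K Ω]
    [Algebra.IsAlgebraic K Ω]
    (W : WeierstrassCurve.Affine K) (R : (WeierstrassCurve.Affine.baseChange W Ω).Point) :
    (fun g => act W Ω g R - R) ∈ ZSha W Ω :=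
  ⟨m2_cocycle W R, fun _ => m2_loc W _ R, fun _ => m2_loc W _ R⟩

open Classical in
theorem sha_rep {K : Type*} [Field K] [NumberField K] {Ω : Type*} [Field Ω] [Algebra K Ω]
    [IsAlgClosed Ω] [Algebra.IsAlgebraic K Ω] [CharZero Ω] (W : WeierstrassCurve.Affine K)
    [W.IsShortNF] [W.IsElliptic] (q b : ℕ) (hq : 0 < q) (hqb : q ∣ b)
    (hgood : ∀ A : ValuationSubring Ω, A.valuation (b : Ω) = 1 →
      A.valuation (algebraMap K Ω W.a₄) ≤ 1 ∧ A.valuation (algebraMap K Ω W.a₆) ≤ 1 ∧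
        A.valuation (algebraMap K Ω W.Δ) = 1)
    (x : Sha W Ω) (hx : q • x = 0) :
    ∃ (c : (Ω ≃ₐ[K] Ω) → (WeierstrassCurve.Affine.baseChange W Ω).Point) (h : c ∈ ZSha W Ω),
      (QuotientAddGroup.mk (⟨c, h⟩ : ZSha W Ω) : Sha W Ω) = x ∧ (∀ g, q • c g = 0) ∧
      ∀ A : ValuationSubring Ω, A.valuation (b : Ω) = 1 → ∀ g : Ω ≃ₐ[K] Ω,
        (∀ x, A.valuation x ≤ 1 → A.valuation (g x - x) < 1) → c g = 0 := by
  have hsurj : ∃ z : ZSha W Ω, (QuotientAddGroup.mk z : Sha W Ω) = x :=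
    QuotientAddGroup.mk_surjective (s := (BSha W Ω).addSubgroupOf (ZSha W Ω)) x
  obtain ⟨⟨c₀, hc₀⟩, rfl⟩ := hsurj
  have h1 : (QuotientAddGroup.mk' ((BSha W Ω).addSubgroupOf (ZSha W Ω))) (q • ⟨c₀, hc₀⟩) = 0 := hx
  have h2 := (QuotientAddGroup.eq_zero_iff (N := (BSha W Ω).addSubgroupOf (ZSha W Ω))
    (q • (⟨c₀, hc₀⟩ : ZSha W Ω))).1 h1
  rw [AddSubgroup.mem_addSubgroupOf] at h2
  obtain ⟨Q, hQ⟩ : IsCoboundary W Ω (q • c₀) := h2
  obtain ⟨R, hR⟩ := divisible (W := WeierstrassCurve.Affine.baseChange W Ω) q hq Q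
  have hm := m2_mem W R
  have hc : (c₀ - fun g => act W Ω g R - R) ∈ ZSha W Ω := sub_mem hc₀ hm
  have hq0 : ∀ g, q • (c₀ - fun g => act W Ω g R - R) g = 0 := by
    intro g
    have h3 : q • c₀ g = act W Ω g Q - Q := hQ g
    rw [Pi.sub_apply, smul_sub, h3, smul_sub, ← map_nsmul, hR, sub_self]
  refine ⟨c₀ - fun g => act W Ω g R - R, hc, ?_, hq0, ?_⟩
  · refine (QuotientAddGroup.eq (s := (BSha W Ω).addSubgroupOf (ZSha W Ω))).2 ?_
    rw [AddSubgroup.mem_addSubgroupOf]
    refine ⟨R, fun g => ?_⟩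
    show -(c₀ g - (act W Ω g R - R)) + c₀ g = act W Ω g R - R
    abel
  · intro A hA g hg
    exact all_inert W q b hqb hgood _ hc.1.1 hq0 hc.2.1 A hA g hg

end H16F
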