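import Pool.Agent.Lib.H16C.SE3
import Pool.Agent.Lib.H16C.Stm
import Pool.Agent.Lib.H16F.E5

/-!
# M3 (M): the Kummer cocycles of the points of `E(K)`

For `P ∈ E(K)` let `P₁ ∈ E(Ω)` be its image (`Point.map (Algebra.ofId K Ω)`), and `q • R = P₁` (`divisible`).
`κ g = g R - R`: cocycle, continuous (the coordinates of `R` generate a finite extension), `q • κ g = g P₁ - P₁ = 0`,
and `κ g = 0` for inert `g` at a good place: `g R - R ∈ E₁` (`pt_inert`, curve `baseChange W Ω`,
`v = A.valuation`, `s = g`), `tors_inj` (`A.valuation q = 1`: `SE3_dvd`).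
Second claim: if `κ - κ' = ∂T` with `q • T = 0` then `U = R - R' - T` is fixed by `Gal(Ω/K)`, so it comes from a point
`P''` of `E(K)`: its coordinates are in `K` (fixed field of the Galois group: `InfiniteGalois` or
`SE3`, `MW3_lift` in H16C/MW3.lean for a similar statement), and `P₁ - P₁' = q • U`, so `P - P' = q • P''` by
injectivity of `E(K) → E(Ω)`.
(`baseChange W K` and `W` are definitionally equal.)
-/

open NumberField IsDedekindDomain WeierstrassCurve

namespace H16F

open H16C

section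

variable {K : Type*} [Field K] [DecidableEq K] {Ω : Type*} [Field Ω] [Algebra K Ω] [DecidableEq Ω]

/-- the inclusion of `E(K)` in `E(Ω)` -/
noncomputable def M3_map (W : WeierstrassCurve.Affine K) (Ω : Type*) [Field Ω] [Algebra K Ω]
    [DecidableEq Ω] : W.Point →+ Pt W Ω :=
  WeierstrassCurve.Affine.Point.map (W' := W) (Algebra.ofId K Ω)

variable {W : WeierstrassCurve.Affine K}

theorem M3_xc (P : W.Point) : xc (M3_map W Ω P) = algebraMap K Ω (xc P) := by
  cases P with
  | zero => exact (map_zero (algebraMap K Ω)).symm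
  | some x y h => rfl

theorem M3_yc (P : W.Point) : yc (M3_map W Ω P) = algebraMap K Ω (yc P) := by
  cases P with
  | zero => exact (map_zero (algebraMap K Ω)).symm
  | some x y h => rfl

theorem M3_inj : Function.Injective (M3_map W Ω) :=
  WeierstrassCurve.Affine.Point.map_injective (W' := W) (f := Algebra.ofId K Ω)

theorem M3_ne {P : W.Point} (h : P ≠ 0) : M3_map W Ω P ≠ 0 := fun h' =>
  h (M3_inj (h'.trans (map_zero (M3_map W Ω)).symm))

theorem M3_fix [W.IsShortNF] (P : W.Point) (g : Ω ≃ₐ[K] Ω) : rho W g (M3_map W Ω P) = M3_map W Ω P := by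
  by_cases hP : P = 0
  · rw [hP, map_zero, map_zero]
  · refine pt_ext (SE3_ne (M3_ne hP)) (M3_ne hP) ?_ ?_
    · rw [SE3_xc, M3_xc, g.commutes]
    · rw [SE3_yc, M3_yc, g.commutes]

theorem M3_lift [W.IsShortNF] [W.IsElliptic] {P : Pt W Ω} {x y : K} (hx : algebraMap K Ω x = xc P)
    (hy : algebraMap K Ω y = yc P) : ∃ Q : W.Point, M3_map W Ω Q = P := by
  by_cases hP : P = 0
  · exact ⟨0, by rw [hP, map_zero]⟩
  · have h1 := eqn hP
    have h2 : y ^ 2 = x ^ 3 + W.a₄ * x + W.a₆ := by
      apply (algebraMap K Ω).injective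
      rw [map_pow, map_add, map_add, map_mul, map_pow, hx, hy]
      exact h1
    obtain ⟨Q, hQ, hxQ, hyQ⟩ := exists_pt (W := W) _ _ h2
    refine ⟨Q, pt_ext (M3_ne hQ) hP ?_ ?_⟩
    · rw [M3_xc, hxQ, hx]
    · rw [M3_yc, hyQ, hy]

end

open Classical in
theorem mw_rep {K : Type*} [Field K] [NumberField K] {Ω : Type*} [Field Ω] [Algebra K Ω]
    [IsAlgClosed Ω] [Algebra.IsAlgebraic K Ω] [CharZero Ω] (W : WeierstrassCurve.Affine K)
    [W.IsShortNF] [W.IsElliptic] (q b : ℕ) (hq : 0 < q) (hqb : q ∣ b)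
    (hgood : ∀ A : ValuationSubring Ω, A.valuation (b : Ω) = 1 →
      A.valuation (algebraMap K Ω W.a₄) ≤ 1 ∧ A.valuation (algebraMap K Ω W.a₆) ≤ 1 ∧
        A.valuation (algebraMap K Ω W.Δ) = 1) :
    ∃ R : W.Point → (WeierstrassCurve.Affine.baseChange W Ω).Point,
      (∀ P : W.Point, IsCocycle W Ω (fun g => act W Ω g (R P) - R P) ∧
        (∀ g : Ω ≃ₐ[K] Ω, q • (act W Ω g (R P) - R P) = 0) ∧
        ∀ A : ValuationSubring Ω, A.valuation (b : Ω) = 1 → ∀ g : Ω ≃ₐ[K] Ω,
          (∀ x, A.valuation x ≤ 1 → A.valuation (g x - x) < 1) → act W Ω g (R P) - R P = 0) ∧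
      ∀ (P P' : W.Point) (T : (WeierstrassCurve.Affine.baseChange W Ω).Point), q • T = 0 →
        (∀ g : Ω ≃ₐ[K] Ω, (act W Ω g (R P) - R P) - (act W Ω g (R P') - R P') =
          act W Ω g T - T) → ∃ P'' : W.Point, P - P' = q • P'' := by
  have hdiv : ∀ P : W.Point, ∃ R : (WeierstrassCurve.Affine.baseChange W Ω).Point,
      q • R = M3_map W Ω P := fun P =>
    divisible (W := WeierstrassCurve.Affine.baseChange W Ω) q hq (M3_map W Ω P)
  choose R hR using hdiv
  have hact : ∀ (g : Ω ≃ₐ[K] Ω) (P : (WeierstrassCurve.Affine.baseChange W Ω).Point),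
      act W Ω g P = rho W g P := fun g P => rfl
  refine ⟨R, fun P => ⟨⟨fun g h => ?_, ?_⟩, fun g => ?_, fun A hA g hg => ?_⟩, ?_⟩
  · have h1 : act W Ω (g * h) (R P) = act W Ω g (act W Ω h (R P)) := by
      rw [hact, hact, hact, map_mul]
      rfl
    simp only [h1, map_sub]
    abel
  · have hfd : FiniteDimensional K (IntermediateField.adjoin K {xc (R P), yc (R P)}) :=
      IntermediateField.finiteDimensional_adjoin_pair
        (Algebra.IsIntegral.isIntegral _) (Algebra.IsIntegral.isIntegral _)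
    refine ⟨IntermediateField.adjoin K {xc (R P), yc (R P)}, hfd, fun g hg => ?_⟩
    have hx : g (xc (R P)) = xc (R P) := (IntermediateField.mem_fixingSubgroup_iff _ g).1 hg _
      (IntermediateField.subset_adjoin K _ (by simp))
    have hy : g (yc (R P)) = yc (R P) := (IntermediateField.mem_fixingSubgroup_iff _ g).1 hg _
      (IntermediateField.subset_adjoin K _ (by simp))
    have h1 : act W Ω g (R P) = R P := by
      rw [hact]
      by_cases h0 : R P = 0
      · rw [h0, map_zero]
      · refine pt_ext (SE3_ne h0) h0 ?_ ?_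
        · rw [SE3_xc, hx]
        · rw [SE3_yc, hy]
    simp only [h1, sub_self]
  · rw [nsmul_sub, ← map_nsmul, hR, hact, M3_fix, sub_self]
  · obtain ⟨h4, h6, hΔ⟩ := hgood A hA
    have hΔ' : A.valuation (WeierstrassCurve.Affine.baseChange W Ω).Δ = 1 := by
      change A.valuation (WeierstrassCurve.map W (algebraMap K Ω)).Δ = 1
      rw [WeierstrassCurve.map_Δ]
      exact hΔ
    have h1 : InE1 A.valuation (act W Ω g (R P) - R P) := by
      refine pt_inert (W := WeierstrassCurve.Affine.baseChange W Ω) h4 h6 hΔ'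
        (g : Ω ≃+* Ω).toRingHom hg ?_ ?_ ?_
      · constructor
        · intro h
          rw [h, map_zero]
        · intro h
          by_contra h0
          exact SE3_ne h0 h
      · rw [hact, SE3_xc]
        rfl
      · rw [hact, SE3_yc]
        rfl
    refine tors_inj (W := WeierstrassCurve.Affine.baseChange W Ω) h4 h6 q (SE3_dvd hA hqb) ?_ h1
    rw [nsmul_sub, ← map_nsmul, hR, hact, M3_fix, sub_self]
  · intro P P' T hT h
    have hcl : IsAlgClosure K Ω := ⟨inferInstance, inferInstance⟩
    have hno : Normal K Ω := IsAlgClosure.normal K Ω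
    have hgal : IsGalois K Ω := { }
    have hfix : ∀ g : Ω ≃ₐ[K] Ω, rho W g (R P - R P' - T) = R P - R P' - T := by
      intro g
      have h1 := h g
      rw [hact, hact, hact] at h1
      rw [map_sub, map_sub]
      have h2 : rho W g (R P) - rho W g (R P') - rho W g T - (R P - R P' - T) =
          ((rho W g (R P) - R P) - (rho W g (R P') - R P')) - (rho W g T - T) := by abel
      have h3 : rho W g (R P) - rho W g (R P') - rho W g T - (R P - R P' - T) = 0 := by
        rw [h2, h1, sub_self]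
      exact sub_eq_zero.1 h3
    obtain ⟨x, hx⟩ := (InfiniteGalois.mem_range_algebraMap_iff_fixed (k := K) (xc (R P - R P' - T))).2 (by
      intro g
      have h1 := SE3_xc g (R P - R P' - T)
      rw [hfix] at h1
      exact h1.symm)
    obtain ⟨y, hy⟩ := (InfiniteGalois.mem_range_algebraMap_iff_fixed (k := K) (yc (R P - R P' - T))).2 (by
      intro g
      have h1 := SE3_yc g (R P - R P' - T)
      rw [hfix] at h1
      exact h1.symm)
    obtain ⟨Q, hQ⟩ := M3_lift hx hy
    refine ⟨Q, M3_inj (Ω := Ω) ?_⟩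
    rw [map_sub, map_nsmul, hQ, ← hR, ← hR, nsmul_sub, nsmul_sub, hT, sub_zero]

end H16F
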