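import Pool.Agent.Lib.H16F.M1
import Pool.Agent.Lib.H16F.M2
import Pool.Agent.Lib.H16F.M3

/-!
# M4 (M): the family of cocycles

`y ∈ (ℤ/q)^s ↦ c_y` = the cocycle of `sha_rep` for `x = f y` (`q • f y = f (q • y) = 0`), `i : Fin m ↦ κ_i` = the cocycle
`g ↦ g R_i - R_i` of `mw_rep` for the point `P i` of `mw_quot`.  `c_(y,i) = c_y + κ_i`.
It is a continuous cocycle (`isCocycle_add`), `q`-torsion, and vanishes at the inert elements of the good places.
Injectivity: let `c_y + κ_i = c_y' + κ_j`.  Then `c_y - c_y' = κ_j - κ_i` is the coboundary of the point `R_j - R_i`, so the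
classes `f y` and `f y'` in `Sha` are equal (`QuotientAddGroup.eq`, `BSha`), `y = y'`; then `κ_i = κ_j`, and the last
clause of `mw_rep` with `T = 0` gives `P i - P j = q • P''`, so `i = j`.
-/

open NumberField IsDedekindDomain WeierstrassCurve

namespace H16F

open H16C

open Classical in
theorem family {K : Type*} [Field K] [NumberField K] {Ω : Type*} [Field Ω] [Algebra K Ω]
    [IsAlgClosed Ω] [Algebra.IsAlgebraic K Ω] [CharZero Ω] (W : WeierstrassCurve.Affine K)
    [W.IsShortNF] [W.IsElliptic] (q b : ℕ) [Fact q.Prime] (hqb : q ∣ b)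
    (hgood : ∀ A : ValuationSubring Ω, A.valuation (b : Ω) = 1 →
      A.valuation (algebraMap K Ω W.a₄) ≤ 1 ∧ A.valuation (algebraMap K Ω W.a₆) ≤ 1 ∧
        A.valuation (algebraMap K Ω W.Δ) = 1)
    (s : ℕ) (f : (Fin s → ZMod q) →+ Sha W Ω) (hf : Function.Injective f) :
    ∃ (m : ℕ) (c : (Fin s → ZMod q) × Fin m →
        (Ω ≃ₐ[K] Ω) → (WeierstrassCurve.Affine.baseChange W Ω).Point),
      q ^ Module.finrank ℤ W.Point ≤ m ∧ Function.Injective c ∧
      ∀ i, IsCocycle W Ω (c i) ∧ (∀ g, q • c i g = 0) ∧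
        ∀ A : ValuationSubring Ω, A.valuation (b : Ω) = 1 → ∀ g : Ω ≃ₐ[K] Ω,
          (∀ x, A.valuation x ≤ 1 → A.valuation (g x - x) < 1) → c i g = 0 := by
  have hq : 0 < q := (Fact.out : q.Prime).pos
  have hx : ∀ y, q • f y = 0 := by
    intro y
    have h0 : q • y = 0 := by
      funext i
      show q • y i = 0
      rw [nsmul_eq_mul, ZMod.natCast_self, zero_mul]
    rw [← map_nsmul, h0, map_zero]
  choose c hcZ hcx hct hcA using fun y => sha_rep W q b hq hqb hgood (f y) (hx y)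
  obtain ⟨R, hR1, hR2⟩ := mw_rep W q b hq hqb hgood
  obtain ⟨-, m, P, hm, hP⟩ := mw_quot W q
  refine ⟨m, fun yi g => c yi.1 g + (act W Ω g (R (P yi.2)) - R (P yi.2)), hm, ?_, ?_⟩
  · rintro ⟨y, i⟩ ⟨y', j⟩ h
    have hg : ∀ g : Ω ≃ₐ[K] Ω, c y g + (act W Ω g (R (P i)) - R (P i)) =
        c y' g + (act W Ω g (R (P j)) - R (P j)) := fun g => congrFun h g
    have hfe : f y = f y' := by
      rw [← hcx y, ← hcx y']
      refine QuotientAddGroup.eq.2 ?_
      show (-(⟨c y, hcZ y⟩ : ZSha W Ω) + ⟨c y', hcZ y'⟩ : ZSha W Ω).1 ∈ BSha W Ω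
      show IsCoboundary W Ω (-(c y) + c y')
      refine ⟨R (P i) - R (P j), fun g => ?_⟩
      show -(c y g) + c y' g = _
      rw [map_sub]
      have := hg g
      have h2 : c y' g = c y g + (act W Ω g (R (P i)) - R (P i)) -
        (act W Ω g (R (P j)) - R (P j)) := by
        rw [this]
        abel
      rw [h2]
      abel
    have hy : y = y' := hf hfe
    subst hy
    have hij : i = j := by
      obtain ⟨P'', hP''⟩ := hR2 (P i) (P j) 0 (smul_zero _) (fun g => by
        rw [map_zero, sub_zero]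
        exact sub_eq_zero.2 (add_left_cancel (hg g)))
      exact hP i j P'' hP''
    rw [hij]
  · rintro ⟨y, i⟩
    obtain ⟨h1, h2, h3⟩ := hR1 (P i)
    refine ⟨isCocycle_add W Ω (hcZ y).1 h1, fun g => ?_, fun A hA g hg => ?_⟩
    · show q • (c y g + (act W Ω g (R (P i)) - R (P i))) = 0
      rw [nsmul_add, hct y g, h2 g, add_zero]
    · show c y g + (act W Ω g (R (P i)) - R (P i)) = 0
      rw [hcA y A hA g hg, h3 A hA g hg, add_zero]

end H16F
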