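import Mathlib

/-!
# N1 (S, pure linear algebra): a nilpotent endomorphism with small kernel

`T ^ N = 0`, `dim ker T ≤ d` implies `dim V ≤ N d` (`V` may be infinite dimensional a priori, so
everything is in terms of the cardinal `Module.rank`).
Proof.  `dim ker T^(j+1) ≤ dim ker T^j + dim ker T`: restrict `T^j` to a linear map
`ker T^(j+1) → ker T` (`T (T^j x) = 0`); its kernel is `ker T^j` (inside `ker T^(j+1)`), its range is
contained in `ker T`; `LinearMap.rank_range_add_rank_ker`, `Submodule.rank_mono` (`Submodule.rank_le`).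
Induction: `dim ker T^j ≤ j d`.  For `j = N`: `ker T^N = ⊤`.
(Or induction on `N` for all pairs `(V, T)`, with the submodule `range T`: `T` is nilpotent of exponent
`N - 1` on it, its kernel there is in `ker T`, and `dim V = dim range T + dim ker T`.)
-/

namespace H16F

theorem n1_step {K V : Type*} [Field K] [AddCommGroup V] [Module K V] (T : V →ₗ[K] V) (j : ℕ) :
    Module.rank K (LinearMap.ker (T ^ (j + 1))) ≤
      Module.rank K (LinearMap.ker T) + Module.rank K (LinearMap.ker (T ^ j)) := by
  have h1 : ∀ x : LinearMap.ker (T ^ (j + 1)), (T ^ j) x.1 ∈ LinearMap.ker T := by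
    intro x
    rw [LinearMap.mem_ker, ← Module.End.mul_apply, ← pow_succ']
    exact x.2
  let φ : LinearMap.ker (T ^ (j + 1)) →ₗ[K] LinearMap.ker T :=
    ((T ^ j).comp (LinearMap.ker (T ^ (j + 1))).subtype).codRestrict _ h1
  have h2 := LinearMap.rank_range_add_rank_ker φ
  rw [← h2]
  refine add_le_add (Submodule.rank_le _) ?_
  have h3 : ∀ y : LinearMap.ker φ, (y.1.1 : V) ∈ LinearMap.ker (T ^ j) := by
    intro y
    have h4 : φ y.1 = 0 := y.2
    have h5 := congrArg Subtype.val h4
    exact h5
  let ψ : LinearMap.ker φ →ₗ[K] LinearMap.ker (T ^ j) :=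
    ((LinearMap.ker (T ^ (j + 1))).subtype.comp (LinearMap.ker φ).subtype).codRestrict _ h3
  refine LinearMap.rank_le_of_injective ψ ?_
  intro a b hab
  have h6 := congrArg Subtype.val hab
  exact Subtype.ext (Subtype.ext h6)

theorem rank_nilp {K V : Type*} [Field K] [AddCommGroup V] [Module K V] (T : V →ₗ[K] V) (N d : ℕ)
    (hN : T ^ N = 0) (hd : Module.rank K (LinearMap.ker T) ≤ (d : Cardinal)) :
    Module.rank K V ≤ ((N * d : ℕ) : Cardinal) := by
  have key : ∀ j : ℕ, Module.rank K (LinearMap.ker (T ^ j)) ≤ ((j * d : ℕ) : Cardinal) := by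
    intro j
    induction j with
    | zero =>
      have h1 : LinearMap.ker (T ^ 0) = ⊥ := by
        rw [pow_zero]
        exact LinearMap.ker_id
      rw [h1]
      simp
    | succ j ih =>
      refine (n1_step T j).trans ((add_le_add hd ih).trans_eq ?_)
      rw [← Nat.cast_add]
      congr 1
      ring
  have h1 := key N
  rw [hN, LinearMap.ker_zero, rank_top] at h1
  exact h1

end H16F
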