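import Pool.Agent.Lib.H16F.Defs
import Pool.Agent.Lib.H16C.VC

/-!
# N2 (M): conjugation by `τ` on the homomorphisms `H' → ℤ/q`

`(U f) g = f (τ⁻¹ g τ)` is a linear map `HM q R H' → HM q R H'`:
* homomorphism: clear;
* continuous: if `f = 0` on `H' ∩ Gal(Ω/F)` then `U f = 0` on `H' ∩ Gal(Ω/τF)`, `τF = F.map τ`
  (finite dimensional): for `g` fixing `τF`, `τ⁻¹ g τ` fixes `F`;
* unramified: let `v_A R = 1`, `g ∈ H'` inert at `A`.  `VC.exists_comap A τ` gives `A'` with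
  `v_{A'} x ≤ v_{A'} y ↔ v_A (τ x) ≤ v_A (τ y)`; `v_{A'} R = 1` (`τ R = R`), and `τ⁻¹ g τ` is inert at `A'`:
  if `v_{A'} x ≤ 1` then `v_A (τ x) ≤ 1`, so `v_A (g τ x - τ x) < 1`, so `v_{A'} (τ⁻¹ g τ x - x) < 1`.
`U ^ q = 1`: `(U ^ q f) g = f (τ^(-q) g τ^q) = f g`, since `τ^q ∈ H'` and `f` is a homomorphism to a
commutative group.  `T = U - 1`: in characteristic `q`, `(U - 1)^q = U^q - 1 = 0`: apply `aeval U` to
`(X - 1)^q = X^q - 1` in `(ZMod q)[X]` (`sub_pow_char`, or `sub_pow_expChar`), or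
`Commute.sub_pow...`/`sub_pow_char_of_commute` in `Module.End (ZMod q) V`.
`T f = 0` means `f (τ⁻¹ g τ) = f g`.
-/

open WeierstrassCurve NumberField IsDedekindDomain

namespace H16F

open H16C

variable {k : Type*} [Field k] {Ω : Type*} [Field Ω] [Algebra k Ω]

/-- Conjugation. -/
def n2_c {H' : Subgroup (Ω ≃ₐ[k] Ω)} {τ : Ω ≃ₐ[k] Ω} (hn : ∀ g ∈ H', τ⁻¹ * g * τ ∈ H') (g : H') : H' :=
  ⟨τ⁻¹ * g * τ, hn g g.2⟩

theorem n2_c_mul {H' : Subgroup (Ω ≃ₐ[k] Ω)} {τ : Ω ≃ₐ[k] Ω} (hn : ∀ g ∈ H', τ⁻¹ * g * τ ∈ H') (g h : H') :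
    n2_c hn (g * h) = n2_c hn g * n2_c hn h := by
  apply Subtype.ext
  show τ⁻¹ * ((g : Ω ≃ₐ[k] Ω) * h) * τ = (τ⁻¹ * g * τ) * (τ⁻¹ * h * τ)
  simp only [mul_assoc, mul_inv_cancel_left]

theorem n2_mem {q R : ℕ} {H' : Subgroup (Ω ≃ₐ[k] Ω)} {τ : Ω ≃ₐ[k] Ω} (hn : ∀ g ∈ H', τ⁻¹ * g * τ ∈ H')
    (f : HM q R H') : (fun g : H' => (f : H' → ZMod q) (n2_c hn g)) ∈ HM q R H' := by
  refine ⟨?_, ?_, ?_⟩
  · intro g h
    show (f : H' → ZMod q) (n2_c hn (g * h)) = _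
    rw [n2_c_mul]
    exact HM_mul f _ _
  · obtain ⟨F, hF, h1⟩ := f.2.2.1
    refine ⟨F.map (τ : Ω →ₐ[k] Ω), inferInstance, fun g hg => ?_⟩
    refine h1 _ ?_
    rw [IntermediateField.mem_fixingSubgroup_iff] at hg ⊢
    intro x hx
    have h2 : (g : Ω ≃ₐ[k] Ω) (τ x) = τ x := hg (τ x) ⟨x, hx, rfl⟩
    show τ⁻¹ ((g : Ω ≃ₐ[k] Ω) (τ x)) = x
    rw [h2]
    exact τ.symm_apply_apply x
  · intro A hA g hg
    obtain ⟨A', hA'⟩ := exists_comap A τ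
    have hR : A'.valuation (R : Ω) = 1 := by
      have h1 := (VC_eq hA' (R : Ω) 1).2 (by rw [map_natCast, map_one, hA, map_one])
      rw [h1, map_one]
    refine HM_inert f hR ?_
    intro x _ hx
    have h1 : A.valuation (τ x) ≤ 1 := by
      have h2 := (hA' x 1).1 (by rw [map_one]; exact hx)
      rwa [map_one, map_one] at h2
    have h3 := hg (τ x) IntermediateField.mem_top h1
    have h4 : A'.valuation ((n2_c hn g : Ω ≃ₐ[k] Ω) x - x) < A'.valuation 1 := by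
      refine (VC_lt hA' _ _).2 ?_
      have h5 : τ ((n2_c hn g : Ω ≃ₐ[k] Ω) x - x) = (g : Ω ≃ₐ[k] Ω) (τ x) - τ x := by
        rw [map_sub]
        congr 1
        exact τ.apply_symm_apply _
      rw [h5, map_one, map_one]
      exact h3
    rwa [map_one] at h4

/-- The operator. -/
def n2_U (q R : ℕ) {H' : Subgroup (Ω ≃ₐ[k] Ω)} {τ : Ω ≃ₐ[k] Ω} (hn : ∀ g ∈ H', τ⁻¹ * g * τ ∈ H') :
    HM q R H' →ₗ[ZMod q] HM q R H' where
  toFun f := ⟨fun g : H' => (f : H' → ZMod q) (n2_c hn g), n2_mem hn f⟩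
  map_add' _ _ := rfl
  map_smul' _ _ := rfl

theorem n2_U_apply {q R : ℕ} {H' : Subgroup (Ω ≃ₐ[k] Ω)} {τ : Ω ≃ₐ[k] Ω} (hn : ∀ g ∈ H', τ⁻¹ * g * τ ∈ H')
    (f : HM q R H') (g : H') : (n2_U q R hn f : H' → ZMod q) g = (f : H' → ZMod q) (n2_c hn g) := rfl

theorem n2_U_pow {q R : ℕ} {H' : Subgroup (Ω ≃ₐ[k] Ω)} {τ : Ω ≃ₐ[k] Ω} (hn : ∀ g ∈ H', τ⁻¹ * g * τ ∈ H') (n : ℕ)
    (f : HM q R H') : ∀ g g' : H', (g' : Ω ≃ₐ[k] Ω) = τ⁻¹ ^ n * g * τ ^ n →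
      ((n2_U q R hn ^ n) f : H' → ZMod q) g = (f : H' → ZMod q) g' := by
  induction n generalizing f with
  | zero =>
    intro g g' h
    have h1 : g' = g := Subtype.ext (by rw [h]; simp)
    rw [h1]
    rfl
  | succ n ih =>
    intro g g' h
    rw [pow_succ, Module.End.mul_apply]
    have h2 : ∃ g'' : H', (g'' : Ω ≃ₐ[k] Ω) = τ⁻¹ ^ n * g * τ ^ n := by
      clear h ih
      induction n with
      | zero => exact ⟨g, by simp⟩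
      | succ n ih =>
        obtain ⟨g'', h⟩ := ih
        refine ⟨n2_c hn g'', ?_⟩
        show τ⁻¹ * (g'' : Ω ≃ₐ[k] Ω) * τ = _
        rw [h, pow_succ', pow_succ]
        simp only [mul_assoc]
    obtain ⟨g'', h2⟩ := h2
    rw [ih (n2_U q R hn f) g g'' h2, n2_U_apply]
    have h3 : n2_c hn g'' = g' := by
      apply Subtype.ext
      show τ⁻¹ * (g'' : Ω ≃ₐ[k] Ω) * τ = g'
      rw [h, h2, pow_succ', pow_succ]
      simp only [mul_assoc]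
    rw [h3]

theorem n2_one {q R : ℕ} {H' : Subgroup (Ω ≃ₐ[k] Ω)} {τ : Ω ≃ₐ[k] Ω} (hn : ∀ g ∈ H', τ⁻¹ * g * τ ∈ H')
    (hq : τ ^ q ∈ H') : n2_U q R hn ^ q = 1 := by
  refine LinearMap.ext fun f => Subtype.ext (funext fun g => ?_)
  rw [n2_U_pow hn q f g ((⟨τ ^ q, hq⟩ : H')⁻¹ * g * ⟨τ ^ q, hq⟩) (by
    show (τ ^ q)⁻¹ * (g : Ω ≃ₐ[k] Ω) * τ ^ q = _
    rw [inv_pow])]
  rw [HM_mul, HM_mul]
  have h1 := HM_mul f (⟨τ ^ q, hq⟩ : H')⁻¹ ⟨τ ^ q, hq⟩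
  rw [inv_mul_cancel] at h1
  have h2 := HM_mul f (1 : H') 1
  rw [mul_one] at h2
  have h3 : (f : H' → ZMod q) 1 = 0 := left_eq_add.1 h2
  rw [h3] at h1
  show _ = (f : H' → ZMod q) g
  linear_combination -h1

theorem n2_nil {q : ℕ} [Fact q.Prime] {V : Type*} [AddCommGroup V] [Module (ZMod q) V] (U : V →ₗ[ZMod q] V)
    (h : U ^ q = 1) : (U - 1) ^ q = 0 := by
  have h1 : (Polynomial.X - 1 : Polynomial (ZMod q)) ^ q = Polynomial.X ^ q - 1 := by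
    rw [sub_pow_char, one_pow]
  have h2 := congrArg (Polynomial.aeval U) h1
  simp only [map_pow, map_sub, map_one, Polynomial.aeval_X] at h2
  rw [h2, h, sub_self]

theorem conj_op {q R : ℕ} [Fact q.Prime] {H' : Subgroup (Ω ≃ₐ[k] Ω)} {τ : Ω ≃ₐ[k] Ω}
    (hn : ∀ g ∈ H', τ⁻¹ * g * τ ∈ H') (hq : τ ^ q ∈ H') :
    ∃ T : HM q R H' →ₗ[ZMod q] HM q R H', T ^ q = 0 ∧ ∀ f : HM q R H', T f = 0 →
      ∀ g g' : H', (g' : Ω ≃ₐ[k] Ω) = τ⁻¹ * g * τ →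
        (f : H' → ZMod q) g' = (f : H' → ZMod q) g := by
  refine ⟨n2_U q R hn - 1, n2_nil _ (n2_one hn hq), fun f hf g g' h => ?_⟩
  have h1 : n2_U q R hn f = f := sub_eq_zero.1 hf
  have h2 := congrFun (congrArg Subtype.val h1) g
  have h3 : g' = n2_c hn g := Subtype.ext h
  rw [h3]
  exact h2

end H16F
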