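import Pool.Agent.Lib.H16F.Defs

/-!
# N3 (M): extension of an invariant homomorphism to an overgroup

`H = ⋃ τ^i H'`.  For `g ∈ H` choose `i` with `τ^(-i) g ∈ H'` and put `F(g) = f(τ^(-i) g)`.
* `τ^i ∈ H'` implies `q ∣ i` (`τ ∉ H'`, `τ^q ∈ H'`, `q` prime: otherwise `τ = τ^(u i + v q) ∈ H'`), and
  then `f(τ^i) = (i/q) f(τ^q) = 0`.
* `F` does not depend on `i`: if `i ≤ j` and `τ^(-i) g, τ^(-j) g ∈ H'` then
  `τ^(-i) g = τ^(j-i) (τ^(-j) g)`, so `τ^(j-i) ∈ H'`, `f(τ^(j-i)) = 0`.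
* `f` is invariant under conjugation by `τ`, hence by `τ^j`: `f(τ^(-j) x τ^j) = f x` for `x ∈ H'`.
* `F(g g') = f(τ^(-(i+j)) g g') = f(τ^(-j) (τ^(-i) g) τ^j · τ^(-j) g') = F(g) + F(g')`.
* `F = f` on `H'` (`i = 0`).
* continuous: `hopen` gives `F₂` with `Gal(Ω/F₂) ⊆ H'`, `f = 0` on `H' ∩ Gal(Ω/F₁)`; take `F₁ ⊔ F₂`.
* unramified: an inert element `g ∈ H` at a good place is in `H'` (`hin`), so `F g = f g = 0`.
-/

open WeierstrassCurve NumberField IsDedekindDomain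

namespace H16F

open H16C

section grp

variable {G : Type*} [Group G] {q : ℕ}

theorem n3_dvd [Fact q.Prime] {H' : Subgroup G} {τ : G} (hq : τ ^ q ∈ H') (hτ' : τ ∉ H') {i : ℕ}
    (hi : τ ^ i ∈ H') : q ∣ i := by
  by_contra hd
  have hc : IsCoprime (q : ℤ) (i : ℤ) :=
    Nat.isCoprime_iff_coprime.2 ((Fact.out : q.Prime).coprime_iff_not_dvd.2 hd)
  obtain ⟨a, b, hab⟩ := hc
  apply hτ'
  have h1 : τ = (τ ^ q) ^ a * (τ ^ i) ^ b := by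
    rw [← zpow_natCast, ← zpow_natCast, ← zpow_mul, ← zpow_mul, ← zpow_add, mul_comm, mul_comm (i : ℤ), hab, zpow_one]
  rw [h1]
  exact H'.mul_mem (H'.zpow_mem hq a) (H'.zpow_mem hi b)

theorem n3_conj {H' : Subgroup G} {τ : G} (hn : ∀ g ∈ H', τ⁻¹ * g * τ ∈ H') (j : ℕ) :
    ∀ x ∈ H', τ⁻¹ ^ j * x * τ ^ j ∈ H' := by
  induction j with
  | zero =>
    intro x hx
    simpa using hx
  | succ j ih =>
    intro x hx
    have h1 : τ⁻¹ ^ (j + 1) * x * τ ^ (j + 1) = τ⁻¹ ^ j * (τ⁻¹ * x * τ) * τ ^ j := by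
      rw [pow_succ, pow_succ']
      simp only [mul_assoc]
    rw [h1]
    exact ih _ (hn x hx)

theorem n3_inv {H' : Subgroup G} {τ : G} (hn : ∀ g ∈ H', τ⁻¹ * g * τ ∈ H') {fe : G → ZMod q}
    (hinv : ∀ g ∈ H', fe (τ⁻¹ * g * τ) = fe g) (j : ℕ) : ∀ x ∈ H', fe (τ⁻¹ ^ j * x * τ ^ j) = fe x := by
  induction j with
  | zero =>
    intro x _
    simp
  | succ j ih =>
    intro x hx
    have h1 : τ⁻¹ ^ (j + 1) * x * τ ^ (j + 1) = τ⁻¹ ^ j * (τ⁻¹ * x * τ) * τ ^ j := by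
      rw [pow_succ, pow_succ']
      simp only [mul_assoc]
    rw [h1, ih _ (hn x hx), hinv x hx]

theorem n3_pow [Fact q.Prime] {H' : Subgroup G} {τ : G} (hq : τ ^ q ∈ H') (hτ' : τ ∉ H') {fe : G → ZMod q}
    (hm : ∀ g ∈ H', ∀ h ∈ H', fe (g * h) = fe g + fe h) (h0 : fe (τ ^ q) = 0) {i : ℕ} (hi : τ ^ i ∈ H') :
    fe (τ ^ i) = 0 := by
  obtain ⟨m, rfl⟩ := n3_dvd hq hτ' hi
  rw [pow_mul]
  clear hi
  induction m with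
  | zero =>
    rw [pow_zero]
    have h1 := hm 1 H'.one_mem 1 H'.one_mem
    rw [mul_one] at h1
    exact left_eq_add.1 h1
  | succ m ih =>
    rw [pow_succ, hm _ (H'.pow_mem hq m) _ hq, ih, h0, add_zero]

theorem n3_indep [Fact q.Prime] {H' : Subgroup G} {τ : G} (hq : τ ^ q ∈ H') (hτ' : τ ∉ H') {fe : G → ZMod q}
    (hm : ∀ g ∈ H', ∀ h ∈ H', fe (g * h) = fe g + fe h) (h0 : fe (τ ^ q) = 0) {g : G} {i j : ℕ}
    (hij : i ≤ j) (hi : τ⁻¹ ^ i * g ∈ H') (hj : τ⁻¹ ^ j * g ∈ H') : fe (τ⁻¹ ^ i * g) = fe (τ⁻¹ ^ j * g) := by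
  obtain ⟨m, rfl⟩ := Nat.exists_eq_add_of_le hij
  have e : τ⁻¹ ^ i * g = τ ^ m * (τ⁻¹ ^ (i + m) * g) := by
    rw [add_comm, pow_add, inv_pow τ m, mul_assoc, mul_inv_cancel_left]
  have h1 : τ ^ m ∈ H' := by
    have h2 : τ ^ m = (τ⁻¹ ^ i * g) * (τ⁻¹ ^ (i + m) * g)⁻¹ := by
      rw [e]
      group
    rw [h2]
    exact H'.mul_mem hi (H'.inv_mem hj)
  rw [e, hm _ h1 _ hj, n3_pow hq hτ' hm h0 h1, zero_add]

theorem n3_indep' [Fact q.Prime] {H' : Subgroup G} {τ : G} (hq : τ ^ q ∈ H') (hτ' : τ ∉ H') {fe : G → ZMod q}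
    (hm : ∀ g ∈ H', ∀ h ∈ H', fe (g * h) = fe g + fe h) (h0 : fe (τ ^ q) = 0) {g : G} {i j : ℕ}
    (hi : τ⁻¹ ^ i * g ∈ H') (hj : τ⁻¹ ^ j * g ∈ H') : fe (τ⁻¹ ^ i * g) = fe (τ⁻¹ ^ j * g) := by
  rcases le_total i j with h | h
  · exact n3_indep hq hτ' hm h0 h hi hj
  · exact (n3_indep hq hτ' hm h0 h hj hi).symm

/-- The extension of a homomorphism, pure group theory. -/
theorem n3_ext [Fact q.Prime] {H' H : Subgroup G} {τ : G} (hn : ∀ g ∈ H', τ⁻¹ * g * τ ∈ H') (hq : τ ^ q ∈ H')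
    (hτ' : τ ∉ H') (hgen : ∀ g ∈ H, ∃ i : ℕ, τ⁻¹ ^ i * g ∈ H') {fe : G → ZMod q}
    (hm : ∀ g ∈ H', ∀ h ∈ H', fe (g * h) = fe g + fe h) (hinv : ∀ g ∈ H', fe (τ⁻¹ * g * τ) = fe g)
    (h0 : fe (τ ^ q) = 0) : ∃ F : G → ZMod q, (∀ g ∈ H, ∀ h ∈ H, F (g * h) = F g + F h) ∧ ∀ g ∈ H, g ∈ H' → F g = fe g := by
  have hgen' : ∀ g : G, ∃ i : ℕ, g ∈ H → τ⁻¹ ^ i * g ∈ H' := by
    intro g
    by_cases hg : g ∈ H
    · obtain ⟨i, hi⟩ := hgen g hg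
      exact ⟨i, fun _ => hi⟩
    · exact ⟨0, fun h => absurd h hg⟩
  choose I hI using hgen'
  refine ⟨fun g => fe (τ⁻¹ ^ I g * g), ?_, ?_⟩
  · intro g hg h hh
    have hx := hI g hg
    have hy := hI h hh
    have e : τ⁻¹ ^ (I g + I h) * (g * h) = (τ⁻¹ ^ I h * (τ⁻¹ ^ I g * g) * τ ^ I h) * (τ⁻¹ ^ I h * h) := by
      rw [add_comm, pow_add]
      simp only [mul_assoc, inv_pow, mul_inv_cancel_left]
    have hc := n3_conj hn (I h) _ hx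
    have h1 : τ⁻¹ ^ (I g + I h) * (g * h) ∈ H' := by
      rw [e]
      exact H'.mul_mem hc hy
    show fe (τ⁻¹ ^ I (g * h) * (g * h)) = fe (τ⁻¹ ^ I g * g) + fe (τ⁻¹ ^ I h * h)
    rw [n3_indep' hq hτ' hm h0 (hI _ (H.mul_mem hg hh)) h1, e, hm _ hc _ hy, n3_inv hn hinv (I h) _ hx]
  · intro g hg hg'
    have h1 : τ⁻¹ ^ 0 * g ∈ H' := by
      rw [pow_zero, one_mul]
      exact hg'
    have h2 := n3_indep' hq hτ' hm h0 (hI g hg) h1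
    rw [pow_zero, one_mul] at h2
    exact h2

end grp

variable {k : Type*} [Field k] {Ω : Type*} [Field Ω] [Algebra k Ω]

theorem extend {q R : ℕ} [Fact q.Prime] {H' H : Subgroup (Ω ≃ₐ[k] Ω)} (hle : H' ≤ H)
    {τ : Ω ≃ₐ[k] Ω} (hn : ∀ g ∈ H', τ⁻¹ * g * τ ∈ H') (hq : τ ^ q ∈ H')
    (hτ' : τ ∉ H') (hgen : ∀ g ∈ H, ∃ i : ℕ, τ⁻¹ ^ i * g ∈ H')
    (hin : ∀ A : ValuationSubring Ω, A.valuation (R : Ω) = 1 → ∀ g ∈ H, Inert A ⊤ g → g ∈ H')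
    (hopen : ∃ F : IntermediateField k Ω, FiniteDimensional k F ∧ F.fixingSubgroup ≤ H')
    (f : HM q R H')
    (hinv : ∀ g g' : H', (g' : Ω ≃ₐ[k] Ω) = τ⁻¹ * g * τ →
      (f : H' → ZMod q) g' = (f : H' → ZMod q) g)
    (h0 : (f : H' → ZMod q) ⟨τ ^ q, hq⟩ = 0) :
    ∃ F : HM q R H, ∀ g : H', (F : H → ZMod q) ⟨g, hle g.2⟩ = (f : H' → ZMod q) g := by
  classical
  obtain ⟨fe, hfe⟩ : ∃ fe : (Ω ≃ₐ[k] Ω) → ZMod q, ∀ g (hg : g ∈ H'), fe g = (f : H' → ZMod q) ⟨g, hg⟩ :=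
    ⟨fun g => if hg : g ∈ H' then (f : H' → ZMod q) ⟨g, hg⟩ else 0, fun g hg => dif_pos hg⟩
  have hm : ∀ g ∈ H', ∀ h ∈ H', fe (g * h) = fe g + fe h := by
    intro g hg h hh
    rw [hfe g hg, hfe h hh, hfe _ (H'.mul_mem hg hh)]
    exact HM_mul f ⟨g, hg⟩ ⟨h, hh⟩
  have hinv' : ∀ g ∈ H', fe (τ⁻¹ * g * τ) = fe g := by
    intro g hg
    rw [hfe g hg, hfe _ (hn g hg)]
    exact hinv ⟨g, hg⟩ ⟨τ⁻¹ * g * τ, hn g hg⟩ rfl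
  have h0' : fe (τ ^ q) = 0 := by
    rw [hfe _ hq]
    exact h0
  obtain ⟨F, hF1, hF2⟩ := n3_ext hn hq hτ' hgen hm hinv' h0'
  refine ⟨⟨fun g : H => F g, ?_, ?_, ?_⟩, ?_⟩
  · intro g h
    exact hF1 g g.2 h h.2
  · obtain ⟨F₂, hfd, h2⟩ := hopen
    obtain ⟨F₁, hfd1, h1⟩ := f.2.2.1
    refine ⟨F₁ ⊔ F₂, inferInstance, fun g hg => ?_⟩
    rw [IntermediateField.fixingSubgroup_sup] at hg
    have hg' : (g : Ω ≃ₐ[k] Ω) ∈ H' := h2 hg.2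
    show F g = 0
    rw [hF2 g g.2 hg', hfe _ hg']
    exact h1 ⟨g, hg'⟩ hg.1
  · intro A hA g hg
    have hg' := hin A hA g g.2 hg
    show F g = 0
    rw [hF2 g g.2 hg', hfe _ hg']
    exact HM_inert f hA hg
  · intro g
    show F g = _
    rw [hF2 g (hle g.2) g.2, hfe _ g.2]

end H16F
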