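import Pool.Agent.Lib.H16F.N1
import Pool.Agent.Lib.H16F.N2
import Pool.Agent.Lib.H16F.N3

/-!
# N4 (M): one step, index `q`

`H' ⊂ H` normal of index `q`: pick `τ ∈ H`, `τ ∉ H'`.  `H/H'` has prime order, so `τ^q ∈ H'` and every
`g ∈ H` is in some `τ^i H'` (e.g. in the group `H ⧸ H'.subgroupOf H` of order `q`: `zpowers` of a
nontrivial element is everything, `isCyclic_of_prime_card`, `mem_powers_of_prime_card`).
`conj_op` gives `T`, `T^q = 0`.  `dim ker T ≤ d + 1`: let `ψ : ker T → ℤ/q`, `ψ f = f(τ^q)` (linear);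
`dim ker T = dim range ψ + dim ker ψ ≤ 1 + dim ker ψ`.  Let `res : HM q R H → (H' → ℤ/q)` be the
restriction (linear).  Every element of `ker ψ` (as a function on `H'`) is in the range of `res`
(`extend`), so `dim ker ψ ≤ dim range res ≤ dim HM q R H ≤ d` (`LinearMap.rank_le_of_injective` for
`ker ψ → range res`, `rank_range_le`).
Then `rank_nilp T q (d + 1)`.
-/

open WeierstrassCurve NumberField IsDedekindDomain

namespace H16F

open H16C

variable {k : Type*} [Field k] {Ω : Type*} [Field Ω] [Algebra k Ω]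

theorem step {q R : ℕ} [Fact q.Prime] {H' H : Subgroup (Ω ≃ₐ[k] Ω)} (hle : H' ≤ H)
    (hn : ∀ g ∈ H, ∀ h ∈ H', g * h * g⁻¹ ∈ H') (hidx : H'.relIndex H = q)
    (hin : ∀ A : ValuationSubring Ω, A.valuation (R : Ω) = 1 → ∀ g ∈ H, Inert A ⊤ g → g ∈ H')
    (hopen : ∃ F : IntermediateField k Ω, FiniteDimensional k F ∧ F.fixingSubgroup ≤ H')
    {d : ℕ} (hd : Module.rank (ZMod q) (HM q R H) ≤ (d : Cardinal)) :
    Module.rank (ZMod q) (HM q R H') ≤ ((q * (d + 1) : ℕ) : Cardinal) := by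
  have hqp : q.Prime := Fact.out
  obtain ⟨τ, hτ, hτ'⟩ : ∃ τ ∈ H, τ ∉ H' := by
    by_contra hcon
    push Not at hcon
    have h1 : H'.relIndex H = 1 := Subgroup.relIndex_eq_one.2 hcon
    rw [hidx] at h1
    exact hqp.one_lt.ne' h1
  have hN : (H'.subgroupOf H).Normal := ⟨fun h hh g => hn g g.2 h hh⟩
  have hcard : Nat.card (H ⧸ H'.subgroupOf H) = q := hidx
  have hq : τ ^ q ∈ H' := by
    have h1 : (QuotientGroup.mk (⟨τ, hτ⟩ : H) : H ⧸ H'.subgroupOf H) ^ q = 1 := by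
      rw [← hcard]
      exact pow_card_eq_one'
    rw [← QuotientGroup.mk_pow, QuotientGroup.eq_one_iff] at h1
    exact h1
  have hgen : ∀ g ∈ H, ∃ i : ℕ, τ⁻¹ ^ i * g ∈ H' := by
    intro g hg
    have h0 : (QuotientGroup.mk (⟨τ, hτ⟩ : H) : H ⧸ H'.subgroupOf H) ≠ 1 := by
      intro h
      rw [QuotientGroup.eq_one_iff] at h
      exact hτ' h
    have h1 := mem_powers_of_prime_card hcard h0
      (g' := (QuotientGroup.mk (⟨g, hg⟩ : H) : H ⧸ H'.subgroupOf H))
    obtain ⟨i, hi⟩ := h1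
    refine ⟨i, ?_⟩
    have h2 : (QuotientGroup.mk ((⟨τ, hτ⟩ : H) ^ i) : H ⧸ H'.subgroupOf H) =
        QuotientGroup.mk (⟨g, hg⟩ : H) := by
      rw [QuotientGroup.mk_pow]
      exact hi
    rw [QuotientGroup.eq] at h2
    have h3 : (τ ^ i)⁻¹ * g ∈ H' := h2
    rwa [← inv_pow] at h3
  have hn' : ∀ g ∈ H', τ⁻¹ * g * τ ∈ H' := by
    intro g hg
    have h1 := hn τ⁻¹ (H.inv_mem hτ) g hg
    rwa [inv_inv] at h1
  obtain ⟨T, hT, hT2⟩ := conj_op (R := R) hn' hq
  refine rank_nilp T q (d + 1) hT ?_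
  let ψ : LinearMap.ker T →ₗ[ZMod q] ZMod q :=
    (LinearMap.proj (⟨τ ^ q, hq⟩ : H')) ∘ₗ (HM q R H').subtype ∘ₗ (LinearMap.ker T).subtype
  let ι : LinearMap.ker ψ →ₗ[ZMod q] (H' → ZMod q) :=
    (HM q R H').subtype ∘ₗ (LinearMap.ker T).subtype ∘ₗ (LinearMap.ker ψ).subtype
  let res : HM q R H →ₗ[ZMod q] (H' → ZMod q) :=
    (LinearMap.funLeft (ZMod q) (ZMod q) (fun g : H' => (⟨g, hle g.2⟩ : H))) ∘ₗ (HM q R H).subtype
  have hι : Function.Injective ι := by
    intro f f' h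
    exact Subtype.ext (Subtype.ext (Subtype.ext h))
  have hrange : LinearMap.range ι ≤ LinearMap.range res := by
    rintro _ ⟨f, rfl⟩
    have h0 : ((f.1.1 : HM q R H') : H' → ZMod q) ⟨τ ^ q, hq⟩ = 0 := f.2
    have h1 : T f.1.1 = 0 := f.1.2
    obtain ⟨F, hF⟩ := extend hle hn' hq hτ' hgen hin hopen f.1.1 (hT2 f.1.1 h1) h0
    exact ⟨F, funext hF⟩
  have hker : Module.rank (ZMod q) (LinearMap.ker ψ) ≤ (d : Cardinal) := by
    rw [(LinearEquiv.ofInjective ι hι).rank_eq]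
    exact (Submodule.rank_mono hrange).trans ((rank_range_le res).trans hd)
  have hsum := LinearMap.lift_rank_range_add_rank_ker ψ
  have hrg : Module.rank (ZMod q) (LinearMap.range ψ) ≤ 1 := by
    have h1 := Submodule.rank_le (LinearMap.range ψ)
    rwa [Module.rank_self] at h1
  have hl : Module.rank (ZMod q) (LinearMap.ker T) =
      Cardinal.lift (Module.rank (ZMod q) (LinearMap.range ψ)) + Module.rank (ZMod q) (LinearMap.ker ψ) := by
    simpa using hsum.symm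
  rw [hl, Nat.cast_add, Nat.cast_one, add_comm]
  refine add_le_add hker ?_
  exact (Cardinal.lift_le.2 hrg).trans_eq Cardinal.lift_one

end H16F
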